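import Pool.Agent.LibLoc73.C1

set_option autoImplicit false

/-! Task C2: upper spectral bound and Bessel. Cite C1. -/

open Finset

namespace Pool.Agent.LibLoc73

variable {ι κ : Type*} [Fintype ι] [Fintype κ] [DecidableEq ι]

theorem C2_exists_vec (z : EuclideanSpace ℝ (ι ⊕ κ)) :
    ∃ (f : ι → ℝ) (g : κ → ℝ), z = vec f g := by
  refine ⟨fun i => z (Sum.inl i), fun j => z (Sum.inr j), ?_⟩
  ext x
  rcases x with i | j <;> simp [vec]

/-- pointwise bound of the inner products -/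
theorem C2_inner_sq (P : Par ι κ) (k : ℕ) (hP : P.Ok k) (i : ι) (f : ι → ℝ) (g : κ → ℝ) :
    (inner ℝ (P.wv i) (vec f g)) ^ 2 ≤
      2 * f i ^ 2 + 2 * ∑ j, if P.a i j ≠ 0 then g j ^ 2 else 0 := by
  rw [inner_wv_vec]
  have h1 : (∑ j, P.a i j * g j) ^ 2 ≤
      (∑ j, P.a i j ^ 2) * ∑ j, (if P.a i j ≠ 0 then g j else 0) ^ 2 := by
    have h2 : ∑ j, P.a i j * g j = ∑ j, P.a i j * (if P.a i j ≠ 0 then g j else 0) := by
      refine Finset.sum_congr rfl fun j _ => ?_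
      split_ifs with h
      · rfl
      · rw [not_not] at h
        rw [h, zero_mul, zero_mul]
    rw [h2]
    exact Finset.sum_mul_sq_le_sq_mul_sq _ _ _
  have h3 : ∑ j, (if P.a i j ≠ 0 then g j else 0) ^ 2 =
      ∑ j, if P.a i j ≠ 0 then g j ^ 2 else 0 := by
    refine Finset.sum_congr rfl fun j _ => ?_
    split_ifs <;> simp
  rw [h3] at h1
  have h4 := hP.hcol i
  have h5 : 0 ≤ ∑ j, (if P.a i j ≠ 0 then g j ^ 2 else 0) :=
    Finset.sum_nonneg fun j _ => by split_ifs <;> positivity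
  have h6 : (∑ j, P.a i j * g j) ^ 2 ≤ ∑ j, if P.a i j ≠ 0 then g j ^ 2 else 0 := by
    nlinarith
  nlinarith [sq_nonneg (f i - ∑ j, P.a i j * g j)]

/-- `⟨w_i, z⟩ = f_i + ⟨a_i, g⟩` for `z = (f, g)`; `⟨a_i,g⟩² ≤ ∑_{j : a_ij ≠ 0} g_j²`, every row has
at most `k` nonzero entries, so the sum is at most `2|f|² + 2k|g|² ≤ 2k |z|²` -/
theorem sum_inner_sq_le (P : Par ι κ) (k : ℕ) (hP : P.Ok k) (N : Finset ι)
    (z : EuclideanSpace ℝ (ι ⊕ κ)) :
    ∑ i ∈ N, (inner ℝ (P.wv i) z) ^ 2 ≤ P.Lc * ‖z‖ ^ 2 := by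
  obtain ⟨f, g, rfl⟩ := C2_exists_vec z
  have h1 : ∑ i ∈ N, (inner ℝ (P.wv i) (vec f g)) ^ 2 ≤
      ∑ i, (2 * f i ^ 2 + 2 * ∑ j, if P.a i j ≠ 0 then g j ^ 2 else 0) := by
    refine (Finset.sum_le_sum fun i _ => C2_inner_sq P k hP i f g).trans ?_
    refine Finset.sum_le_sum_of_subset_of_nonneg (Finset.subset_univ _) fun i _ _ => ?_
    have : 0 ≤ ∑ j, (if P.a i j ≠ 0 then g j ^ 2 else 0) :=
      Finset.sum_nonneg fun j _ => by split_ifs <;> positivity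
    positivity
  refine h1.trans ?_
  rw [Finset.sum_add_distrib, ← Finset.mul_sum, ← Finset.mul_sum, Finset.sum_comm, norm_vec_sq]
  have h2 : ∀ j, ∑ i, (if P.a i j ≠ 0 then g j ^ 2 else 0) ≤ k * g j ^ 2 := by
    intro j
    rw [← Finset.sum_filter, Finset.sum_const, nsmul_eq_mul]
    have : ((univ.filter (fun i => P.a i j ≠ 0)).card : ℝ) ≤ k := by exact_mod_cast hP.hrow j
    exact mul_le_mul_of_nonneg_right this (sq_nonneg _)
  have h3 : ∑ j, ∑ i, (if P.a i j ≠ 0 then g j ^ 2 else 0) ≤ k * ∑ j, g j ^ 2 := by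
    rw [Finset.mul_sum]
    exact Finset.sum_le_sum fun j _ => h2 j
  have h4 : 0 ≤ ∑ i, f i ^ 2 := Finset.sum_nonneg fun i _ => sq_nonneg _
  have h5 : 0 ≤ ∑ j, g j ^ 2 := Finset.sum_nonneg fun j _ => sq_nonneg _
  have hk : (2 : ℝ) ≤ k := by exact_mod_cast hP.hk
  have hL := hP.hL
  nlinarith [mul_le_mul_of_nonneg_right hL h4, mul_le_mul_of_nonneg_right hL h5]

/-- variables of one colour have disjoint supports -/
theorem bes_of_color (P : Par ι κ) (k : ℕ) (hP : P.Ok k) (Q : Finset ι) (q : ℕ)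
    (hQ : ∀ p ∈ Q, P.c p = q) : Bes P.wv Q := by
  intro z
  obtain ⟨f, g, rfl⟩ := C2_exists_vec z
  refine (Finset.sum_le_sum fun i _ => C2_inner_sq P k hP i f g).trans ?_
  rw [Finset.sum_add_distrib, ← Finset.mul_sum, ← Finset.mul_sum, Finset.sum_comm, norm_vec_sq]
  have h1 : ∑ i ∈ Q, f i ^ 2 ≤ ∑ i, f i ^ 2 :=
    Finset.sum_le_sum_of_subset_of_nonneg (Finset.subset_univ _) fun i _ _ => sq_nonneg _
  have h2 : ∀ j, ∑ i ∈ Q, (if P.a i j ≠ 0 then g j ^ 2 else 0) ≤ g j ^ 2 := by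
    intro j
    rw [← Finset.sum_filter, Finset.sum_const, nsmul_eq_mul]
    have hc : (Q.filter (fun i => P.a i j ≠ 0)).card ≤ 1 := by
      rw [Finset.card_le_one]
      intro a ha b hb
      rw [Finset.mem_filter] at ha hb
      by_contra hne
      exact hP.hc a b j hne ha.2 hb.2 ((hQ a ha.1).trans (hQ b hb.1).symm)
    have : ((Q.filter (fun i => P.a i j ≠ 0)).card : ℝ) ≤ 1 := by exact_mod_cast hc
    nlinarith [sq_nonneg (g j)]
  have h3 : ∑ j, ∑ i ∈ Q, (if P.a i j ≠ 0 then g j ^ 2 else 0) ≤ ∑ j, g j ^ 2 :=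
    Finset.sum_le_sum fun j _ => h2 j
  linarith

end Pool.Agent.LibLoc73
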