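import Pool.Agent.LibLoc73.A1

set_option autoImplicit false

/-! Task A2: the scalar step inequality. You may cite the lemmas of A1. -/

namespace Pool.Agent.LibLoc73

/-- the relative increment -/
noncomputable def rho (x δ w : ℝ) : ℝ := δ * Real.sinh (2 * w) / Phi x w

theorem A2_sinh_le_cosh (t : ℝ) : |Real.sinh t| ≤ Real.cosh t := by
  rw [abs_le]
  constructor
  · have := Real.exp_pos t
    rw [← Real.cosh_add_sinh] at this
    linarith
  · have := Real.exp_pos (-t)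
    rw [← Real.cosh_sub_sinh] at this
    linarith

/-- `chi (x+e) - chi x = e (1/(Phi Phi') - 1)`, `Phi, Phi' ∈ [e^{-2|w|}, e^{2|w|}]`,
`|1 - Phi Phi'| ≤ 2 |sinh 2w| Phi'` -/
theorem chi_diff {x e : ℝ} (hx : |x| ≤ 1) (hxe : |x + e| ≤ 1) (w : ℝ) :
    |chi (x + e) w - chi x w| ≤ 2 * |rho x e w| := by
  have hp := Phi_pos hx w
  have hp' := Phi_pos hxe w
  have hcs := Real.cosh_sq_sub_sinh_sq (2 * w)
  obtain ⟨hx1, hx2⟩ := abs_le.mp hx
  obtain ⟨hy1, hy2⟩ := abs_le.mp hxe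
  have hSC := abs_le.mp (A2_sinh_le_cosh (2 * w))
  set S := Real.sinh (2 * w) with hS
  set C := Real.cosh (2 * w) with hC
  have hPhi : Phi x w = C + x * S := rfl
  have hPhi' : Phi (x + e) w = C + (x + e) * S := rfl
  have e1 : chi (x + e) w - chi x w =
      e * (1 - Phi x w * Phi (x + e) w) / (Phi x w * Phi (x + e) w) := by
    rw [chi, chi, div_sub_div _ _ hp'.ne' hp.ne', div_eq_div_iff (by positivity) (by positivity)]
    rw [hPhi, hPhi']
    linear_combination (e * (C + (x + e) * S) * (C + x * S)) * hcs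
  have e2 : 1 - Phi x w * Phi (x + e) w = -S * ((x + (x + e)) * C + (1 + x * (x + e)) * S) := by
    rw [hPhi, hPhi']
    linear_combination (-1) * hcs
  have e3 : |(x + (x + e)) * C + (1 + x * (x + e)) * S| ≤ 2 * Phi (x + e) w := by
    rw [hPhi', abs_le]
    generalize x + e = y at *
    constructor
    · have a1 : 0 ≤ (3 + x) * (1 + y) := mul_nonneg (by linarith) (by linarith)
      have a2 : 0 ≤ (1 + x) * (1 - y) := mul_nonneg (by linarith) (by linarith)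
      nlinarith [mul_nonneg a1 (by linarith : 0 ≤ C + S), mul_nonneg a2 (by linarith : 0 ≤ C - S)]
    · have a1 : 0 ≤ (3 - x) * (1 - y) := mul_nonneg (by linarith) (by linarith)
      have a2 : 0 ≤ (1 - x) * (1 + y) := mul_nonneg (by linarith) (by linarith)
      nlinarith [mul_nonneg a1 (by linarith : 0 ≤ C - S), mul_nonneg a2 (by linarith : 0 ≤ C + S)]
  have e4 : |1 - Phi x w * Phi (x + e) w| ≤ 2 * |S| * Phi (x + e) w := by
    rw [e2, abs_mul, abs_neg]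
    calc |S| * |(x + (x + e)) * C + (1 + x * (x + e)) * S| ≤ |S| * (2 * Phi (x + e) w) :=
          mul_le_mul_of_nonneg_left e3 (abs_nonneg S)
      _ = 2 * |S| * Phi (x + e) w := by ring
  rw [e1, rho, abs_div, abs_mul e, abs_of_pos (mul_pos hp hp'), abs_div, abs_mul e,
    abs_of_pos hp, ← hS, div_le_iff₀ (mul_pos hp hp')]
  have e5 : 2 * (|e| * |S| / Phi x w) * (Phi x w * Phi (x + e) w) =
      |e| * (2 * |S| * Phi (x + e) w) := by
    field_simp
  rw [e5]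
  exact mul_le_mul_of_nonneg_left e4 (abs_nonneg e)

theorem rho_abs_le {x δ : ℝ} (h1 : |x + δ| ≤ 1) (h2 : |x - δ| ≤ 1) (w : ℝ) :
    |rho x δ w| ≤ 1 := by
  have hx : |x| ≤ 1 := by
    rw [abs_le] at *
    constructor <;> linarith [h1.1, h1.2, h2.1, h2.2]
  have hp := Phi_pos hx w
  have hp1 := Phi_pos h1 w
  have hp2 := Phi_pos h2 w
  rw [rho, abs_div, abs_of_pos hp, div_le_one hp, abs_le]
  rw [Phi] at *
  constructor <;> nlinarith

theorem chi_le_rho {x : ℝ} (hx : |x| ≤ 1) (δ w : ℝ) : (δ * chi x w) ^ 2 ≤ rho x δ w ^ 2 := by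
  have e1 : δ * chi x w = (1 - x ^ 2) * rho x δ w := by
    rw [chi, rho]
    ring
  obtain ⟨hx1, hx2⟩ := abs_le.mp hx
  have h1 : 0 ≤ 1 - x ^ 2 := by nlinarith
  have h2 : 1 - x ^ 2 ≤ 1 := by nlinarith [sq_nonneg x]
  rw [e1, mul_pow]
  have h3 : (1 - x ^ 2) ^ 2 ≤ 1 := by nlinarith
  nlinarith [sq_nonneg (rho x δ w)]

/-- `½ (√(1+ρ) e^{-b} + √(1-ρ) e^{b}) ≤ exp (-ρ²/16 + (5/2) b²)`: write it as
`A cosh b - B sinh b`, `A = ½(√(1+ρ)+√(1-ρ)) ≤ 1 - ρ²/8`, `B = ½(√(1+ρ)-√(1-ρ))`, `B² ≤ ρ²/2`,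
`cosh b ≤ e^{b²/2}`, `|sinh b| ≤ |b| e^{b²/2}`, `|ρ||b|/√2 ≤ ρ²/16 + 2b²` -/
theorem sqrt_ineq {ρ : ℝ} (hρ : |ρ| ≤ 1) (b : ℝ) :
    √(1 + ρ) * Real.exp (-b) + √(1 - ρ) * Real.exp b
      ≤ 2 * Real.exp (-(ρ ^ 2 / 16) + 5 / 2 * b ^ 2) := by
  obtain ⟨hr1, hr2⟩ := abs_le.mp hρ
  have hp2 : √(1 + ρ) ^ 2 = 1 + ρ := Real.sq_sqrt (by linarith)
  have hq2 : √(1 - ρ) ^ 2 = 1 - ρ := Real.sq_sqrt (by linarith)
  have hp0 : 0 ≤ √(1 + ρ) := Real.sqrt_nonneg _
  have hq0 : 0 ≤ √(1 - ρ) := Real.sqrt_nonneg _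
  set p := √(1 + ρ) with hp
  set q := √(1 - ρ) with hq
  -- p q = √(1 - ρ²)
  have hpq : (p * q) ^ 2 = 1 - ρ ^ 2 := by
    rw [mul_pow, hp2, hq2]
    ring
  have hρ2 : ρ ^ 2 ≤ 1 := by nlinarith
  have hpq0 : 0 ≤ p * q := mul_nonneg hp0 hq0
  have hpq1 : p * q ≤ 1 - ρ ^ 2 / 2 := by
    refine le_of_sq_le_sq ?_ (by linarith)
    rw [hpq]
    nlinarith [sq_nonneg (ρ ^ 2)]
  have hpq2 : 1 - ρ ^ 2 ≤ p * q := by
    refine le_of_sq_le_sq ?_ hpq0
    rw [hpq]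
    nlinarith
  have hA2 : ((p + q) / 2) ^ 2 ≤ (1 - ρ ^ 2 / 8) ^ 2 := by
    have : ((p + q) / 2) ^ 2 = (2 + 2 * (p * q)) / 4 := by
      linear_combination (1 / 4) * hp2 + (1 / 4) * hq2
    rw [this]
    nlinarith [sq_nonneg (ρ ^ 2)]
  have hA : (p + q) / 2 ≤ 1 - ρ ^ 2 / 8 := le_of_sq_le_sq hA2 (by linarith)
  have hB2 : ((p - q) / 2) ^ 2 ≤ ρ ^ 2 / 2 := by
    have : ((p - q) / 2) ^ 2 = (2 - 2 * (p * q)) / 4 := by
      linear_combination (1 / 4) * hp2 + (1 / 4) * hq2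
    rw [this]
    linarith
  have hcosh : Real.cosh b ≤ Real.exp (b ^ 2 / 2) := Real.cosh_le_exp_half_sq b
  have hsinh : |Real.sinh b| ≤ |b| * Real.cosh b := by
    have key : ∀ t : ℝ, 0 ≤ t → Real.sinh t ≤ t * Real.cosh t := by
      intro t ht
      have hd : ∀ s, HasDerivAt (fun s => s * Real.cosh s - Real.sinh s)
          (s * Real.sinh s) s := by
        intro s
        have h1 := ((hasDerivAt_id s).mul (Real.hasDerivAt_cosh s)).sub (Real.hasDerivAt_sinh s)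
        refine h1.congr_deriv ?_
        simp
      have hm : MonotoneOn (fun s => s * Real.cosh s - Real.sinh s) (Set.Ici 0) := by
        refine monotoneOn_of_deriv_nonneg (convex_Ici 0)
          (fun s _ => (hd s).continuousAt.continuousWithinAt)
          (fun s _ => (hd s).differentiableAt.differentiableWithinAt) fun s hs => ?_
        rw [(hd s).deriv]
        rw [interior_Ici] at hs
        have hs0 : 0 < s := hs
        exact mul_nonneg hs0.le (Real.sinh_nonneg_iff.mpr hs0.le)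
      have := hm (Set.mem_Ici.mpr le_rfl) (Set.mem_Ici.mpr ht) ht
      simp only [Real.sinh_zero, Real.cosh_zero, zero_mul, sub_zero] at this
      linarith
    have := key |b| (abs_nonneg b)
    rw [← Real.abs_sinh, Real.cosh_abs] at this
    exact this
  -- main estimate
  have h1 : p * Real.exp (-b) + q * Real.exp b =
      2 * ((p + q) / 2 * Real.cosh b - (p - q) / 2 * Real.sinh b) := by
    rw [← Real.cosh_add_sinh b, ← Real.cosh_sub_sinh b]
    ring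
  have hc0 : 0 < Real.cosh b := Real.cosh_pos b
  have h2 : -((p - q) / 2 * Real.sinh b) ≤ |(p - q) / 2| * |b| * Real.cosh b := by
    calc -((p - q) / 2 * Real.sinh b) ≤ |(p - q) / 2 * Real.sinh b| := neg_le_abs _
      _ = |(p - q) / 2| * |Real.sinh b| := abs_mul _ _
      _ ≤ |(p - q) / 2| * (|b| * Real.cosh b) :=
          mul_le_mul_of_nonneg_left hsinh (abs_nonneg _)
      _ = |(p - q) / 2| * |b| * Real.cosh b := by ring
  have h3 : |(p - q) / 2| * |b| ≤ ρ ^ 2 / 16 + 2 * b ^ 2 := by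
    have a1 : |(p - q) / 2| ^ 2 ≤ ρ ^ 2 / 2 := by rw [sq_abs]; exact hB2
    have a2 : |b| ^ 2 = b ^ 2 := sq_abs b
    nlinarith [sq_nonneg (|(p - q) / 2| - 4 * |b|)]
  have h4 : (p + q) / 2 + |(p - q) / 2| * |b| ≤ Real.exp (-(ρ ^ 2 / 16) + 2 * b ^ 2) := by
    have := Real.add_one_le_exp (-(ρ ^ 2 / 16) + 2 * b ^ 2)
    linarith
  have h5 : Real.exp (-(ρ ^ 2 / 16) + 5 / 2 * b ^ 2) =
      Real.exp (-(ρ ^ 2 / 16) + 2 * b ^ 2) * Real.exp (b ^ 2 / 2) := by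
    rw [← Real.exp_add]
    congr 1
    ring
  rw [h1, h5]
  have h6 : (p + q) / 2 * Real.cosh b - (p - q) / 2 * Real.sinh b ≤
      ((p + q) / 2 + |(p - q) / 2| * |b|) * Real.cosh b := by linarith
  have h7 : ((p + q) / 2 + |(p - q) / 2| * |b|) * Real.cosh b ≤
      Real.exp (-(ρ ^ 2 / 16) + 2 * b ^ 2) * Real.exp (b ^ 2 / 2) :=
    mul_le_mul h4 hcosh hc0.le (Real.exp_pos _).le
  linarith

/-- `G (x + e) w - G x w = ½ log (1 + rho) - w e` -/
theorem A2_G_diff {x e : ℝ} (hx : |x| ≤ 1) (hxe : |x + e| ≤ 1) (w : ℝ) :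
    0 < 1 + rho x e w ∧ Real.exp (e * w + (G (x + e) w - G x w)) = √(1 + rho x e w) := by
  have hp := Phi_pos hx w
  have hp' := Phi_pos hxe w
  have e1 : 1 + rho x e w = Phi (x + e) w / Phi x w := by
    rw [rho, eq_div_iff hp.ne', add_mul, div_mul_cancel₀ _ hp.ne', one_mul]
    simp only [Phi]
    ring
  have h0 : 0 < 1 + rho x e w := by
    rw [e1]
    positivity
  refine ⟨h0, ?_⟩
  have e2 : e * w + (G (x + e) w - G x w) = Real.log (1 + rho x e w) / 2 := by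
    rw [e1, Real.log_div hp'.ne' hp.ne', G, G]
    ring
  rw [e2, Real.exp_half, Real.exp_log h0]

/-- the scalar step: `δ ξ w + G (x + δ ξ) w - G x w = ½ log (1 + ρ ξ)` where `ρ = rho x δ w`, then
`sqrt_ineq` and `chi_diff` (`4/76 = 1/19`) -/
theorem scalar_step {x δ : ℝ} (h1 : |x + δ| ≤ 1) (h2 : |x - δ| ≤ 1) (w b : ℝ) :
    Real.exp (δ * (w - b) + (G (x + δ) w - G x w) + (chi (x + δ) w - chi x w) ^ 2 / 76)
      + Real.exp (-(δ * (w - b)) + (G (x - δ) w - G x w) + (chi (x - δ) w - chi x w) ^ 2 / 76)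
      ≤ 2 * Real.exp (-(1 / 16 - 1 / 19) * rho x δ w ^ 2 + 5 / 2 * (δ * b) ^ 2) := by
  have hx : |x| ≤ 1 := by
    rw [abs_le] at *
    constructor <;> linarith [h1.1, h1.2, h2.1, h2.2]
  have h2' : |x + -δ| ≤ 1 := by rwa [← sub_eq_add_neg]
  have hρ := rho_abs_le h1 h2 w
  have hneg : rho x (-δ) w = -rho x δ w := by
    rw [rho, rho]
    ring
  obtain ⟨_, g1⟩ := A2_G_diff hx h1 w
  obtain ⟨_, g2⟩ := A2_G_diff hx h2' w
  rw [hneg, ← sub_eq_add_neg, ← sub_eq_add_neg] at g2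
  have c1 := chi_diff hx h1 w
  have c2 := chi_diff hx h2' w
  rw [hneg, abs_neg, ← sub_eq_add_neg] at c2
  have d1 : (chi (x + δ) w - chi x w) ^ 2 / 76 ≤ rho x δ w ^ 2 / 19 := by
    have := sq_le_sq' (by linarith [abs_nonneg (rho x δ w), neg_abs_le (chi (x + δ) w - chi x w)])
      ((le_abs_self _).trans c1)
    rw [mul_pow, sq_abs] at this
    linarith
  have d2 : (chi (x - δ) w - chi x w) ^ 2 / 76 ≤ rho x δ w ^ 2 / 19 := by
    have := sq_le_sq' (by linarith [abs_nonneg (rho x δ w), neg_abs_le (chi (x - δ) w - chi x w)])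
      ((le_abs_self _).trans c2)
    rw [mul_pow, sq_abs] at this
    linarith
  have f1 : Real.exp (δ * (w - b) + (G (x + δ) w - G x w) +
      (chi (x + δ) w - chi x w) ^ 2 / 76) ≤
      √(1 + rho x δ w) * Real.exp (-(δ * b)) * Real.exp (rho x δ w ^ 2 / 19) := by
    rw [← g1, ← Real.exp_add, ← Real.exp_add]
    refine Real.exp_le_exp.mpr ?_
    linarith
  have f2 : Real.exp (-(δ * (w - b)) + (G (x - δ) w - G x w) +
      (chi (x - δ) w - chi x w) ^ 2 / 76) ≤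
      √(1 - rho x δ w) * Real.exp (δ * b) * Real.exp (rho x δ w ^ 2 / 19) := by
    rw [← g2, ← Real.exp_add, ← Real.exp_add]
    refine Real.exp_le_exp.mpr ?_
    linarith
  have f3 := sqrt_ineq hρ (δ * b)
  have f4 : Real.exp (-(1 / 16 - 1 / 19) * rho x δ w ^ 2 + 5 / 2 * (δ * b) ^ 2) =
      Real.exp (-(rho x δ w ^ 2 / 16) + 5 / 2 * (δ * b) ^ 2) *
        Real.exp (rho x δ w ^ 2 / 19) := by
    rw [← Real.exp_add]
    congr 1
    ring
  rw [f4]
  have f5 := mul_le_mul_of_nonneg_right f3 (Real.exp_pos (rho x δ w ^ 2 / 19)).le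
  linarith

end Pool.Agent.LibLoc73
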