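import Pool.Agent.LibLoc73.Defs

set_option autoImplicit false

/-! Task B4a: expectation of a product over independent signs. -/

open Finset

namespace Pool.Agent.LibLoc73

/-- expectation of a product over independent signs -/
theorem sum_exp_prod {ι : Type*} [Fintype ι] [DecidableEq ι] (P : Finset ι)
    (f : ι → Bool → ℝ) (c : ι → ℝ)
    (h : ∀ p ∈ P, Real.exp (f p true) + Real.exp (f p false) ≤ 2 * Real.exp (c p)) :
    ∑ ξ : ι → Bool, Real.exp (∑ p ∈ P, f p (ξ p))
      ≤ 2 ^ Fintype.card ι * Real.exp (∑ p ∈ P, c p) := by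
  set g : ι → Bool → ℝ := fun i b => if i ∈ P then Real.exp (f i b) else 1 with hg
  have h1 : ∀ ξ : ι → Bool, Real.exp (∑ p ∈ P, f p (ξ p)) = ∏ i, g i (ξ i) := by
    intro ξ
    rw [Real.exp_sum]
    simp only [hg]
    rw [Finset.prod_ite_mem, Finset.univ_inter]
  have h2 : ∑ ξ : ι → Bool, ∏ i, g i (ξ i) = ∏ i, ∑ b, g i b := by
    rw [Finset.prod_univ_sum, Fintype.piFinset_univ]
  simp only [h1]
  rw [h2]
  have h3 : ∏ i, ∑ b, g i b ≤ ∏ i : ι, (2 * (if i ∈ P then Real.exp (c i) else 1)) := by
    refine Finset.prod_le_prod (fun i _ => Finset.sum_nonneg fun b _ => ?_) fun i _ => ?_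
    · simp only [hg]
      split_ifs
      · exact (Real.exp_pos _).le
      · norm_num
    · simp only [hg, Fintype.sum_bool]
      split_ifs with hi
      · exact h i hi
      · norm_num
  refine h3.trans (le_of_eq ?_)
  rw [Finset.prod_mul_distrib, Finset.prod_const, Finset.card_univ, Finset.prod_ite_mem,
    Finset.univ_inter, Real.exp_sum]

end Pool.Agent.LibLoc73
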