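import Pool.Agent.LibLoc73.B3
import Pool.Agent.LibLoc73.A2
import Pool.Agent.LibLoc73.B4a

set_option autoImplicit false

/-! Task B4: the step lemma. Cite A1, A2, B1, B2, B3, B4a. -/

open Finset

namespace Pool.Agent.LibLoc73

variable {ι E : Type*} [Fintype ι] [DecidableEq ι]
  [NormedAddCommGroup E] [InnerProductSpace ℝ E] [FiniteDimensional ℝ E]

/-- STEP LEMMA. Take the maximiser `u* = v + z` for `x` (B2), bound `Psi` at `x + δ ξ` with
`Psi_compare`, factor with `sum_exp_prod` and `scalar_step` (with `w = ⟨w_p,u*⟩`,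
`b = ⟨w_p,u*⟩ - ⟨w_p,v_W⟩ - ε_p`), `(5/2) b² ≤ 5 d² + 5 ε²`, `∑ (δ d_p)² ≤ ∑ (δ χ_p)²/1600
≤ ∑ ρ_p²/1600`, `-(1/16-1/19) + 5/1600 < 0`. -/
theorem Psi_step (w : ι → E) (P : Finset ι) (δ : ℝ) (x : ι → ℝ)
    (hx : ∀ p ∈ P, |x p + δ| ≤ 1 ∧ |x p - δ| ≤ 1) (hB : Bes w P)
    (W : Submodule ℝ E) (v : E) (ε : ι → ℝ) :
    ∑ ξ : ι → Bool, Real.exp
        (∑ p ∈ P, δ * sgn (ξ p) * (inner ℝ (w p) (v - W.starProjection v) + ε p)
          + Psi w P W v (fun i => x i + δ * sgn (ξ i)))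
      ≤ 2 ^ Fintype.card ι * Real.exp (Psi w P W v x + 5 * δ ^ 2 * ∑ p ∈ P, ε p ^ 2) := by
  have hx1 : ∀ p ∈ P, |x p| ≤ 1 := by
    intro p hp
    obtain ⟨h1, h2⟩ := hx p hp
    rw [abs_le] at h1 h2 ⊢
    constructor <;> linarith
  obtain ⟨z, hz, hmax⟩ := exists_max w P x hx1 hB W v
  have hfo := first_order w P x hx1 W v z hz hmax
  have hPsi := F_le_Psi w P x hx1 hB W v z hz
  unfold F at hPsi
  have hdisp := disp_bound w P x hB W v z hz hfo
  set u := v + z with hu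
  set vW := v - W.starProjection v with hvW
  set b : ι → ℝ := fun p => inner ℝ (w p) u - inner ℝ (w p) vW - ε p with hb
  set f : ι → Bool → ℝ := fun p s =>
    δ * sgn s * (inner ℝ (w p) u - b p) +
      (G (x p + δ * sgn s) (inner ℝ (w p) u) - G (x p) (inner ℝ (w p) u)) +
      (chi (x p + δ * sgn s) (inner ℝ (w p) u) - chi (x p) (inner ℝ (w p) u)) ^ 2 / 76 with hf
  set c : ι → ℝ := fun p => -(1 / 16 - 1 / 19) * rho (x p) δ (inner ℝ (w p) u) ^ 2 +
    5 / 2 * (δ * b p) ^ 2 with hc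
  have hfc : ∀ p ∈ P, Real.exp (f p true) + Real.exp (f p false) ≤ 2 * Real.exp (c p) := by
    intro p hp
    have h1 := scalar_step (hx p hp).1 (hx p hp).2 (inner ℝ (w p) u) (b p)
    simp only [hf, hc, sgn, if_true, mul_one]
    have e1 : δ * (if false = true then (1 : ℝ) else -1) = -δ := by simp
    rw [e1]
    have e2 : x p + -δ = x p - δ := by ring
    rw [e2, neg_mul]
    exact h1
  have hpt : ∀ ξ : ι → Bool, ∑ p ∈ P, δ * sgn (ξ p) * (inner ℝ (w p) vW + ε p)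
      + Psi w P W v (fun i => x i + δ * sgn (ξ i)) ≤
      Psi w P W v x + ∑ p ∈ P, f p (ξ p) := by
    intro ξ
    have hx' : ∀ p ∈ P, |(fun i => x i + δ * sgn (ξ i)) p| ≤ 1 := by
      intro p hp
      simp only
      cases ξ p
      · have := (hx p hp).2
        simpa [sgn, sub_eq_add_neg] using this
      · have := (hx p hp).1
        simpa [sgn] using this
    have h2 := Psi_compare w P x (fun i => x i + δ * sgn (ξ i)) hx' hB W v z hz hfo
    rw [← hu] at h2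
    have h3 : ∑ p ∈ P, f p (ξ p) = ∑ p ∈ P, δ * sgn (ξ p) * (inner ℝ (w p) vW + ε p) +
        (∑ p ∈ P, G (x p + δ * sgn (ξ p)) (inner ℝ (w p) u) -
          ∑ p ∈ P, G (x p) (inner ℝ (w p) u)) +
        ∑ p ∈ P, (chi (x p + δ * sgn (ξ p)) (inner ℝ (w p) u) -
          chi (x p) (inner ℝ (w p) u)) ^ 2 / 76 := by
      rw [← Finset.sum_sub_distrib, ← Finset.sum_add_distrib, ← Finset.sum_add_distrib]
      refine Finset.sum_congr rfl fun p _ => ?_
      simp only [hf, hb]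
      ring
    rw [h3]
    linarith
  calc ∑ ξ : ι → Bool, Real.exp
        (∑ p ∈ P, δ * sgn (ξ p) * (inner ℝ (w p) vW + ε p)
          + Psi w P W v (fun i => x i + δ * sgn (ξ i)))
      ≤ ∑ ξ : ι → Bool, Real.exp (Psi w P W v x) * Real.exp (∑ p ∈ P, f p (ξ p)) := by
        refine Finset.sum_le_sum fun ξ _ => ?_
        rw [← Real.exp_add]
        exact Real.exp_le_exp.2 (hpt ξ)
    _ = Real.exp (Psi w P W v x) * ∑ ξ : ι → Bool, Real.exp (∑ p ∈ P, f p (ξ p)) := by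
        rw [Finset.mul_sum]
    _ ≤ Real.exp (Psi w P W v x) * (2 ^ Fintype.card ι * Real.exp (∑ p ∈ P, c p)) :=
        mul_le_mul_of_nonneg_left (sum_exp_prod P f c hfc) (Real.exp_pos _).le
    _ = 2 ^ Fintype.card ι * Real.exp (Psi w P W v x + ∑ p ∈ P, c p) := by
        rw [Real.exp_add]; ring
    _ ≤ _ := by
        refine mul_le_mul_of_nonneg_left (Real.exp_le_exp.2 ?_) (by positivity)
        have h4 : ∑ p ∈ P, c p ≤ -(1 / 16 - 1 / 19) * ∑ p ∈ P,
            rho (x p) δ (inner ℝ (w p) u) ^ 2 +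
            5 * δ ^ 2 * ∑ p ∈ P, (inner ℝ (w p) u - inner ℝ (w p) vW) ^ 2 +
            5 * δ ^ 2 * ∑ p ∈ P, ε p ^ 2 := by
          rw [Finset.mul_sum, Finset.mul_sum, Finset.mul_sum, ← Finset.sum_add_distrib,
            ← Finset.sum_add_distrib]
          refine Finset.sum_le_sum fun p _ => ?_
          simp only [hc, hb]
          have := sq_nonneg (δ * ((inner ℝ (w p) u - inner ℝ (w p) vW) + ε p))
          nlinarith
        have h5 : δ ^ 2 * ∑ p ∈ P, chi (x p) (inner ℝ (w p) u) ^ 2 ≤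
            ∑ p ∈ P, rho (x p) δ (inner ℝ (w p) u) ^ 2 := by
          rw [Finset.mul_sum]
          refine Finset.sum_le_sum fun p hp => ?_
          have := chi_le_rho (hx1 p hp) δ (inner ℝ (w p) u)
          rwa [mul_pow] at this
        have h6 : 5 * δ ^ 2 * ∑ p ∈ P, (inner ℝ (w p) u - inner ℝ (w p) vW) ^ 2 ≤
            5 * δ ^ 2 * ((∑ p ∈ P, chi (x p) (inner ℝ (w p) u) ^ 2) / 1600) :=
          mul_le_mul_of_nonneg_left hdisp (by positivity)
        have h7 : 0 ≤ ∑ p ∈ P, rho (x p) δ (inner ℝ (w p) u) ^ 2 :=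
          Finset.sum_nonneg fun p _ => sq_nonneg _
        have h8 : 5 * δ ^ 2 * ((∑ p ∈ P, chi (x p) (inner ℝ (w p) u) ^ 2) / 1600) =
            5 / 1600 * (δ ^ 2 * ∑ p ∈ P, chi (x p) (inner ℝ (w p) u) ^ 2) := by ring
        rw [h8] at h6
        linarith

end Pool.Agent.LibLoc73
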