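import Pool.Agent.LibLoc73.C2c

set_option autoImplicit false

/-! Task C3: the linear functional of the virtual increment. Cite C1, C2, C2c. -/

open Finset

namespace Pool.Agent.LibLoc73

variable {ι κ : Type*} [Fintype ι] [Fintype κ] [DecidableEq ι]

/-- the error coefficients: `ε_p = ⟨w_p, A^r (proj_W v + (S 1_N, 0))⟩` -/
noncomputable def eps (P : Par ι κ) (N : Finset ι) (v : EuclideanSpace ℝ (ι ⊕ κ)) (S : ι → ℝ)
    (p : ι) : ℝ :=
  inner ℝ (P.wv p) ((P.AN N)^[P.r]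
    ((P.spn N).starProjection v + vec (fun i => if i ∈ N then S i else 0) (fun _ : κ => (0 : ℝ))))

theorem C3_emb_iter (P : Par ι κ) (N : Finset ι) (r : ℕ) (u : ι → ℝ) :
    P.emb ((P.it N)^[r] u) = (P.AN N)^[r] (P.emb u) := by
  induction r generalizing u with
  | zero => rfl
  | succ r ih => rw [Function.iterate_succ_apply, ih, emb_it, Function.iterate_succ_apply]

theorem C3_inner_ini (P : Par ι κ) (s : ℕ) (L : Finset ι) (ξ : ι → Bool)
    (z : EuclideanSpace ℝ (ι ⊕ κ)) :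
    inner ℝ z (P.emb (P.ini s L ξ)) =
      ∑ p ∈ P.piv s L, P.δ * sgn (ξ p) * inner ℝ (P.wv p) z := by
  rw [Par.emb, inner_sum]
  rw [← Finset.sum_subset (Finset.subset_univ (P.piv s L))]
  · refine Finset.sum_congr rfl fun p hp => ?_
    rw [real_inner_smul_right, real_inner_comm]
    simp only [Par.ini, hp, if_true]
  · intro p _ hp
    simp only [Par.ini, hp, if_false, zero_smul, inner_zero_right]

theorem C3_perp (P : Par ι κ) (N : Finset ι) (v : EuclideanSpace ℝ (ι ⊕ κ)) :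
    ∀ i ∈ N, inner ℝ (P.wv i) (v - (P.spn N).starProjection v) = 0 := by
  intro i hi
  have h1 : P.wv i ∈ P.spn N := Submodule.subset_span ⟨i, hi, rfl⟩
  exact (Submodule.mem_orthogonal _ _).1 (Submodule.sub_starProjection_mem_orthogonal v) _ h1

theorem key_identity (P : Par ι κ) (s : ℕ) (L : Finset ι) (ξ : ι → Bool)
    (v : EuclideanSpace ℝ (ι ⊕ κ)) (S : ι → ℝ) :
    inner ℝ v (P.emb (P.upd s L ξ)) + ∑ i ∈ P.sla s L, S i * P.upd s L ξ i
      = ∑ p ∈ P.piv s L, P.δ * sgn (ξ p)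
          * (inner ℝ (P.wv p) (v - (P.spn (P.sla s L)).starProjection v)
            + eps P (P.sla s L) v S p) := by
  set N := P.sla s L with hN
  set sv : EuclideanSpace ℝ (ι ⊕ κ) :=
    vec (fun i => if i ∈ N then S i else 0) (fun _ : κ => (0 : ℝ)) with hsv
  have h1 : ∑ i ∈ N, S i * P.upd s L ξ i = inner ℝ sv (P.emb (P.upd s L ξ)) := by
    rw [hsv, inner_vec_emb]
    simp only [zero_mul, Finset.sum_const_zero, add_zero, ite_mul]
    rw [Finset.sum_ite_mem, Finset.univ_inter]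
  have h2 : P.emb (P.upd s L ξ) = (P.AN N)^[P.r] (P.emb (P.ini s L ξ)) := by
    rw [Par.upd, C3_emb_iter]
  set v' := (P.spn N).starProjection v with hv'
  have h3 : v = (v - v') + v' := by abel
  have h4 : (P.AN N)^[P.r] (v - v') = v - v' := AN_iter_perp P N P.r _ (C3_perp P N v)
  have h5 : inner ℝ v (P.emb (P.upd s L ξ)) + inner ℝ sv (P.emb (P.upd s L ξ)) =
      inner ℝ ((v - v') + (P.AN N)^[P.r] (v' + sv)) (P.emb (P.ini s L ξ)) := by
    rw [h2, ← AN_iter_symm, ← AN_iter_symm, ← inner_add_left, ← AN_iter_add]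
    conv_lhs => rw [h3]
    rw [add_assoc, AN_iter_add, h4]
  rw [h1, h5, C3_inner_ini]
  refine Finset.sum_congr rfl fun p _ => ?_
  rw [inner_add_right]
  rfl

theorem eps_bound (P : Par ι κ) (k : ℕ) (hP : P.Ok k) (N Q : Finset ι) (hQ : Bes P.wv Q)
    (v : EuclideanSpace ℝ (ι ⊕ κ)) (S : ι → ℝ) :
    ∑ p ∈ Q, eps P N v S p ^ 2
      ≤ 4 * ((1 - 1 / P.Lc) ^ P.r * ‖v‖ ^ 2 + ∑ i ∈ N, S i ^ 2) := by
  set sv : EuclideanSpace ℝ (ι ⊕ κ) :=
    vec (fun i => if i ∈ N then S i else 0) (fun _ : κ => (0 : ℝ)) with hsv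
  set v' := (P.spn N).starProjection v with hv'
  have h1 := hQ ((P.AN N)^[P.r] (v' + sv))
  refine h1.trans ?_
  rw [AN_iter_add]
  have h2 : ‖(P.AN N)^[P.r] v'‖ ^ 2 ≤ (1 - 1 / P.Lc) ^ P.r * ‖v‖ ^ 2 := by
    have h3 : v' ∈ P.spn N := Submodule.starProjection_apply_mem _ _
    refine (norm_AN_iter_span P k hP N P.r v' h3).trans ?_
    have hL := C2c_L P k hP
    have hL0 : 0 < P.Lc := by linarith
    have h1L : 0 ≤ 1 - 1 / P.Lc := by
      have : 1 / P.Lc ≤ 1 := by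
        rw [div_le_one hL0]; linarith
      linarith
    refine mul_le_mul_of_nonneg_left ?_ (pow_nonneg h1L _)
    have h4 : ‖v'‖ ≤ ‖v‖ := Submodule.norm_starProjection_apply_le _ _
    exact pow_le_pow_left₀ (norm_nonneg _) h4 2
  have h3 : ‖(P.AN N)^[P.r] sv‖ ^ 2 ≤ ∑ i ∈ N, S i ^ 2 := by
    refine (norm_AN_iter_le P k hP N P.r sv).trans (le_of_eq ?_)
    rw [hsv, norm_vec_sq]
    simp only [ne_eq, OfNat.ofNat_ne_zero, not_false_eq_true, zero_pow, Finset.sum_const_zero,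
      add_zero, ite_pow]
    rw [Finset.sum_ite_mem, Finset.univ_inter]
  have h4 : ‖(P.AN N)^[P.r] v' + (P.AN N)^[P.r] sv‖ ≤
      ‖(P.AN N)^[P.r] v'‖ + ‖(P.AN N)^[P.r] sv‖ := norm_add_le _ _
  have h5 : ‖(P.AN N)^[P.r] v' + (P.AN N)^[P.r] sv‖ ^ 2 ≤
      (‖(P.AN N)^[P.r] v'‖ + ‖(P.AN N)^[P.r] sv‖) ^ 2 :=
    pow_le_pow_left₀ (norm_nonneg _) h4 2
  nlinarith [sq_nonneg (‖(P.AN N)^[P.r] v'‖ - ‖(P.AN N)^[P.r] sv‖)]

end Pool.Agent.LibLoc73
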