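import Pool.Agent.LibLoc73.C3
import Pool.Agent.LibLoc73.B4

set_option autoImplicit false

/-! Task D2a: the one step inequality for the walk. Cite B1, B4, C1, C2, C2c, C3. -/

open Finset

namespace Pool.Agent.LibLoc73

variable {ι κ : Type*} [Fintype ι] [Fintype κ] [DecidableEq ι]

theorem D2a_iter_not_mem (P : Par ι κ) (N : Finset ι) (p : ι) (hp : p ∉ N) (n : ℕ) (u : ι → ℝ) :
    ((P.it N)^[n] u) p = u p := by
  induction n generalizing u with
  | zero => rfl
  | succ n ih =>
    rw [Function.iterate_succ_apply, ih]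
    unfold Par.it
    rw [if_neg hp]

theorem D2a_not_mem (P : Par ι κ) (s : ℕ) (L : Finset ι) (p : ι) (hp : p ∈ P.piv s L) :
    p ∉ P.sla s L := by
  unfold Par.piv at hp
  unfold Par.sla
  rw [mem_filter] at hp ⊢
  rintro ⟨_, h⟩
  rw [hp.2] at h
  exact lt_irrefl _ h

theorem D2a_newx (P : Par ι κ) (s : ℕ) (st : St ι) (ξ : ι → Bool) (p : ι)
    (hp : p ∈ P.piv s st.L) : P.newx s st ξ p = st.x p + P.δ * sgn (ξ p) := by
  have hn := D2a_not_mem P s st.L p hp
  unfold Par.newx
  rw [if_neg]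
  · congr 1
    unfold Par.upd
    rw [D2a_iter_not_mem P _ p hn]
    unfold Par.ini
    rw [if_pos hp]
  · unfold Par.big
    rw [mem_filter]
    exact fun h => hn h.1

theorem D2a_Psi_congr {E : Type*} [NormedAddCommGroup E] [InnerProductSpace ℝ E] (w : ι → E)
    (Q : Finset ι) (W : Submodule ℝ E) (v : E) (x y : ι → ℝ) (h : ∀ p ∈ Q, x p = y p) :
    Psi w Q W v x = Psi w Q W v y := by
  unfold Psi
  congr 1
  funext z
  unfold F
  congr 1
  refine sum_congr rfl fun p hp => ?_
  rw [h p hp]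

theorem D2a_sgn (b : Bool) : |sgn b| = 1 := by
  unfold sgn
  cases b <;> simp

/-- the one step inequality with the potential
`Φ s st = Psi wv (piv s L) (spn (sla s L)) v x + (remaining error budget)`.
`inner v (emb upd) + ...` is `key_identity`; `Psi` at the new state is at most
`Psi wv (piv s L) (spn (sla s L)) v x'` by `Psi_mono` (same colour) or `Psi_restart` (the colour
`(s+1)/T` is larger: the new pivots and slaves are old slaves), and only the values of `x'` on the
old pivots matter, where `x'_p = x_p + δ ξ_p`; then `Psi_step`. -/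
theorem Psi_walk_step (P : Par ι κ) (k : ℕ) (hP : P.Ok k) (s : ℕ) (st : St ι)
    (hst : ∀ i ∈ st.L, |st.x i| < 1 - P.η)
    (v : EuclideanSpace ℝ (ι ⊕ κ)) (S : ι → ℝ) :
    ∑ ξ : ι → Bool, Real.exp
        (inner ℝ v (P.emb (P.upd s st.L ξ)) + ∑ i ∈ P.sla s st.L, S i * P.upd s st.L ξ i
          + Psi P.wv (P.piv (s + 1) (P.step s st ξ).L)
              (P.spn (P.sla (s + 1) (P.step s st ξ).L)) v (P.step s st ξ).x)
      ≤ 2 ^ Fintype.card ι * Real.exp (Psi P.wv (P.piv s st.L) (P.spn (P.sla s st.L)) v st.x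
          + 20 * P.δ ^ 2 * ((1 - 1 / P.Lc) ^ P.r * ‖v‖ ^ 2 + ∑ i, S i ^ 2)) := by
  have hδ := hP.hδ
  have hδη := hP.hδη
  have hT := hP.hT
  have hpiv : ∀ p ∈ P.piv s st.L, |st.x p| < 1 - P.η := by
    intro p hp
    apply hst
    unfold Par.piv at hp
    exact (mem_filter.mp hp).1
  have hB : Bes P.wv (P.piv s st.L) := by
    apply bes_of_color P k hP _ (s / P.T)
    intro p hp
    unfold Par.piv at hp
    exact (mem_filter.mp hp).2
  -- the comparison of the potentials
  have hcmp : ∀ ξ : ι → Bool, Psi P.wv (P.piv (s + 1) (P.step s st ξ).L)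
      (P.spn (P.sla (s + 1) (P.step s st ξ).L)) v (P.step s st ξ).x ≤
      Psi P.wv (P.piv s st.L) (P.spn (P.sla s st.L)) v (fun i => st.x i + P.δ * sgn (ξ i)) := by
    intro ξ
    have hx' : ∀ p ∈ P.piv s st.L, (P.step s st ξ).x p = st.x p + P.δ * sgn (ξ p) :=
      fun p hp => D2a_newx P s st ξ p hp
    rw [← D2a_Psi_congr P.wv (P.piv s st.L) (P.spn (P.sla s st.L)) v _ _ hx']
    have hx1 : ∀ p ∈ P.piv s st.L, |(P.step s st ξ).x p| ≤ 1 := by
      intro p hp
      rw [hx' p hp]
      have h1 := hpiv p hp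
      have h2 : |P.δ * sgn (ξ p)| = P.δ := by
        rw [abs_mul, D2a_sgn, mul_one, abs_of_pos hδ]
      have h3 := abs_add_le (st.x p) (P.δ * sgn (ξ p))
      linarith
    have hLsub : (P.step s st ξ).L ⊆ st.L := by
      unfold Par.step
      exact filter_subset _ _
    have hdiv : s / P.T ≤ (s + 1) / P.T := Nat.div_le_div_right (Nat.le_succ s)
    have hsla : P.sla (s + 1) (P.step s st ξ).L ⊆ P.sla s st.L := by
      intro i hi
      unfold Par.sla at hi ⊢
      rw [mem_filter] at hi ⊢
      exact ⟨hLsub hi.1, lt_of_le_of_lt hdiv hi.2⟩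
    have hspn : P.spn (P.sla (s + 1) (P.step s st ξ).L) ≤ P.spn (P.sla s st.L) := by
      unfold Par.spn
      apply Submodule.span_mono
      apply Set.image_mono
      exact_mod_cast hsla
    rcases hdiv.eq_or_lt with heq | hlt
    · refine Psi_mono P.wv (P.piv s st.L) _ ?_ _ hx1 hB _ _ hspn v
      intro i hi
      unfold Par.piv at hi ⊢
      rw [mem_filter] at hi ⊢
      exact ⟨hLsub hi.1, by rw [hi.2, heq]⟩
    · refine Psi_restart P.wv (P.piv s st.L) _ _ hx1 ?_ hB ?_ _ _ hspn ?_ v
      · intro p hp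
        unfold Par.piv at hp
        rw [mem_filter] at hp
        have h1 := hp.1
        have h2 : |P.newx s st ξ p| < 1 - P.η := by
          unfold Par.step at h1
          rw [mem_filter] at h1
          exact h1.2.1
        have h3 : (P.step s st ξ).x p = P.newx s st ξ p := rfl
        rw [h3]
        linarith
      · apply bes_of_color P k hP _ ((s + 1) / P.T)
        intro p hp
        unfold Par.piv at hp
        exact (mem_filter.mp hp).2
      · intro p hp
        unfold Par.piv at hp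
        rw [mem_filter] at hp
        unfold Par.spn
        apply Submodule.subset_span
        refine ⟨p, ?_, rfl⟩
        rw [mem_coe]
        unfold Par.sla
        rw [mem_filter]
        exact ⟨hLsub hp.1, by rw [hp.2]; exact hlt⟩
  have hx2 : ∀ p ∈ P.piv s st.L, |st.x p + P.δ| ≤ 1 ∧ |st.x p - P.δ| ≤ 1 := by
    intro p hp
    have h1 := abs_lt.mp (hpiv p hp)
    constructor
    · rw [abs_le]; constructor <;> linarith
    · rw [abs_le]; constructor <;> linarith
  have hstep := Psi_step P.wv (P.piv s st.L) P.δ st.x hx2 hB (P.spn (P.sla s st.L)) v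
    (eps P (P.sla s st.L) v S)
  have heps := eps_bound P k hP (P.sla s st.L) (P.piv s st.L) hB v S
  have hS : ∑ i ∈ P.sla s st.L, S i ^ 2 ≤ ∑ i, S i ^ 2 :=
    sum_le_sum_of_subset_of_nonneg (subset_univ _) (fun i _ _ => sq_nonneg _)
  calc ∑ ξ : ι → Bool, Real.exp
        (inner ℝ v (P.emb (P.upd s st.L ξ)) + ∑ i ∈ P.sla s st.L, S i * P.upd s st.L ξ i
          + Psi P.wv (P.piv (s + 1) (P.step s st ξ).L)
              (P.spn (P.sla (s + 1) (P.step s st ξ).L)) v (P.step s st ξ).x)
      ≤ ∑ ξ : ι → Bool, Real.exp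
        (∑ p ∈ P.piv s st.L, P.δ * sgn (ξ p) * (inner ℝ (P.wv p)
            (v - (P.spn (P.sla s st.L)).starProjection v) + eps P (P.sla s st.L) v S p)
          + Psi P.wv (P.piv s st.L) (P.spn (P.sla s st.L)) v
            (fun i => st.x i + P.δ * sgn (ξ i))) := by
        refine sum_le_sum fun ξ _ => Real.exp_le_exp.mpr ?_
        rw [key_identity]
        exact add_le_add le_rfl (hcmp ξ)
    _ ≤ 2 ^ Fintype.card ι * Real.exp (Psi P.wv (P.piv s st.L) (P.spn (P.sla s st.L)) v st.x
          + 5 * P.δ ^ 2 * ∑ p ∈ P.piv s st.L, eps P (P.sla s st.L) v S p ^ 2) := hstep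
    _ ≤ _ := by
        refine mul_le_mul_of_nonneg_left (Real.exp_le_exp.mpr (add_le_add le_rfl ?_))
          (by positivity)
        have h5 : 0 ≤ 5 * P.δ ^ 2 := by positivity
        calc 5 * P.δ ^ 2 * ∑ p ∈ P.piv s st.L, eps P (P.sla s st.L) v S p ^ 2
            ≤ 5 * P.δ ^ 2 * (4 * ((1 - 1 / P.Lc) ^ P.r * ‖v‖ ^ 2 + ∑ i, S i ^ 2)) := by
              refine mul_le_mul_of_nonneg_left (heps.trans ?_) h5
              linarith
          _ = _ := by ring

end Pool.Agent.LibLoc73
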