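import Pool.Agent.LibLoc73.Defs

set_option autoImplicit false

/-! Task D1: the tower property for an adaptive process driven by independent letters. -/

open Finset

namespace Pool.Agent.LibLoc73

/-- extension of a finite sequence by a default letter -/
def extG {Ξ : Type*} (d : Ξ) (τ : ℕ) (ω : Fin τ → Ξ) : ℕ → Ξ :=
  fun s => if h : s < τ then ω ⟨s, h⟩ else d

/-- the run -/
def runG {S Ξ : Type*} (step : ℕ → S → Ξ → S) (s0 : S) (ω : ℕ → Ξ) : ℕ → S
  | 0 => s0
  | s + 1 => step s (runG step s0 ω s) (ω s)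

private theorem runG_congr {S Ξ : Type*} (step : ℕ → S → Ξ → S) (s0 : S) (ω ω' : ℕ → Ξ) (n : ℕ)
    (h : ∀ s < n, ω s = ω' s) : runG step s0 ω n = runG step s0 ω' n := by
  induction n with
  | zero => rfl
  | succ n ih =>
    simp only [runG]
    rw [ih fun s hs => h s (by omega), h n (by omega)]

private theorem extG_snoc_lt {Ξ : Type*} (d : Ξ) (τ : ℕ) (ω : Fin τ → Ξ) (ξ : Ξ) {s : ℕ}
    (hs : s < τ) : extG d (τ + 1) (Fin.snoc ω ξ) s = extG d τ ω s := by
  unfold extG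
  rw [dif_pos (by omega : s < τ + 1), dif_pos hs]
  exact Fin.snoc_castSucc (α := fun _ => Ξ) ξ ω ⟨s, hs⟩

private theorem extG_snoc_last {Ξ : Type*} (d : Ξ) (τ : ℕ) (ω : Fin τ → Ξ) (ξ : Ξ) :
    extG d (τ + 1) (Fin.snoc ω ξ) τ = ξ := by
  unfold extG
  rw [dif_pos (by omega : τ < τ + 1)]
  exact Fin.snoc_last (α := fun _ => Ξ) ξ ω

theorem tower {S Ξ : Type*} [Fintype Ξ] (d : Ξ) (step : ℕ → S → Ξ → S) (s0 : S)
    (Inv : ℕ → S → Prop) (h0 : Inv 0 s0)
    (hInv : ∀ s st ξ, Inv s st → Inv (s + 1) (step s st ξ))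
    (g : ℕ → S → Ξ → ℝ) (Φ : ℕ → S → ℝ) (τ : ℕ)
    (h : ∀ s < τ, ∀ st, Inv s st →
      ∑ ξ, Real.exp (g s st ξ + Φ (s + 1) (step s st ξ))
        ≤ (Fintype.card Ξ : ℝ) * Real.exp (Φ s st)) :
    ∑ ω : Fin τ → Ξ, Real.exp (∑ s ∈ range τ,
        g s (runG step s0 (extG d τ ω) s) (extG d τ ω s)
        + Φ τ (runG step s0 (extG d τ ω) τ))
      ≤ (Fintype.card Ξ : ℝ) ^ τ * Real.exp (Φ 0 s0) := by
  have hI : ∀ (ω : ℕ → Ξ) n, Inv n (runG step s0 ω n) := by
    intro ω n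
    induction n with
    | zero => exact h0
    | succ n ih => exact hInv _ _ _ ih
  induction τ with
  | zero => simp [runG]
  | succ τ ih =>
    have ih' := ih fun s hs => h s (by omega)
    have e1 : ∑ ω : Fin (τ + 1) → Ξ, Real.exp (∑ s ∈ range (τ + 1),
        g s (runG step s0 (extG d (τ + 1) ω) s) (extG d (τ + 1) ω s)
        + Φ (τ + 1) (runG step s0 (extG d (τ + 1) ω) (τ + 1))) =
        ∑ p : Ξ × (Fin τ → Ξ), Real.exp (∑ s ∈ range τ,
          g s (runG step s0 (extG d τ p.2) s) (extG d τ p.2 s)) *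
          Real.exp (g τ (runG step s0 (extG d τ p.2) τ) p.1 +
            Φ (τ + 1) (step τ (runG step s0 (extG d τ p.2) τ) p.1)) := by
      symm
      refine Fintype.sum_equiv (Fin.snocEquiv (fun _ => Ξ)) _ _ fun p => ?_
      obtain ⟨ξ, ω⟩ := p
      have e2 : (Fin.snocEquiv (fun _ => Ξ)) (ξ, ω) = (Fin.snoc ω ξ : Fin (τ + 1) → Ξ) := rfl
      rw [e2, ← Real.exp_add]
      congr 1
      have hrun : ∀ s ≤ τ, runG step s0 (extG d (τ + 1) (Fin.snoc ω ξ)) s =
          runG step s0 (extG d τ ω) s := by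
        intro s hs
        exact runG_congr _ _ _ _ _ fun t ht => extG_snoc_lt d τ ω ξ (by omega)
      rw [Finset.sum_range_succ]
      simp only [runG]
      rw [hrun τ le_rfl, extG_snoc_last]
      have e3 : ∑ s ∈ range τ, g s (runG step s0 (extG d (τ + 1) (Fin.snoc ω ξ)) s)
          (extG d (τ + 1) (Fin.snoc ω ξ) s) =
          ∑ s ∈ range τ, g s (runG step s0 (extG d τ ω) s) (extG d τ ω s) := by
        refine Finset.sum_congr rfl fun s hs => ?_
        have hs' := Finset.mem_range.1 hs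
        rw [hrun s hs'.le, extG_snoc_lt d τ ω ξ hs']
      rw [e3]
      ring
    rw [e1, Fintype.sum_prod_type_right]
    calc ∑ ω : Fin τ → Ξ, ∑ ξ : Ξ, Real.exp (∑ s ∈ range τ,
          g s (runG step s0 (extG d τ ω) s) (extG d τ ω s)) *
          Real.exp (g τ (runG step s0 (extG d τ ω) τ) ξ +
            Φ (τ + 1) (step τ (runG step s0 (extG d τ ω) τ) ξ))
        ≤ ∑ ω : Fin τ → Ξ, Real.exp (∑ s ∈ range τ,
          g s (runG step s0 (extG d τ ω) s) (extG d τ ω s)) *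
          ((Fintype.card Ξ : ℝ) * Real.exp (Φ τ (runG step s0 (extG d τ ω) τ))) := by
          refine Finset.sum_le_sum fun ω _ => ?_
          rw [← Finset.mul_sum]
          exact mul_le_mul_of_nonneg_left (h τ (by omega) _ (hI _ _)) (Real.exp_pos _).le
      _ = (Fintype.card Ξ : ℝ) * ∑ ω : Fin τ → Ξ, Real.exp (∑ s ∈ range τ,
          g s (runG step s0 (extG d τ ω) s) (extG d τ ω s) +
          Φ τ (runG step s0 (extG d τ ω) τ)) := by
          rw [Finset.mul_sum]
          refine Finset.sum_congr rfl fun ω _ => ?_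
          rw [Real.exp_add]; ring
      _ ≤ (Fintype.card Ξ : ℝ) * ((Fintype.card Ξ : ℝ) ^ τ * Real.exp (Φ 0 s0)) :=
          mul_le_mul_of_nonneg_left ih' (Nat.cast_nonneg _)
      _ = _ := by rw [pow_succ]; ring

end Pool.Agent.LibLoc73
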