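import Pool.Agent.LibLoc73.F1

set_option autoImplicit false

/-! Task I1: deterministic properties of the walk, part 1. -/

open Finset

namespace Pool.Agent.LibLoc73

variable {ι κ : Type*} [Fintype ι] [Fintype κ] [DecidableEq ι]

/-- outside the slaves the virtual increment is the starting increment -/
theorem upd_of_notMem (P : Par ι κ) (s : ℕ) (L : Finset ι) (ξ : ι → Bool) (i : ι)
    (hi : i ∉ P.sla s L) : P.upd s L ξ i = P.ini s L ξ i := by
  have key : ∀ (n : ℕ) (u : ι → ℝ), ((P.it (P.sla s L))^[n] u) i = u i := by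
    intro n
    induction n with
    | zero => intro u; rfl
    | succ n ih =>
      intro u
      rw [Function.iterate_succ_apply, ih]
      simp [Par.it, hi]
  exact key _ _

theorem I1_step_L_subset (P : Par ι κ) (s : ℕ) (st : St ι) (ξ : ι → Bool) :
    (P.step s st ξ).L ⊆ st.L := by
  classical
  intro i hi
  simp only [Par.step, Finset.mem_filter] at hi
  exact hi.1

theorem run_L_subset (P : Par ι κ) (ω : ℕ → ι → Bool) {s t : ℕ} (h : s ≤ t) :
    (P.run ω t).L ⊆ (P.run ω s).L := by
  induction t, h using Nat.le_induction with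
  | base => exact Finset.Subset.refl _
  | succ n _ ih => exact (I1_step_L_subset P n _ _).trans ih

theorem I1_newx_of_notMem (P : Par ι κ) (s : ℕ) (st : St ι) (ξ : ι → Bool) (i : ι)
    (hi : i ∉ st.L) : P.newx s st ξ i = st.x i := by
  classical
  have h1 : i ∉ P.sla s st.L := fun h => hi (Finset.mem_filter.1 h).1
  have h2 : i ∉ P.piv s st.L := fun h => hi (Finset.mem_filter.1 h).1
  have h3 : i ∉ P.big s st.L ξ := fun h => h1 (Finset.mem_filter.1 h).1
  simp only [Par.newx, h3, if_false]
  rw [upd_of_notMem P s st.L ξ i h1]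
  simp [Par.ini, h2]

/-- a variable that is not live does not move any more -/
theorem run_x_of_notMem (P : Par ι κ) (ω : ℕ → ι → Bool) {s t : ℕ} (h : s ≤ t) (i : ι)
    (hi : i ∉ (P.run ω s).L) : (P.run ω t).x i = (P.run ω s).x i := by
  induction t, h using Nat.le_induction with
  | base => rfl
  | succ n hn ih =>
    rw [← ih]
    exact I1_newx_of_notMem P n _ _ i (fun h => hi (run_L_subset P ω hn h))

theorem run_live (P : Par ι κ) (k : ℕ) (hP : P.Ok k) (ω : ℕ → ι → Bool) (s : ℕ) (i : ι)
    (hi : i ∈ (P.run ω s).L) : |(P.run ω s).x i| < 1 - P.η := by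
  classical
  cases s with
  | zero =>
    have := hP.hη
    simp only [Par.run, abs_zero]
    linarith
  | succ s =>
    simp only [Par.run, Par.step, Finset.mem_filter] at hi
    exact hi.2.1

theorem run_row_live (P : Par ι κ) (k : ℕ) (hP : P.Ok k) (ω : ℕ → ι → Bool) (s : ℕ) (i : ι)
    (hi : i ∈ (P.run ω s).L) (j : κ) (hj : P.a i j ≠ 0) :
    |P.row (P.run ω s).x j| < P.lam := by
  classical
  cases s with
  | zero =>
    have := hP.hlam
    simpa [Par.run, Par.row] using this
  | succ s =>
    simp only [Par.run, Par.step, Finset.mem_filter] at hi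
    exact (hi.2.2 j hj).1

end Pool.Agent.LibLoc73
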