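import Mathlib

set_option autoImplicit false

/-! Task K1: greedy colouring. -/

open Finset

namespace Pool.Agent.LibLoc73

theorem greedy {ι : Type*} [Fintype ι] [DecidableEq ι] (nb : ι → Finset ι) (D : ℕ)
    (hself : ∀ i, i ∈ nb i) (hsymm : ∀ i i', i' ∈ nb i ↔ i ∈ nb i')
    (hD : ∀ i, (nb i).card ≤ D) :
    ∃ c : ι → ℕ, (∀ i, c i < D) ∧ ∀ i i', i' ∈ nb i → i ≠ i' → c i ≠ c i' := by
  have hpos : ∀ i : ι, 0 < D := fun i => lt_of_lt_of_le (card_pos.mpr ⟨i, hself i⟩) (hD i)
  have key : ∀ s : Finset ι, ∃ c : ι → ℕ, (∀ i, c i < D) ∧
      ∀ i ∈ s, ∀ i' ∈ s, i' ∈ nb i → i ≠ i' → c i ≠ c i' := by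
    intro s
    induction s using Finset.induction_on with
    | empty => exact ⟨fun _ => 0, fun i => hpos i, by simp⟩
    | insert a s ha ih =>
      obtain ⟨c, hc, hc2⟩ := ih
      have hcard : (((nb a).erase a).image c).card < D := by
        refine lt_of_le_of_lt card_image_le ?_
        rw [card_erase_of_mem (hself a)]
        have h1 := hD a
        have h2 : 0 < (nb a).card := card_pos.mpr ⟨a, hself a⟩
        omega
      obtain ⟨q, hq, hq2⟩ : ∃ q ∈ range D, q ∉ ((nb a).erase a).image c := by
        by_contra hcon
        push Not at hcon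
        have h1 := card_le_card (show range D ⊆ ((nb a).erase a).image c from hcon)
        rw [card_range] at h1
        omega
      refine ⟨Function.update c a q, fun i => ?_, fun i hi i' hi' hnb hne => ?_⟩
      · by_cases h : i = a
        · subst h
          rw [Function.update_self]
          exact mem_range.mp hq
        · rw [Function.update_of_ne h]
          exact hc i
      · by_cases h : i = a
        · subst h
          have h' : i' ≠ i := fun h => hne h.symm
          rw [Function.update_self, Function.update_of_ne h']
          intro h2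
          exact hq2 (mem_image.mpr ⟨i', mem_erase.mpr ⟨h', hnb⟩, h2.symm⟩)
        · by_cases h' : i' = a
          · subst h'
            rw [Function.update_self, Function.update_of_ne h]
            intro h2
            exact hq2 (mem_image.mpr ⟨i, mem_erase.mpr ⟨h, (hsymm i i').mp hnb⟩, h2⟩)
          · rw [Function.update_of_ne h, Function.update_of_ne h']
            exact hc2 i ((mem_insert.mp hi).resolve_left h) i'
              ((mem_insert.mp hi').resolve_left h') hnb hne
  obtain ⟨c, hc, hc2⟩ := key univ
  exact ⟨c, hc, fun i i' => hc2 i (mem_univ _) i' (mem_univ _)⟩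

end Pool.Agent.LibLoc73
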