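import Pool.Agent.LibLoc73.Defs

set_option autoImplicit false

/-! Task F1: balls. -/

open Finset

namespace Pool.Agent.LibLoc73

variable {ι κ : Type*} [Fintype ι] [Fintype κ] [DecidableEq ι]

theorem mem_nb_self (P : Par ι κ) (i : ι) : i ∈ P.nb i := by
  classical
  rw [Par.nb, Finset.mem_insert]
  exact Or.inl rfl

private theorem f1_mem_nb (P : Par ι κ) (i i' : ι) :
    i' ∈ P.nb i ↔ i' = i ∨ ∃ j, P.a i j ≠ 0 ∧ P.a i' j ≠ 0 := by
  classical
  rw [Par.nb, Finset.mem_insert, Finset.mem_filter]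
  simp

theorem mem_nb_symm (P : Par ι κ) (i i' : ι) : i' ∈ P.nb i ↔ i ∈ P.nb i' := by
  rw [f1_mem_nb, f1_mem_nb]
  constructor
  · rintro (h | ⟨j, h1, h2⟩)
    · exact Or.inl h.symm
    · exact Or.inr ⟨j, h2, h1⟩
  · rintro (h | ⟨j, h1, h2⟩)
    · exact Or.inl h.symm
    · exact Or.inr ⟨j, h2, h1⟩

theorem mem_nb_of_row (P : Par ι κ) (i i' : ι) (j : κ) (h : P.a i j ≠ 0) (h' : P.a i' j ≠ 0) :
    i' ∈ P.nb i := (f1_mem_nb P i i').2 (Or.inr ⟨j, h, h'⟩)

/-- `1 + k² (k-1) ≤ k³` -/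
theorem card_nb (P : Par ι κ) (k : ℕ) (hk : 1 ≤ k)
    (hrow : ∀ j, (univ.filter (fun i => P.a i j ≠ 0)).card ≤ k)
    (hrows : ∀ i, (univ.filter (fun j => P.a i j ≠ 0)).card ≤ k ^ 2) (i : ι) :
    (P.nb i).card ≤ k ^ 3 := by
  classical
  have hsub : P.nb i ⊆ insert i ((univ.filter (fun j => P.a i j ≠ 0)).biUnion
      (fun j => (univ.filter (fun i' => P.a i' j ≠ 0)).erase i)) := by
    intro i' hi'
    rw [f1_mem_nb] at hi'
    rw [Finset.mem_insert]
    by_cases h : i' = i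
    · exact Or.inl h
    · right
      obtain ⟨j, h1, h2⟩ := hi'.resolve_left h
      rw [Finset.mem_biUnion]
      refine ⟨j, ?_, ?_⟩
      · simpa using h1
      · simp [h, h2]
  have h1 : ((univ.filter (fun j => P.a i j ≠ 0)).biUnion
      (fun j => (univ.filter (fun i' => P.a i' j ≠ 0)).erase i)).card ≤ k ^ 2 * (k - 1) := by
    refine (Finset.card_biUnion_le_card_mul _ _ (k - 1) ?_).trans ?_
    · intro j hj
      have hij : P.a i j ≠ 0 := by simpa using hj
      rw [Finset.card_erase_of_mem (by simpa using hij)]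
      exact Nat.sub_le_sub_right (hrow j) 1
    · exact Nat.mul_le_mul_right _ (hrows i)
  calc (P.nb i).card ≤ _ := Finset.card_le_card hsub
    _ ≤ k ^ 2 * (k - 1) + 1 := (Finset.card_insert_le _ _).trans (Nat.add_le_add_right h1 1)
    _ ≤ k ^ 3 := by
      obtain ⟨m, rfl⟩ := Nat.exists_eq_add_of_le hk
      rw [Nat.add_sub_cancel_left]
      nlinarith [Nat.zero_le m, Nat.zero_le (m ^ 2)]

private theorem f1_mem_ball_succ (P : Par ι κ) (n : ℕ) (i i' : ι) :
    i' ∈ P.ball (n + 1) i ↔ ∃ m ∈ P.nb i, i' ∈ P.ball n m := by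
  rw [Par.ball, Finset.mem_biUnion]

theorem ball_mono (P : Par ι κ) {m n : ℕ} (h : m ≤ n) (i : ι) : P.ball m i ⊆ P.ball n i := by
  induction n, h using Nat.le_induction with
  | base => exact subset_rfl
  | succ n _ ih =>
    refine ih.trans ?_
    intro i' hi'
    exact (f1_mem_ball_succ P n i i').2 ⟨i, mem_nb_self P i, hi'⟩

private theorem f1_mem_ball_succ' (P : Par ι κ) (n : ℕ) : ∀ (i i' : ι),
    i' ∈ P.ball (n + 1) i ↔ ∃ m ∈ P.ball n i, i' ∈ P.nb m := by
  induction n with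
  | zero =>
    intro i i'
    rw [f1_mem_ball_succ]
    simp only [Par.ball, Finset.mem_singleton]
    constructor
    · rintro ⟨m, hm, rfl⟩
      exact ⟨i, rfl, hm⟩
    · rintro ⟨m, rfl, hm⟩
      exact ⟨i', hm, rfl⟩
  | succ n ih =>
    intro i i'
    rw [f1_mem_ball_succ]
    constructor
    · rintro ⟨m, hm, h⟩
      obtain ⟨m', hm', h'⟩ := (ih m i').1 h
      exact ⟨m', (f1_mem_ball_succ P n i m').2 ⟨m, hm, hm'⟩, h'⟩
    · rintro ⟨m, hm, h⟩
      obtain ⟨m', hm', h'⟩ := (f1_mem_ball_succ P n i m).1 hm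
      exact ⟨m', hm', (ih m' i').2 ⟨m, h', h⟩⟩

theorem ball_symm (P : Par ι κ) (n : ℕ) (i i' : ι) : i' ∈ P.ball n i ↔ i ∈ P.ball n i' := by
  induction n generalizing i i' with
  | zero =>
    simp only [Par.ball, Finset.mem_singleton]
    exact eq_comm
  | succ n ih =>
    rw [f1_mem_ball_succ, f1_mem_ball_succ']
    constructor
    · rintro ⟨m, hm, h⟩
      exact ⟨m, (ih m i').1 h, (mem_nb_symm P i m).1 hm⟩
    · rintro ⟨m, hm, h⟩
      exact ⟨m, (mem_nb_symm P i m).2 h, (ih m i').2 hm⟩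

/-- the ball of radius `m` around a point of the ball of radius `n` -/
theorem ball_add (P : Par ι κ) (m n : ℕ) (i i' : ι) (h : i' ∈ P.ball n i) :
    P.ball m i' ⊆ P.ball (m + n) i := by
  induction n generalizing i with
  | zero =>
    simp only [Par.ball, Finset.mem_singleton] at h
    subst h
    exact subset_rfl
  | succ n ih =>
    obtain ⟨i'', h1, h2⟩ := (f1_mem_ball_succ P n i i').1 h
    intro x hx
    exact (f1_mem_ball_succ P (m + n) i x).2 ⟨i'', h1, ih i'' h2 hx⟩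

theorem nb_subset_ball (P : Par ι κ) (i : ι) : P.nb i ⊆ P.ball 1 i := by
  intro i' hi'
  exact (f1_mem_ball_succ P 0 i i').2 ⟨i', hi', by simp [Par.ball]⟩

theorem card_ball (P : Par ι κ) (k : ℕ) (hP : P.Ok k) (n : ℕ) (i : ι) :
    (P.ball n i).card ≤ (k ^ 3) ^ n := by
  induction n generalizing i with
  | zero => simp [Par.ball]
  | succ n ih =>
    rw [Par.ball]
    refine (Finset.card_biUnion_le_card_mul _ _ ((k ^ 3) ^ n) (fun i' _ => ih i')).trans ?_
    rw [pow_succ, mul_comm]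
    exact Nat.mul_le_mul_left _ (card_nb P k (by have := hP.hk; omega) hP.hrow hP.hrows i)

end Pool.Agent.LibLoc73
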