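import Pool.Agent.LibLoc73.E1

set_option autoImplicit false

/-! Task E2: the confinement events of different variables are independent. Cite E1. -/

open Finset

namespace Pool.Agent.LibLoc73

variable {ι κ : Type*} [Fintype ι] [Fintype κ] [DecidableEq ι]

/-- counting with only some of the bits constrained -/
theorem E2_restrict {α β : Type*} [Fintype α] [Fintype β] [DecidableEq α] [DecidableEq β]
    (e : α → β) (he : Function.Injective e) (p : (α → Bool) → Prop) [DecidablePred p]
    [DecidablePred fun y : β → Bool => p (y ∘ e)] :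
    ((univ : Finset (β → Bool)).filter (fun y => p (y ∘ e))).card ≤
      2 ^ (Fintype.card β - Fintype.card α) * ((univ : Finset (α → Bool)).filter p).card := by
  classical
  apply Finset.card_le_mul_card_image_of_maps_to (f := fun y : β → Bool => y ∘ e)
  · intro y hy
    exact Finset.mem_filter.2 ⟨Finset.mem_univ _, (Finset.mem_filter.1 hy).2⟩
  · intro w _
    have h1 : Fintype.card ({x : β // x ∉ Set.range e} → Bool) =
        2 ^ (Fintype.card β - Fintype.card α) := by
      rw [Fintype.card_fun, Fintype.card_bool]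
      congr 1
      rw [Fintype.card_subtype_compl]
      congr 1
      exact Set.card_range_of_injective he
    rw [← h1, ← Finset.card_univ]
    apply Finset.card_le_card_of_injOn
      (fun (y : β → Bool) (x : {x : β // x ∉ Set.range e}) => y x.1)
    · intro y _
      exact Finset.mem_coe.2 (Finset.mem_univ _)
    · intro y hy y' hy' h
      rw [Finset.mem_coe, Finset.mem_filter] at hy hy'
      funext b
      by_cases hb : b ∈ Set.range e
      · obtain ⟨a, rfl⟩ := hb
        exact (congrFun hy.2 a).trans (congrFun hy'.2 a).symm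
      · exact congrFun h ⟨b, hb⟩

/-- the confinement event of one variable -/
def E2_ev (δ : ℝ) (T : ℕ) (y : Fin T → Bool) : Prop :=
  ∀ n ≤ T, |∑ t : Fin T, if (t : ℕ) < n then δ * sgn (y t) else 0| ≤ 2

theorem E2_conf_iff (P : Par ι κ) (τ : ℕ) (ω : Fin τ → ι → Bool) (z : ι)
    (hz : P.c z * P.T + P.T ≤ τ) :
    P.Conf (ext τ ω) z ↔ E2_ev P.δ P.T
      ((fun s => ω s z) ∘ (fun t : Fin P.T => (⟨P.c z * P.T + t, by omega⟩ : Fin τ))) := by
  unfold Par.Conf E2_ev
  apply forall_congr'
  intro n
  apply forall_congr'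
  intro hn
  have h1 : (∑ t ∈ range n, P.δ * sgn (ext τ ω (P.c z * P.T + t) z)) =
      ∑ t : Fin P.T, if (t : ℕ) < n then P.δ * sgn (((fun s => ω s z) ∘
        (fun t : Fin P.T => (⟨P.c z * P.T + t, by omega⟩ : Fin τ))) t) else 0 := by
    have h2 : ∀ t : Fin P.T, (if (t : ℕ) < n then P.δ * sgn (((fun s => ω s z) ∘
        (fun t : Fin P.T => (⟨P.c z * P.T + t, by omega⟩ : Fin τ))) t) else 0) =
        (fun t : ℕ => if t < n then P.δ * sgn (ext τ ω (P.c z * P.T + t) z) else 0) t := by
      intro t
      have h3 : P.c z * P.T + (t : ℕ) < τ := by have := t.2; omega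
      simp only [Function.comp, ext]
      rw [dif_pos h3]
    rw [Finset.sum_congr rfl fun t _ => h2 t,
      Fin.sum_univ_eq_sum_range
        (fun t : ℕ => if t < n then P.δ * sgn (ext τ ω (P.c z * P.T + t) z) else 0) P.T,
      ← Finset.sum_filter]
    apply Finset.sum_congr _ fun _ _ => rfl
    ext t
    rw [Finset.mem_filter, Finset.mem_range, Finset.mem_range]
    constructor
    · intro h
      exact ⟨by omega, h⟩
    · intro h
      exact h.2
  rw [h1]

open Classical in
/-- The event `Conf (ext τ ω) z` depends on the bits `ω t z`, `c z * T ≤ t < (c z + 1) * T`, only. -/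
theorem conf_prod (P : Par ι κ) (hδ : 0 < P.δ) (hδ1 : P.δ ≤ 1) (τ : ℕ) (A : Finset ι)
    (hA : ∀ z ∈ A, P.c z * P.T + P.T ≤ τ) :
    (((univ : Finset (Fin τ → ι → Bool)).filter (fun ω =>
        ∀ z ∈ A, P.Conf (ext τ ω) z)).card : ℝ)
      ≤ (2 ^ Fintype.card ι) ^ τ * (2 * Real.exp (-(P.δ ^ 2 * P.T / 9))) ^ A.card := by
  set b : ℝ := 2 * Real.exp (-(P.δ ^ 2 * P.T / 9)) with hb
  -- the event of one variable as a set of sequences
  set S : ι → Finset (Fin τ → Bool) := fun z =>
    if h : z ∈ A then (univ : Finset (Fin τ → Bool)).filter (fun y => E2_ev P.δ P.T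
      (y ∘ (fun t : Fin P.T => (⟨P.c z * P.T + t, by have := hA z h; omega⟩ : Fin τ)))) else univ with hS
  have hcard : ∀ z, ((S z).card : ℝ) ≤ 2 ^ τ * (if z ∈ A then b else 1) := by
    intro z
    by_cases hz : z ∈ A
    · have hzτ := hA z hz
      have hinj : Function.Injective
          (fun t : Fin P.T => (⟨P.c z * P.T + t, by omega⟩ : Fin τ)) := by
        intro t t' h
        have h1 : P.c z * P.T + (t : ℕ) = P.c z * P.T + (t' : ℕ) := congrArg Fin.val h
        exact Fin.ext (by omega)
      have h1 := E2_restrict (fun t : Fin P.T => (⟨P.c z * P.T + t, by omega⟩ : Fin τ)) hinj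
        (E2_ev P.δ P.T)
      rw [Fintype.card_fin, Fintype.card_fin] at h1
      have h2 : (((univ : Finset (Fin P.T → Bool)).filter (E2_ev P.δ P.T)).card : ℝ) ≤
          2 ^ P.T * b := by
        have h3 := conf_count P.δ hδ hδ1 P.T
        refine le_trans ?_ h3
        rw [Nat.cast_le]
        apply Finset.card_le_card
        intro y hy
        exact Finset.mem_filter.2 ⟨Finset.mem_univ _, (Finset.mem_filter.1 hy).2⟩
      have h4 : ((S z).card : ℝ) ≤ 2 ^ (τ - P.T) *
          (((univ : Finset (Fin P.T → Bool)).filter (E2_ev P.δ P.T)).card : ℝ) := by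
        rw [hS]
        simp only [hz, dif_pos]
        exact_mod_cast h1
      rw [if_pos hz]
      refine h4.trans ?_
      calc (2 : ℝ) ^ (τ - P.T) * (((univ : Finset (Fin P.T → Bool)).filter (E2_ev P.δ P.T)).card : ℝ)
          ≤ 2 ^ (τ - P.T) * (2 ^ P.T * b) := mul_le_mul_of_nonneg_left h2 (by positivity)
        _ = 2 ^ τ * b := by
            rw [← mul_assoc, ← pow_add]
            congr 2
            omega
    · rw [hS]
      simp only [hz, dif_neg, not_false_eq_true, if_false, mul_one]
      simp
  -- the product set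
  have hsub : ((univ : Finset (Fin τ → ι → Bool)).filter (fun ω =>
        ∀ z ∈ A, P.Conf (ext τ ω) z)).card ≤ (Fintype.piFinset S).card := by
    apply Finset.card_le_card_of_injOn (fun (ω : Fin τ → ι → Bool) (z : ι) (s : Fin τ) => ω s z)
    · intro ω hω
      rw [Finset.mem_coe, Finset.mem_filter] at hω
      rw [Finset.mem_coe, Fintype.mem_piFinset]
      intro z
      by_cases hz : z ∈ A
      · rw [hS]
        simp only [hz, dif_pos]
        rw [Finset.mem_filter]
        exact ⟨Finset.mem_univ _, (E2_conf_iff P τ ω z (hA z hz)).1 (hω.2 z hz)⟩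
      · rw [hS]
        simp only [hz, dif_neg, not_false_eq_true]
        exact Finset.mem_univ _
    · intro ω _ ω' _ h
      funext s z
      exact congrFun (congrFun h z) s
  rw [Fintype.card_piFinset] at hsub
  calc (((univ : Finset (Fin τ → ι → Bool)).filter (fun ω =>
        ∀ z ∈ A, P.Conf (ext τ ω) z)).card : ℝ) ≤ ∏ z, ((S z).card : ℝ) := by exact_mod_cast hsub
    _ ≤ ∏ z, (2 ^ τ * (if z ∈ A then b else 1)) :=
        Finset.prod_le_prod (fun z _ => Nat.cast_nonneg _) fun z _ => hcard z
    _ = (2 ^ Fintype.card ι) ^ τ * b ^ A.card := by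
        rw [Finset.prod_mul_distrib, Finset.prod_const, Finset.card_univ, Finset.prod_ite_mem,
          Finset.univ_inter, Finset.prod_const, ← pow_mul, ← pow_mul, mul_comm τ]

end Pool.Agent.LibLoc73
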