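import Pool.Agent.LibLoc73.A1

set_option autoImplicit false

/-! Task B1: elementary properties of the potential `Psi`. Cite the lemmas of A1. -/

open Finset

namespace Pool.Agent.LibLoc73

variable {ι E : Type*} [NormedAddCommGroup E] [InnerProductSpace ℝ E] [FiniteDimensional ℝ E]

theorem F_le (w : ι → E) (P : Finset ι) (x : ι → ℝ) (hx : ∀ p ∈ P, |x p| ≤ 1) (hB : Bes w P)
    (u : E) : F w P x u ≤ -38 * ‖u‖ ^ 2 := by
  have h1 : ∑ p ∈ P, G (x p) (inner ℝ (w p) u) ≤ ∑ p ∈ P, (inner ℝ (w p) u) ^ 2 :=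
    Finset.sum_le_sum fun p hp => G_le_sq (hx p hp) _
  have h2 := hB u
  rw [F]
  linarith

theorem F_bdd (w : ι → E) (P : Finset ι) (x : ι → ℝ) (hx : ∀ p ∈ P, |x p| ≤ 1) (hB : Bes w P)
    (W : Submodule ℝ E) (v : E) : BddAbove (Set.range (fun z : W => F w P x (v + z))) := by
  refine ⟨0, ?_⟩
  rintro _ ⟨z, rfl⟩
  have := F_le w P x hx hB (v + z)
  have h2 := sq_nonneg ‖v + (z : E)‖
  show F w P x (v + z) ≤ 0
  linarith

theorem F_le_Psi (w : ι → E) (P : Finset ι) (x : ι → ℝ) (hx : ∀ p ∈ P, |x p| ≤ 1) (hB : Bes w P)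
    (W : Submodule ℝ E) (v : E) (z : E) (hz : z ∈ W) : F w P x (v + z) ≤ Psi w P W v x :=
  le_ciSup (F_bdd w P x hx hB W v) ⟨z, hz⟩

theorem Psi_le (w : ι → E) (P : Finset ι) (x : ι → ℝ) (W : Submodule ℝ E) (v : E) (c : ℝ)
    (h : ∀ z ∈ W, F w P x (v + z) ≤ c) : Psi w P W v x ≤ c :=
  ciSup_le fun z => h z z.2

theorem Psi_nonpos (w : ι → E) (P : Finset ι) (x : ι → ℝ) (hx : ∀ p ∈ P, |x p| ≤ 1)
    (hB : Bes w P) (W : Submodule ℝ E) (v : E) : Psi w P W v x ≤ 0 := by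
  refine Psi_le w P x W v 0 fun z _ => ?_
  have := F_le w P x hx hB (v + z)
  have h2 := sq_nonneg ‖v + (z : E)‖
  linarith

theorem B1_F_ge (w : ι → E) (P : Finset ι) (x : ι → ℝ) (hx : ∀ p ∈ P, |x p| ≤ 1) (u : E) :
    -40 * ‖u‖ ^ 2 ≤ F w P x u := by
  have h1 : 0 ≤ ∑ p ∈ P, G (x p) (inner ℝ (w p) u) :=
    Finset.sum_nonneg fun p hp => G_nonneg (hx p hp) _
  rw [F]
  linarith

/-- take `z = 0` : `F (v) ≥ -40 |v|²` since `G ≥ 0` -/
theorem Psi_ge (w : ι → E) (P : Finset ι) (x : ι → ℝ) (hx : ∀ p ∈ P, |x p| ≤ 1)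
    (hB : Bes w P) (W : Submodule ℝ E) (v : E) : -40 * ‖v‖ ^ 2 ≤ Psi w P W v x := by
  have h1 := B1_F_ge w P x hx (v + 0)
  rw [add_zero] at h1
  have h2 := F_le_Psi w P x hx hB W v 0 W.zero_mem
  rw [add_zero] at h2
  exact h1.trans h2

/-- fewer pivots, smaller space: the potential decreases -/
theorem Psi_mono (w : ι → E) (P P' : Finset ι) (hP : P' ⊆ P) (x : ι → ℝ)
    (hx : ∀ p ∈ P, |x p| ≤ 1) (hB : Bes w P) (W W' : Submodule ℝ E) (hW : W' ≤ W) (v : E) :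
    Psi w P' W' v x ≤ Psi w P W v x := by
  refine Psi_le w P' x W' v _ fun z hz => ?_
  refine le_trans ?_ (F_le_Psi w P x hx hB W v z (hW hz))
  rw [F, F]
  have : ∑ p ∈ P', G (x p) (inner ℝ (w p) (v + z)) ≤ ∑ p ∈ P, G (x p) (inner ℝ (w p) (v + z)) :=
    Finset.sum_le_sum_of_subset_of_nonneg hP fun p hp _ => G_nonneg (hx p hp) _
  linarith

/-- start of a new colour: with `z₀ ∈ W` such that `v + z₀ ⟂ W` (projection),
`Psi w ∅ W v x ≥ -40 |v + z₀|²`, and for `z' ∈ W' ≤ W`, `v + z' = (v + z₀) + (z' - z₀)`,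
`G ≤ ⟨w_p, z' - z₀⟩²`, sum `≤ 2 |z' - z₀|²` -/
theorem Psi_restart (w : ι → E) (P P' : Finset ι) (x : ι → ℝ) (hx : ∀ p ∈ P, |x p| ≤ 1)
    (hx' : ∀ p ∈ P', |x p| ≤ 1)
    (hB : Bes w P) (hB' : Bes w P') (W W' : Submodule ℝ E) (hW : W' ≤ W)
    (hP' : ∀ p ∈ P', w p ∈ W) (v : E) :
    Psi w P' W' v x ≤ Psi w P W v x := by
  obtain ⟨y, hy, z, hz, hv⟩ := W.exists_add_mem_mem_orthogonal v
  -- `v = y + z`, `y ∈ W`, `z ⟂ W`
  have hzW : ∀ u ∈ W, inner ℝ u z = (0 : ℝ) := fun u hu =>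
    (Submodule.mem_orthogonal W z).mp hz u hu
  refine Psi_le w P' x W' v _ fun z' hz' => ?_
  have hz'W : y + z' ∈ W := W.add_mem hy (hW hz')
  have e1 : v + z' = z + (y + z') := by rw [hv]; abel
  have e2 : ‖v + z'‖ ^ 2 = ‖z‖ ^ 2 + ‖y + z'‖ ^ 2 := by
    rw [e1, norm_add_sq_real, real_inner_comm, hzW _ hz'W]
    ring
  have e3 : ∑ p ∈ P', G (x p) (inner ℝ (w p) (v + z')) ≤ 2 * ‖y + z'‖ ^ 2 := by
    refine le_trans (Finset.sum_le_sum fun p hp => ?_) (hB' (y + z'))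
    have : inner ℝ (w p) (v + z') = (inner ℝ (w p) (y + z') : ℝ) := by
      rw [e1, inner_add_right, hzW _ (hP' p hp), zero_add]
    rw [this]
    exact G_le_sq (hx' p hp) _
  have e4 : -40 * ‖z‖ ^ 2 ≤ Psi w P W v x := by
    have h1 := F_le_Psi w P x hx hB W v (-y) (W.neg_mem hy)
    have h2 : v + -y = z := by rw [hv]; abel
    rw [h2] at h1
    exact (B1_F_ge w P x hx z).trans h1
  rw [F, e2]
  have := sq_nonneg ‖y + z'‖
  linarith

end Pool.Agent.LibLoc73
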