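import Pool.Agent.LibLoc73.F1

set_option autoImplicit false

/-! Task F2: locality of one step. Cite F1. -/

open Finset

namespace Pool.Agent.LibLoc73

variable {ι κ : Type*} [Fintype ι] [Fintype κ] [DecidableEq ι]

theorem row_local (P : Par ι κ) (j : κ) (u u' : ι → ℝ)
    (h : ∀ i, P.a i j ≠ 0 → u i = u' i) : P.row u j = P.row u' j := by
  rw [Par.row, Par.row]
  apply Finset.sum_congr rfl
  intro i _
  by_cases ha : P.a i j = 0
  · rw [ha, zero_mul, zero_mul]
  · rw [h i ha]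

private theorem f2_it (P : Par ι κ) (N N' : Finset ι) (n : ℕ) (u u' : ι → ℝ) : ∀ i : ι,
    (∀ i' ∈ P.ball n i, (i' ∈ N ↔ i' ∈ N')) → (∀ i' ∈ P.ball n i, u i' = u' i') →
    ((P.it N)^[n] u) i = ((P.it N')^[n] u') i := by
  induction n with
  | zero =>
    intro i _ hu
    exact hu i (by simp [Par.ball])
  | succ n ih =>
    intro i hN hu
    rw [Function.iterate_succ_apply', Function.iterate_succ_apply']
    have hb : ∀ i' ∈ P.nb i, P.ball n i' ⊆ P.ball (n + 1) i := fun i' hi' =>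
      ball_add P n 1 i i' (nb_subset_ball P i hi')
    have h1 : ∀ i' ∈ P.nb i, ((P.it N)^[n] u) i' = ((P.it N')^[n] u') i' := fun i' hi' =>
      ih i' (fun x hx => hN x (hb i' hi' hx)) (fun x hx => hu x (hb i' hi' hx))
    have hii : i ∈ P.ball (n + 1) i := ball_mono P (Nat.zero_le _) i (by simp [Par.ball])
    have h2 : i ∈ N ↔ i ∈ N' := hN i hii
    have h3 := h1 i (mem_nb_self P i)
    rw [Par.it, Par.it]
    by_cases hi : i ∈ N
    · rw [if_pos hi, if_pos (h2.1 hi), h3]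
      congr 3
      apply Finset.sum_congr rfl
      intro j _
      by_cases ha : P.a i j = 0
      · rw [ha, zero_mul, zero_mul]
      · rw [row_local P j _ _ (fun i' hi' => h1 i' (mem_nb_of_row P i i' j ha hi'))]
    · rw [if_neg hi, if_neg (fun h => hi (h2.2 h)), h3]

theorem upd_local (P : Par ι κ) (s : ℕ) (L L' : Finset ι) (ξ ξ' : ι → Bool) (i : ι)
    (hL : ∀ i' ∈ P.ball P.r i, (i' ∈ L ↔ i' ∈ L'))
    (hξ : ∀ i' ∈ P.ball P.r i, ξ i' = ξ' i') : P.upd s L ξ i = P.upd s L' ξ' i := by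
  rw [Par.upd, Par.upd]
  apply f2_it
  · intro i' hi'
    rw [Par.sla, Par.sla, Finset.mem_filter, Finset.mem_filter, hL i' hi']
  · intro i' hi'
    have h1 : i' ∈ P.piv s L ↔ i' ∈ P.piv s L' := by
      rw [Par.piv, Par.piv, Finset.mem_filter, Finset.mem_filter, hL i' hi']
    rw [Par.ini, Par.ini, hξ i' hi']
    by_cases h : i' ∈ P.piv s L
    · rw [if_pos h, if_pos (h1.1 h)]
    · rw [if_neg h, if_neg (fun h' => h (h1.2 h'))]

end Pool.Agent.LibLoc73
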