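import Pool.Agent.LibLoc73.F1

set_option autoImplicit false

/-! Task H1: combinatorics of the graph of causes, counting. Cite F1. -/

open Finset

namespace Pool.Agent.LibLoc73

variable {ι κ : Type*} [Fintype ι] [Fintype κ] [DecidableEq ι] [DecidableEq κ]

open Classical in
/-- neighbours in the graph of causes -/
noncomputable def nbH (P : Par ι κ) (h : κ ⊕ ι) : Finset (κ ⊕ ι) :=
  univ.filter (fun h' => P.HAdj h h')

theorem card_foot (P : Par ι κ) (k : ℕ) (hP : P.Ok k) (h : κ ⊕ ι) :
    (P.foot h).card ≤ k ^ 3 := by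
  classical
  have hk := hP.hk
  rcases h with j | z
  · have h1 : (P.foot (Sum.inl j)).card = (univ.filter (fun i => P.a i j ≠ 0)).card := by
      unfold Par.foot
      congr 1
    rw [h1]
    refine (hP.hrow j).trans ?_
    calc k = k ^ 1 := (pow_one k).symm
      _ ≤ k ^ 3 := Nat.pow_le_pow_right (by omega) (by norm_num)
  · exact card_nb P k (by omega) hP.hrow hP.hrows z

open Classical in
/-- a variable lies in the foot of at most `k² + k³ ≤ k⁴` causes -/
theorem card_foot_inv (P : Par ι κ) (k : ℕ) (hP : P.Ok k) (i : ι) :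
    ((univ : Finset (κ ⊕ ι)).filter (fun h => i ∈ P.foot h)).card ≤ k ^ 4 := by
  have hk := hP.hk
  have hsub : (univ : Finset (κ ⊕ ι)).filter (fun h => i ∈ P.foot h) ⊆
      (univ.filter (fun j => P.a i j ≠ 0)).image Sum.inl ∪ (P.nb i).image Sum.inr := by
    intro h hh
    rw [Finset.mem_filter] at hh
    rcases h with j | z
    · apply Finset.mem_union_left
      apply Finset.mem_image_of_mem
      rw [Finset.mem_filter]
      refine ⟨Finset.mem_univ _, ?_⟩
      have := hh.2
      unfold Par.foot at this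
      simpa using this
    · apply Finset.mem_union_right
      apply Finset.mem_image_of_mem
      have : i ∈ P.nb z := hh.2
      exact (mem_nb_symm P i z).2 this
  refine (Finset.card_le_card hsub).trans ((Finset.card_union_le _ _).trans ?_)
  have h1 : ((univ.filter (fun j => P.a i j ≠ 0)).image (Sum.inl : κ → κ ⊕ ι)).card ≤ k ^ 2 := by
    refine Finset.card_image_le.trans ?_
    convert hP.hrows i
  have h2 : ((P.nb i).image (Sum.inr : ι → κ ⊕ ι)).card ≤ k ^ 3 :=
    Finset.card_image_le.trans (card_nb P k (by omega) hP.hrow hP.hrows i)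
  have h3 : k ^ 2 + k ^ 3 ≤ k ^ 4 := by
    have h4 : 1 + k ≤ k ^ 2 := by nlinarith
    calc k ^ 2 + k ^ 3 = k ^ 2 * (1 + k) := by ring
      _ ≤ k ^ 2 * k ^ 2 := Nat.mul_le_mul_left _ h4
      _ = k ^ 4 := by ring
  omega

theorem card_nbH (P : Par ι κ) (k : ℕ) (hP : P.Ok k) (h : κ ⊕ ι) :
    (nbH P h).card ≤ k ^ 10 := by
  classical
  have hk := hP.hk
  have hsub : nbH P h ⊆ (P.foot h).biUnion (fun i => (P.nb i).biUnion (fun i' =>
      (univ : Finset (κ ⊕ ι)).filter (fun h' => i' ∈ P.foot h'))) := by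
    intro h' hh'
    unfold nbH at hh'
    rw [Finset.mem_filter] at hh'
    obtain ⟨i, hi, i', hi', hn⟩ := hh'.2
    rw [Finset.mem_biUnion]
    refine ⟨i, hi, ?_⟩
    rw [Finset.mem_biUnion]
    refine ⟨i', hn, ?_⟩
    rw [Finset.mem_filter]
    exact ⟨Finset.mem_univ _, hi'⟩
  refine (Finset.card_le_card hsub).trans ?_
  refine (Finset.card_biUnion_le_card_mul _ _ (k ^ 3 * k ^ 4) ?_).trans ?_
  · intro i _
    refine (Finset.card_biUnion_le_card_mul _ _ (k ^ 4) ?_).trans ?_
    · intro i' _
      convert card_foot_inv P k hP i'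
    · exact Nat.mul_le_mul_right _ (card_nb P k (by omega) hP.hrow hP.hrows i)
  · calc (P.foot h).card * (k ^ 3 * k ^ 4) ≤ k ^ 3 * (k ^ 3 * k ^ 4) :=
        Nat.mul_le_mul_right _ (card_foot P k hP h)
      _ = k ^ 10 := by ring

end Pool.Agent.LibLoc73
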