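import Pool.Agent.LibLoc73.F1

set_option autoImplicit false

/-! Task H1b: combinatorics of the graph of causes, distances. Cite F1. -/

open Finset

namespace Pool.Agent.LibLoc73

variable {ι κ : Type*} [Fintype ι] [Fintype κ] [DecidableEq ι] [DecidableEq κ]

theorem HAdj_symm (P : Par ι κ) (h h' : κ ⊕ ι) (hh : P.HAdj h h') : P.HAdj h' h := by
  obtain ⟨i, hi, i', hi', hn⟩ := hh
  exact ⟨i', hi', i, hi, (mem_nb_symm P i i').1 hn⟩

/-- the foot of a cause has diameter at most `2` -/
theorem foot_diam (P : Par ι κ) (h : κ ⊕ ι) (i i' : ι) (hi : i ∈ P.foot h) (hi' : i' ∈ P.foot h) :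
    i' ∈ P.ball 2 i := by
  classical
  rcases h with j | z
  · have h1 : P.a i j ≠ 0 := by
      unfold Par.foot at hi
      simpa using hi
    have h2 : P.a i' j ≠ 0 := by
      unfold Par.foot at hi'
      simpa using hi'
    exact ball_mono P (by norm_num : 1 ≤ 2) i (nb_subset_ball P i (mem_nb_of_row P i i' j h1 h2))
  · have h1 : i ∈ P.nb z := hi
    have h2 : i' ∈ P.nb z := hi'
    have h3 : z ∈ P.ball 1 i := nb_subset_ball P i ((mem_nb_symm P i z).2 h1)
    have h4 : i' ∈ P.ball 1 z := nb_subset_ball P z h2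
    exact ball_add P 1 1 i z h3 h4

/-- along a chain of `n + 1` causes that starts at `h`, every foot is in the ball of radius
`3 n + 2` around any point of the foot of `h` -/
theorem foot_chain (P : Par ι κ) (h : κ ⊕ ι) (l : List (κ ⊕ ι))
    (hl : (h :: l).IsChain (fun a b => P.HAdj a b)) (h' : κ ⊕ ι) (hh' : h' ∈ h :: l)
    (i i' : ι) (hi : i ∈ P.foot h) (hi' : i' ∈ P.foot h') :
    i' ∈ P.ball (3 * l.length + 2) i := by
  induction l generalizing h i with
  | nil =>
    have : h' = h := by simpa using hh'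
    subst this
    simpa using foot_diam P h' i i' hi hi'
  | cons b l ih =>
    rw [List.isChain_cons_cons] at hl
    rcases List.mem_cons.1 hh' with rfl | hmem
    · exact ball_mono P (by omega) i (foot_diam P h' i i' hi hi')
    · obtain ⟨p, hp, p', hp', hn⟩ := hl.1
      have h1 := ih b hl.2 hmem p' hp'
      have h2 : p ∈ P.ball 2 i := foot_diam P h i p hi hp
      have h3 : p' ∈ P.ball (1 + 2) i := ball_add P 1 2 i p h2 (nb_subset_ball P p hn)
      have h4 := ball_add P (3 * l.length + 2) (1 + 2) i p' h3 h1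
      exact ball_mono P (by simp; omega) i h4

end Pool.Agent.LibLoc73
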