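import Pool.Agent.LibKomH11.Counting

set_option autoImplicit false

/-! Task G1: symmetric local lemma, from `Pool.Agent.KomH11.exists_good` with
`I = Fin τ × ι`, `b = 2 - 1/s`. -/

open Finset

namespace Pool.Agent.LibLoc73

open Classical in
/-- the sign sequence attached to a set -/
noncomputable def G1_om {ι : Type*} (τ : ℕ) (B : Finset (Fin τ × ι)) : Fin τ → ι → Bool :=
  fun t i => decide ((t, i) ∈ B)

open Classical in
theorem G1_om_inj {ι : Type*} (τ : ℕ) : Function.Injective (G1_om (ι := ι) τ) := by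
  intro B B' h
  ext ⟨t, i⟩
  have := congrFun (congrFun h t) i
  simpa [G1_om] using this

open Classical in
/-- counting the bad patterns -/
theorem G1_bad {ι : Type*} [Fintype ι] (τ : ℕ) (Se : Finset (Fin τ × ι))
    (Ev : (Fin τ → ι → Bool) → Prop)
    (hdep : ∀ B, Ev (G1_om τ B) ↔ Ev (G1_om τ (B ∩ Se))) (p : ℝ)
    (hpe : (((univ : Finset (Fin τ → ι → Bool)).filter (fun ω => Ev ω)).card : ℝ)
      ≤ (2 ^ Fintype.card ι) ^ τ * p) :
    ((Se.powerset.filter (fun B => Ev (G1_om τ B))).card : ℝ) ≤ 2 ^ Se.card * p := by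
  set Bad := Se.powerset.filter (fun B => Ev (G1_om τ B)) with hBad
  have hinj : (Bad ×ˢ (univ \ Se : Finset (Fin τ × ι)).powerset).card ≤
      ((univ : Finset (Fin τ → ι → Bool)).filter (fun ω => Ev ω)).card := by
    refine Finset.card_le_card_of_injOn (fun x => G1_om τ (x.1 ∪ x.2)) ?_ ?_
    · rintro ⟨B, C⟩ h
      have h := Finset.mem_coe.1 h
      rw [Finset.mem_product, hBad, Finset.mem_filter, Finset.mem_powerset,
        Finset.mem_powerset] at h
      obtain ⟨⟨hB, hE⟩, hC⟩ := h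
      simp only at hB hE hC
      rw [Finset.mem_coe, Finset.mem_filter]
      refine ⟨Finset.mem_univ _, ?_⟩
      simp only
      rw [hdep]
      have : (B ∪ C) ∩ Se = B := by
        ext x
        simp only [Finset.mem_inter, Finset.mem_union]
        constructor
        · rintro ⟨h1 | h1, h2⟩
          · exact h1
          · exact absurd h2 (Finset.mem_sdiff.1 (hC h1)).2
        · intro h1
          exact ⟨Or.inl h1, hB h1⟩
      rw [this]
      exact hE
    · rintro ⟨B, C⟩ h ⟨B', C'⟩ h' heq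
      have h := Finset.mem_coe.1 h
      have h' := Finset.mem_coe.1 h'
      rw [Finset.mem_product, hBad, Finset.mem_filter, Finset.mem_powerset,
        Finset.mem_powerset] at h h'
      obtain ⟨⟨hB, -⟩, hC⟩ := h
      obtain ⟨⟨hB', -⟩, hC'⟩ := h'
      simp only at hB hC hB' hC'
      have hu : B ∪ C = B' ∪ C' := G1_om_inj τ heq
      have e1 : B = B' := by
        ext x
        constructor
        · intro hx
          have h1 : x ∈ B' ∪ C' := hu ▸ Finset.mem_union_left _ hx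
          rcases Finset.mem_union.1 h1 with h2 | h2
          · exact h2
          · exact absurd (hB hx) (Finset.mem_sdiff.1 (hC' h2)).2
        · intro hx
          have h1 : x ∈ B ∪ C := hu ▸ Finset.mem_union_left _ hx
          rcases Finset.mem_union.1 h1 with h2 | h2
          · exact h2
          · exact absurd (hB' hx) (Finset.mem_sdiff.1 (hC h2)).2
      have e2 : C = C' := by
        ext x
        constructor
        · intro hx
          have h1 : x ∈ B' ∪ C' := hu ▸ Finset.mem_union_right _ hx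
          rcases Finset.mem_union.1 h1 with h2 | h2
          · exact absurd (hB' h2) (Finset.mem_sdiff.1 (hC hx)).2
          · exact h2
        · intro hx
          have h1 : x ∈ B ∪ C := hu ▸ Finset.mem_union_right _ hx
          rcases Finset.mem_union.1 h1 with h2 | h2
          · exact absurd (hB h2) (Finset.mem_sdiff.1 (hC' hx)).2
          · exact h2
      rw [e1, e2]
  rw [Finset.card_product, Finset.card_powerset] at hinj
  have hcardI : (univ \ Se : Finset (Fin τ × ι)).card + Se.card = τ * Fintype.card ι := by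
    rw [Finset.card_sdiff_add_card_eq_card (Finset.subset_univ _), Finset.card_univ,
      Fintype.card_prod, Fintype.card_fin]
  have h1 : ((Bad.card : ℝ)) * 2 ^ (univ \ Se : Finset (Fin τ × ι)).card ≤
      (2 ^ Fintype.card ι) ^ τ * p := by
    refine le_trans ?_ hpe
    exact_mod_cast hinj
  have h2 : ((2 : ℝ) ^ Fintype.card ι) ^ τ =
      2 ^ (univ \ Se : Finset (Fin τ × ι)).card * 2 ^ Se.card := by
    rw [← pow_add, hcardI, ← pow_mul, mul_comm]
  rw [h2] at h1
  have h3 : (0 : ℝ) < 2 ^ (univ \ Se : Finset (Fin τ × ι)).card := by positivity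
  have h4 : (2 : ℝ) ^ (univ \ Se : Finset (Fin τ × ι)).card * (Bad.card : ℝ) ≤
      2 ^ (univ \ Se : Finset (Fin τ × ι)).card * (2 ^ Se.card * p) := by
    linarith
  exact le_of_mul_le_mul_left h4 h3

theorem G1_bern (s n : ℕ) (hs : 1 ≤ s) (hn : n ≤ s) :
    (2 : ℝ) ^ n * ((2 - 1 / (s : ℝ))⁻¹) ^ n ≤ 2 := by
  have hs0 : (0 : ℝ) < s := by exact_mod_cast hs
  have hs1 : (1 : ℝ) ≤ s := by exact_mod_cast hs
  have h1s : 1 / (s : ℝ) ≤ 1 := (div_le_one hs0).2 hs1
  have hb : (0 : ℝ) < 2 - 1 / (s : ℝ) := by linarith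
  have h1 : (2 : ℝ) * (2 - 1 / (s : ℝ))⁻¹ = (1 - 1 / (2 * (s : ℝ)))⁻¹ := by
    rw [← div_eq_mul_inv, div_eq_iff hb.ne', eq_comm, inv_mul_eq_div, div_eq_iff]
    · field_simp
    · have : 1 / (2 * (s : ℝ)) ≤ 1 / 2 := by
        apply one_div_le_one_div_of_le <;> linarith
      linarith
  rw [← mul_pow, h1, inv_pow]
  have h2 : (1 : ℝ) / 2 ≤ (1 - 1 / (2 * (s : ℝ))) ^ n := by
    have h3 := one_add_mul_le_pow (a := -(1 / (2 * (s : ℝ)))) (by
      have : 1 / (2 * (s : ℝ)) ≤ 1 / 2 := by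
        apply one_div_le_one_div_of_le <;> linarith
      linarith) n
    have h4 : (n : ℝ) * (1 / (2 * (s : ℝ))) ≤ 1 / 2 := by
      rw [mul_one_div, div_le_div_iff₀ (by positivity) (by norm_num)]
      have : (n : ℝ) ≤ s := by exact_mod_cast hn
      linarith
    have h5 : (1 : ℝ) + -(1 / (2 * (s : ℝ))) = 1 - 1 / (2 * (s : ℝ)) := by ring
    rw [h5] at h3
    linarith
  calc ((1 - 1 / (2 * (s : ℝ))) ^ n)⁻¹ ≤ (1 / 2)⁻¹ := inv_anti₀ (by norm_num) h2
    _ = 2 := by norm_num

open Classical in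
theorem lll {ι E : Type*} [Fintype ι] [Fintype E] (τ : ℕ) (A : E → Finset ι)
    (hAne : ∀ e, (A e).Nonempty) (hτ : 0 < τ)
    (Ev : E → (Fin τ → ι → Bool) → Prop)
    (hdep : ∀ e ω ω', (∀ t, ∀ i ∈ A e, ω t i = ω' t i) → (Ev e ω ↔ Ev e ω'))
    (s d : ℕ) (hs1 : 1 ≤ s) (hs : ∀ e, τ * (A e).card ≤ s)
    (hd : ∀ i, ((univ : Finset E).filter (fun e => i ∈ A e)).card ≤ d)
    (p : ℝ) (hp : 0 ≤ p)
    (hpe : ∀ e, (((univ : Finset (Fin τ → ι → Bool)).filter (fun ω => Ev e ω)).card : ℝ)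
      ≤ (2 ^ Fintype.card ι) ^ τ * p)
    (h4 : 4 * d * p * s ≤ 1) :
    ∃ ω : Fin τ → ι → Bool, ∀ e, ¬ Ev e ω := by
  have hs0 : (0 : ℝ) < s := by exact_mod_cast hs1
  have hs1' : (1 : ℝ) ≤ s := by exact_mod_cast hs1
  have h1s : 1 / (s : ℝ) ≤ 1 := (div_le_one hs0).2 hs1'
  have hb : (0 : ℝ) < 2 - 1 / (s : ℝ) := by linarith
  set Se : E → Finset (Fin τ × ι) := fun e => univ ×ˢ A e with hSe
  have hScard : ∀ e, (Se e).card = τ * (A e).card := by
    intro e
    rw [hSe]
    simp only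
    rw [Finset.card_product, Finset.card_univ, Fintype.card_fin]
  have hmemS : ∀ e t i, (t, i) ∈ Se e ↔ i ∈ A e := by
    intro e t i
    rw [hSe]
    simp
  have hSne : ∀ e ∈ (univ : Finset E), (Se e).Nonempty := by
    intro e _
    obtain ⟨i, hi⟩ := hAne e
    exact ⟨(⟨0, hτ⟩, i), (hmemS e _ i).2 hi⟩
  have hdepB : ∀ e B, Ev e (G1_om τ B) ↔ Ev e (G1_om τ (B ∩ Se e)) := by
    intro e B
    apply hdep
    intro t i hi
    simp only [G1_om, Finset.mem_inter, (hmemS e t i).2 hi, and_true]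
  set Bad : E → Finset (Finset (Fin τ × ι)) := fun e =>
    (Se e).powerset.filter (fun B => Ev e (G1_om τ B)) with hBad
  have hBadc : ∀ e, ((Bad e).card : ℝ) ≤ 2 ^ (Se e).card * p := fun e =>
    G1_bad τ (Se e) (Ev e) (hdepB e) p (hpe e)
  have hterm : ∀ e, ((Bad e).card : ℝ) * ((2 - 1 / (s : ℝ))⁻¹) ^ ((Se e).card - 1) ≤ 4 * p := by
    intro e
    have hpos : 0 < (Se e).card := Finset.card_pos.2 (hSne e (Finset.mem_univ _))
    obtain ⟨n, hn⟩ : ∃ n, (Se e).card = n + 1 := ⟨(Se e).card - 1, by omega⟩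
    have hle : n ≤ s := by
      have := hs e
      rw [← hScard e] at this
      omega
    have h5 := hBadc e
    rw [hn] at h5 ⊢
    rw [Nat.add_sub_cancel]
    have h6 := G1_bern s n hs1 hle
    have h7 : (0 : ℝ) ≤ ((2 - 1 / (s : ℝ))⁻¹) ^ n := by positivity
    calc ((Bad e).card : ℝ) * ((2 - 1 / (s : ℝ))⁻¹) ^ n ≤
          (2 ^ (n + 1) * p) * ((2 - 1 / (s : ℝ))⁻¹) ^ n := mul_le_mul_of_nonneg_right h5 h7
      _ = 2 * p * (2 ^ n * ((2 - 1 / (s : ℝ))⁻¹) ^ n) := by ring
      _ ≤ 2 * p * 2 := mul_le_mul_of_nonneg_left h6 (by positivity)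
      _ = 4 * p := by ring
  have hsum : ∀ x : Fin τ × ι, ∑ e ∈ (univ : Finset E).filter (fun e => x ∈ Se e),
      ((Bad e).card : ℝ) * ((2 - 1 / (s : ℝ))⁻¹) ^ ((Se e).card - 1) ≤
        2 - (2 - 1 / (s : ℝ)) := by
    rintro ⟨t, i⟩
    have hfil : (univ : Finset E).filter (fun e => (t, i) ∈ Se e) =
        (univ : Finset E).filter (fun e => i ∈ A e) := by
      ext e
      simp only [Finset.mem_filter, Finset.mem_univ, true_and, hmemS]
    rw [hfil]
    calc _ ≤ ∑ e ∈ (univ : Finset E).filter (fun e => i ∈ A e), 4 * p :=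
          Finset.sum_le_sum fun e _ => hterm e
      _ = ((univ : Finset E).filter (fun e => i ∈ A e)).card * (4 * p) := by
          rw [Finset.sum_const, nsmul_eq_mul]
      _ ≤ d * (4 * p) := by
          refine mul_le_mul_of_nonneg_right ?_ (by positivity)
          exact_mod_cast hd i
      _ ≤ 1 / s := by
          rw [le_div_iff₀ hs0]
          linarith
      _ = 2 - (2 - 1 / (s : ℝ)) := by ring
  obtain ⟨B, hB⟩ := Pool.Agent.KomH11.exists_good Se Bad (univ : Finset E) hSne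
    (2 - 1 / (s : ℝ)) hb hsum
  refine ⟨G1_om τ B, fun e he => hB e (Finset.mem_univ _) ?_⟩
  rw [hBad]
  simp only
  rw [Finset.mem_filter, Finset.mem_powerset]
  exact ⟨Finset.inter_subset_right, (hdepB e B).1 he⟩

end Pool.Agent.LibLoc73
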