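import Pool.Agent.LibLoc73.F1
import Pool.Agent.LibKomlos64.Sparse

set_option autoImplicit false

/-! Task J1: rounding cluster by cluster. -/

open Finset

namespace Pool.Agent.LibLoc73

variable {ι κ : Type*} [Fintype ι] [Fintype κ] [DecidableEq ι] [DecidableEq κ]

/-- adjacency inside the set of undecided variables -/
def URel (P : Par ι κ) (x : ι → ℝ) (a b : ι) : Prop :=
  |x a| < 1 - P.η ∧ |x b| < 1 - P.η ∧ b ∈ P.nb a

open Classical in
/-- the cluster of `i0` -/
noncomputable def clu (P : Par ι κ) (x : ι → ℝ) (i0 : ι) : Finset ι :=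
  univ.filter (fun i => Relation.ReflTransGen (URel P x) i0 i)

omit [DecidableEq κ] in
private theorem J1_mem (P : Par ι κ) (x : ι → ℝ) (i0 i : ι) :
    i ∈ clu P x i0 ↔ Relation.ReflTransGen (URel P x) i0 i := by
  classical
  simp [clu]

omit [DecidableEq κ] in
private theorem J1_symm (P : Par ι κ) (x : ι → ℝ) (a b : ι)
    (h : Relation.ReflTransGen (URel P x) a b) : Relation.ReflTransGen (URel P x) b a := by
  induction h with
  | refl => exact Relation.ReflTransGen.refl
  | tail _ h ih => exact Relation.ReflTransGen.head ⟨h.2.1, h.1, (mem_nb_symm P _ _).mp h.2.2⟩ ih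

omit [DecidableEq κ] in
private theorem J1_und (P : Par ι κ) (x : ι → ℝ) (i0 i : ι) (h0 : |x i0| < 1 - P.η)
    (hi : i ∈ clu P x i0) : |x i| < 1 - P.η := by
  rw [J1_mem] at hi
  rcases Relation.ReflTransGen.cases_tail hi with h | ⟨c, _, h⟩
  · rw [h]; exact h0
  · exact h.2.1

omit [DecidableEq κ] in
private theorem J1_eq (P : Par ι κ) (x : ι → ℝ) (i0 i : ι) (hi : i ∈ clu P x i0) :
    clu P x i = clu P x i0 := by
  rw [J1_mem] at hi
  ext b
  rw [J1_mem, J1_mem]
  have hs : Relation.ReflTransGen (URel P x) i i0 :=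
    J1_symm P x _ _ hi
  exact ⟨fun h => hi.trans h, fun h => hs.trans h⟩

omit [DecidableEq κ] in
private theorem J1_row (P : Par ι κ) (x : ι → ℝ) (i0 i : ι) (j : κ) (h0 : |x i0| < 1 - P.η)
    (hi : |x i| < 1 - P.η) (ha0 : P.a i0 j ≠ 0) (ha : P.a i j ≠ 0) : i ∈ clu P x i0 := by
  rw [J1_mem]
  exact Relation.ReflTransGen.single ⟨h0, hi, mem_nb_of_row P i0 i j ha0 ha⟩

omit [DecidableEq κ] in
private theorem J1_entry (P : Par ι κ) (k : ℕ) (hP : P.Ok k) (i : ι) (j : κ) : |P.a i j| ≤ 1 := by
  have h1 : (P.a i j) ^ 2 ≤ 1 :=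
    (single_le_sum (f := fun j => (P.a i j) ^ 2) (fun j _ => sq_nonneg _) (mem_univ j)).trans
      (hP.hcol i)
  exact (sq_le_one_iff_abs_le_one _).mp h1

/-- Clusters of undecided variables are rounded with `PB`; all undecided variables of one row lie
in one cluster; decided variables are rounded to their sign, which costs at most
`k η ≤ 1` in every row. -/
theorem round_clusters (P : Par ι κ) (k : ℕ) (hP : P.Ok k) (x : ι → ℝ) (hx : ∀ i, |x i| ≤ 1)
    (B : ℝ) (hB : 0 ≤ B) (M : ℕ) (hPB : Pool.Agent.LibKomlos64.PB P.a B M)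
    (hM : ∀ i0, |x i0| < 1 - P.η →
      (Pool.Agent.LibKomlos64.rowsOf P.a (clu P x i0)).card ≤ M) :
    ∃ ε : ι → ℝ, (∀ i, |ε i| = 1) ∧ ∀ j, |P.row ε j - P.row x j| ≤ B + 1 := by
  classical
  have hex : ∀ U : Finset ι, ∃ z : ι → ℝ, (Pool.Agent.LibKomlos64.rowsOf P.a U).card ≤ M →
      ((∀ i ∈ U, |z i| = 1) ∧ (∀ i, i ∉ U → z i = x i) ∧
        ∀ j, |Pool.Agent.LibKomlos64.rw' P.a x z j| ≤ B) := by
    intro U
    by_cases hU : (Pool.Agent.LibKomlos64.rowsOf P.a U).card ≤ M
    · obtain ⟨z, _, h2, h3, h4⟩ := hPB U hU x hx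
      exact ⟨z, fun _ => ⟨h2, h3, h4⟩⟩
    · exact ⟨x, fun h => absurd h hU⟩
  choose z hz using hex
  let ε : ι → ℝ := fun i => if |x i| < 1 - P.η then z (clu P x i) i else
    if 0 ≤ x i then 1 else -1
  have hself : ∀ i, i ∈ clu P x i := fun i => by
    rw [J1_mem]
  refine ⟨ε, fun i => ?_, fun j => ?_⟩
  · by_cases h : |x i| < 1 - P.η
    · have : ε i = z (clu P x i) i := if_pos h
      rw [this]
      exact (hz _ (hM i h)).1 i (hself i)
    · have : ε i = if 0 ≤ x i then 1 else -1 := if_neg h
      rw [this]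
      split_ifs <;> simp
  · have h1 : P.row ε j - P.row x j =
        ∑ i ∈ univ.filter (fun i => |x i| < 1 - P.η), P.a i j * (ε i - x i) +
        ∑ i ∈ univ.filter (fun i => ¬ |x i| < 1 - P.η), P.a i j * (ε i - x i) := by
      rw [sum_filter_add_sum_filter_not, Par.row, Par.row, ← sum_sub_distrib]
      exact sum_congr rfl fun i _ => by ring
    rw [h1]
    refine (abs_add_le _ _).trans (add_le_add ?_ ?_)
    · by_cases hex : ∃ i0, |x i0| < 1 - P.η ∧ P.a i0 j ≠ 0
      · obtain ⟨i0, h0, ha0⟩ := hex
        obtain ⟨_, h3, h4⟩ := hz _ (hM i0 h0)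
        have h5 : ∑ i ∈ univ.filter (fun i => |x i| < 1 - P.η), P.a i j * (ε i - x i) =
            Pool.Agent.LibKomlos64.rw' P.a x (z (clu P x i0)) j := by
          rw [Pool.Agent.LibKomlos64.rw', sum_filter]
          refine sum_congr rfl fun i _ => ?_
          by_cases hi : |x i| < 1 - P.η
          · rw [if_pos hi]
            by_cases ha : P.a i j = 0
            · rw [ha, zero_mul, zero_mul]
            · have hmem := J1_row P x i0 i j h0 hi ha0 ha
              have : ε i = z (clu P x i) i := if_pos hi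
              rw [this, J1_eq P x i0 i hmem]
          · rw [if_neg hi]
            have hnot : i ∉ clu P x i0 := fun h => hi (J1_und P x i0 i h0 h)
            rw [h3 i hnot, sub_self, mul_zero]
        rw [h5]
        exact h4 j
      · push Not at hex
        rw [sum_eq_zero]
        · rw [abs_zero]; exact hB
        · intro i hi
          rw [hex i (mem_filter.mp hi).2, zero_mul]
    · have h2 : ∀ i ∈ univ.filter (fun i => ¬ |x i| < 1 - P.η), |P.a i j * (ε i - x i)| ≤
          if P.a i j ≠ 0 then P.η else 0 := by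
        intro i hi
        have hi' : ¬ |x i| < 1 - P.η := (mem_filter.mp hi).2
        split_ifs with ha
        · have h3 : ε i = if 0 ≤ x i then 1 else -1 := if_neg hi'
          have h4 : |ε i - x i| ≤ P.η := by
            rw [h3]
            have h5 := hx i
            split_ifs with h6
            · rw [abs_of_nonneg h6] at h5 hi'
              rw [abs_of_nonneg (by linarith)]
              linarith
            · push Not at h6
              rw [abs_of_neg h6] at h5 hi'
              rw [abs_of_nonpos (by linarith)]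
              linarith
          rw [abs_mul]
          calc |P.a i j| * |ε i - x i| ≤ 1 * P.η :=
                mul_le_mul (J1_entry P k hP i j) h4 (abs_nonneg _) zero_le_one
            _ = P.η := one_mul _
        · push Not at ha
          rw [ha, zero_mul, abs_zero]
      have hη : 0 ≤ P.η := hP.hδ.le.trans hP.hδη
      calc |∑ i ∈ univ.filter (fun i => ¬ |x i| < 1 - P.η), P.a i j * (ε i - x i)|
          ≤ ∑ i ∈ univ.filter (fun i => ¬ |x i| < 1 - P.η), |P.a i j * (ε i - x i)| :=
            abs_sum_le_sum_abs _ _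
        _ ≤ ∑ i ∈ univ.filter (fun i => ¬ |x i| < 1 - P.η), (if P.a i j ≠ 0 then P.η else 0) :=
            sum_le_sum h2
        _ ≤ ∑ i, (if P.a i j ≠ 0 then P.η else 0) :=
            sum_le_sum_of_subset_of_nonneg (filter_subset _ _) fun i _ _ => by
              split_ifs
              · exact hη
              · exact le_rfl
        _ = ((univ.filter (fun i => P.a i j ≠ 0)).card : ℝ) * P.η := by
            rw [← sum_filter, sum_const, nsmul_eq_mul]
        _ ≤ (k : ℝ) * P.η := by
            apply mul_le_mul_of_nonneg_right _ hη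
            exact_mod_cast hP.hrow j
        _ ≤ 1 := by rw [mul_comm]; exact hP.hηk

end Pool.Agent.LibLoc73
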