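import Pool.Agent.LibLoc73.Defs

set_option autoImplicit false

/-! Task A1: elementary properties of `Phi`, `G`, `chi`. -/

namespace Pool.Agent.LibLoc73

/-- `Phi` lies between `exp (-2|w|)` and `exp (2|w|)` -/
theorem Phi_bounds {x : ℝ} (hx : |x| ≤ 1) (w : ℝ) :
    Real.exp (-(2 * |w|)) ≤ Phi x w ∧ Phi x w ≤ Real.exp (2 * |w|) := by
  have h1 : Real.cosh (2 * w) = Real.cosh (2 * |w|) := by
    rcases abs_choice w with h | h
    · rw [h]
    · rw [h, mul_neg, Real.cosh_neg]
  have h2 : |Real.sinh (2 * w)| = Real.sinh (2 * |w|) := by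
    rw [Real.abs_sinh, abs_mul, abs_two]
  have h3 : |x * Real.sinh (2 * w)| ≤ Real.sinh (2 * |w|) := by
    rw [abs_mul, h2]
    have : 0 ≤ Real.sinh (2 * |w|) := Real.sinh_nonneg_iff.mpr (by positivity)
    nlinarith [abs_nonneg x]
  obtain ⟨h4, h5⟩ := abs_le.mp h3
  have h6 : Real.exp (2 * |w|) = Real.cosh (2 * |w|) + Real.sinh (2 * |w|) :=
    (Real.cosh_add_sinh _).symm
  have h7 : Real.exp (-(2 * |w|)) = Real.cosh (2 * |w|) - Real.sinh (2 * |w|) :=
    (Real.cosh_sub_sinh _).symm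
  constructor
  · rw [Phi, h1, h7]
    linarith
  · rw [Phi, h1, h6]
    linarith

theorem Phi_pos {x : ℝ} (hx : |x| ≤ 1) (w : ℝ) : 0 < Phi x w :=
  (Real.exp_pos _).trans_le (Phi_bounds hx w).1

theorem A1_hasDerivAt_Phi (x w : ℝ) :
    HasDerivAt (fun w => Phi x w) (2 * Real.sinh (2 * w) + x * (2 * Real.cosh (2 * w))) w := by
  have h0 : HasDerivAt (fun w : ℝ => 2 * w) 2 w := by
    simpa using (hasDerivAt_id w).const_mul 2
  have h1 : HasDerivAt (fun w : ℝ => Real.cosh (2 * w)) (Real.sinh (2 * w) * 2) w :=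
    (Real.hasDerivAt_cosh (2 * w)).comp w h0
  have h2 : HasDerivAt (fun w : ℝ => Real.sinh (2 * w)) (Real.cosh (2 * w) * 2) w :=
    (Real.hasDerivAt_sinh (2 * w)).comp w h0
  have h3 := h1.add (h2.const_mul x)
  refine h3.congr_deriv ?_
  ring

theorem hasDerivAt_G {x : ℝ} (hx : |x| ≤ 1) (w : ℝ) :
    HasDerivAt (fun w => G x w) (chi x w) w := by
  have hp := Phi_pos hx w
  have h1 := ((A1_hasDerivAt_Phi x w).log hp.ne').div_const 2
  have h2 : HasDerivAt (fun w : ℝ => w * x) x w := by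
    simpa using (hasDerivAt_id w).mul_const x
  have h3 := h1.sub h2
  refine h3.congr_deriv ?_
  rw [chi]
  field_simp
  rw [Phi]
  ring

theorem A1_hasDerivAt_chi {x : ℝ} (hx : |x| ≤ 1) (w : ℝ) :
    HasDerivAt (fun w => chi x w) (2 * (1 - x ^ 2) / Phi x w ^ 2) w := by
  have hp := Phi_pos hx w
  have h0 : HasDerivAt (fun w : ℝ => 2 * w) 2 w := by
    simpa using (hasDerivAt_id w).const_mul 2
  have h2 : HasDerivAt (fun w : ℝ => Real.sinh (2 * w)) (Real.cosh (2 * w) * 2) w :=
    (Real.hasDerivAt_sinh (2 * w)).comp w h0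
  have h3 := (h2.const_mul (1 - x ^ 2)).div (A1_hasDerivAt_Phi x w) hp.ne'
  refine h3.congr_deriv ?_
  congr 1
  rw [Phi]
  have := Real.cosh_sq_sub_sinh_sq (2 * w)
  linear_combination (2 * (1 - x ^ 2)) * this

theorem A1_mono {x : ℝ} (hx : |x| ≤ 1) : Monotone (fun w => 2 * w - chi x w) := by
  have hd : ∀ w, HasDerivAt (fun w => 2 * w - chi x w) (2 - 2 * (1 - x ^ 2) / Phi x w ^ 2) w := by
    intro w
    have h0 : HasDerivAt (fun w : ℝ => 2 * w) 2 w := by
      simpa using (hasDerivAt_id w).const_mul 2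
    exact h0.sub (A1_hasDerivAt_chi hx w)
  refine monotone_of_deriv_nonneg (fun w => (hd w).differentiableAt) fun w => ?_
  rw [(hd w).deriv]
  have hp := Phi_pos hx w
  have : 2 * (1 - x ^ 2) / Phi x w ^ 2 ≤ 2 := by
    rw [div_le_iff₀ (by positivity)]
    have h1 := Real.cosh_sq_sub_sinh_sq (2 * w)
    have h2 : Phi x w ^ 2 - (1 - x ^ 2) =
        (Real.sinh (2 * w) + x * Real.cosh (2 * w)) ^ 2 := by
      rw [Phi]
      linear_combination (1 - x ^ 2) * h1
    nlinarith [sq_nonneg (Real.sinh (2 * w) + x * Real.cosh (2 * w))]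
  linarith

/-- second derivative of `G` is at most `2` (it is `2 (1 - ((sinh 2w + x cosh 2w)/Phi)^2)`) -/
theorem G_add_le {x : ℝ} (hx : |x| ≤ 1) (w t : ℝ) :
    G x (w + t) ≤ G x w + chi x w * t + t ^ 2 := by
  -- the difference has a minimum at `0`
  have hd : ∀ s, HasDerivAt (fun s => chi x w * s + s ^ 2 - G x (w + s))
      (chi x w + 2 * s - chi x (w + s)) s := by
    intro s
    have h1 : HasDerivAt (fun s : ℝ => chi x w * s) (chi x w) s := by
      simpa using (hasDerivAt_id s).const_mul (chi x w)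
    have h2 : HasDerivAt (fun s : ℝ => s ^ 2) (2 * s) s := by
      simpa using hasDerivAt_pow 2 s
    have h3 : HasDerivAt (fun s : ℝ => G x (w + s)) (chi x (w + s)) s :=
      (hasDerivAt_G hx (w + s)).comp_const_add w s
    exact (h1.add h2).sub h3
  have hmono := A1_mono hx
  have hcont : Continuous (fun s => chi x w * s + s ^ 2 - G x (w + s)) :=
    continuous_iff_continuousAt.mpr fun s => (hd s).continuousAt
  have key : chi x w * 0 + 0 ^ 2 - G x (w + 0) ≤ chi x w * t + t ^ 2 - G x (w + t) := by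
    rcases le_total 0 t with ht | ht
    · have hm : MonotoneOn (fun s => chi x w * s + s ^ 2 - G x (w + s)) (Set.Ici 0) := by
        refine monotoneOn_of_deriv_nonneg (convex_Ici 0) hcont.continuousOn
          (fun s _ => (hd s).differentiableAt.differentiableWithinAt) fun s hs => ?_
        rw [(hd s).deriv]
        rw [interior_Ici] at hs
        have := hmono (show w ≤ w + s by linarith [Set.mem_Ioi.mp hs])
        simp only at this
        linarith
      exact hm (Set.mem_Ici.mpr le_rfl) (Set.mem_Ici.mpr ht) ht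
    · have hm : AntitoneOn (fun s => chi x w * s + s ^ 2 - G x (w + s)) (Set.Iic 0) := by
        refine antitoneOn_of_deriv_nonpos (convex_Iic 0) hcont.continuousOn
          (fun s _ => (hd s).differentiableAt.differentiableWithinAt) fun s hs => ?_
        rw [(hd s).deriv]
        rw [interior_Iic] at hs
        have := hmono (show w + s ≤ w by linarith [Set.mem_Iio.mp hs])
        simp only at this
        linarith
      exact hm (Set.mem_Iic.mpr ht) (Set.mem_Iic.mpr le_rfl) ht
  rw [add_zero] at key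
  linarith

/-- `exp (2 G) = (1+x)/2 e^{2w(1-x)} + (1-x)/2 e^{-2w(1+x)} ≥ 1` by Jensen -/
theorem G_nonneg {x : ℝ} (hx : |x| ≤ 1) (w : ℝ) : 0 ≤ G x w := by
  obtain ⟨hx1, hx2⟩ := abs_le.mp hx
  have h1 : Real.exp (2 * (w * x)) ≤ Phi x w := by
    have e1 := Real.add_one_le_exp (2 * w * (1 - x))
    have e2 := Real.add_one_le_exp (-(2 * w * (1 + x)))
    have e3 : Phi x w = Real.exp (2 * (w * x)) *
        ((1 + x) / 2 * Real.exp (2 * w * (1 - x)) +
          (1 - x) / 2 * Real.exp (-(2 * w * (1 + x)))) := by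
      have a1 : Real.exp (2 * (w * x)) * Real.exp (2 * w * (1 - x)) = Real.exp (2 * w) := by
        rw [← Real.exp_add]
        congr 1
        ring
      have a2 : Real.exp (2 * (w * x)) * Real.exp (-(2 * w * (1 + x))) =
          Real.exp (-(2 * w)) := by
        rw [← Real.exp_add]
        congr 1
        ring
      rw [Phi, Real.cosh_eq, Real.sinh_eq]
      linear_combination (-(1 + x) / 2) * a1 + (-(1 - x) / 2) * a2
    have e4 : 1 ≤ (1 + x) / 2 * Real.exp (2 * w * (1 - x)) +
        (1 - x) / 2 * Real.exp (-(2 * w * (1 + x))) := by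
      have b1 := mul_le_mul_of_nonneg_left e1 (by linarith : 0 ≤ (1 + x) / 2)
      have b2 := mul_le_mul_of_nonneg_left e2 (by linarith : 0 ≤ (1 - x) / 2)
      nlinarith
    rw [e3]
    have := Real.exp_pos (2 * (w * x))
    nlinarith
  have h2 : 2 * (w * x) ≤ Real.log (Phi x w) := by
    rw [Real.le_log_iff_exp_le (Phi_pos hx w)]
    exact h1
  rw [G]
  linarith

/-- from `G_add_le` at `w = 0` -/
theorem G_le_sq {x : ℝ} (hx : |x| ≤ 1) (w : ℝ) : G x w ≤ w ^ 2 := by
  have h := G_add_le hx 0 w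
  have h0 : G x 0 = 0 := by simp [G, Phi]
  have h1 : chi x 0 = 0 := by simp [chi]
  rw [zero_add, h0, h1] at h
  linarith

end Pool.Agent.LibLoc73
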