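import Pool.Agent.LibLoc73.B1

set_option autoImplicit false

/-! Task B2: existence of the maximiser and the first order condition. Cite A1, B1. -/

open Finset

namespace Pool.Agent.LibLoc73

variable {ι E : Type*} [NormedAddCommGroup E] [InnerProductSpace ℝ E] [FiniteDimensional ℝ E]

theorem B2_F_cont (w : ι → E) (P : Finset ι) (x : ι → ℝ) (hx : ∀ p ∈ P, |x p| ≤ 1) :
    Continuous (F w P x) := by
  have h1 : Continuous (fun u : E => ∑ p ∈ P, G (x p) (inner ℝ (w p) u)) := by
    refine continuous_finsetSum P fun p hp => ?_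
    have hG : Continuous (fun t => G (x p) t) :=
      continuous_iff_continuousAt.mpr fun t => (hasDerivAt_G (hx p hp) t).continuousAt
    exact hG.comp (continuous_const.inner continuous_id)
  exact h1.sub (continuous_const.mul (continuous_norm.pow 2))

/-- continuity and coercivity (`F_le`) -/
theorem exists_max (w : ι → E) (P : Finset ι) (x : ι → ℝ) (hx : ∀ p ∈ P, |x p| ≤ 1)
    (hB : Bes w P) (W : Submodule ℝ E) (v : E) :
    ∃ z ∈ W, ∀ z' ∈ W, F w P x (v + z') ≤ F w P x (v + z) := by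
  have hcl : IsClosed (W : Set E) := W.closed_of_finiteDimensional
  set R : ℝ := 2 * ‖v‖ with hR
  have hcomp : IsCompact ((W : Set E) ∩ Metric.closedBall (-v) R) := by
    have := FiniteDimensional.proper_real E
    exact (isCompact_closedBall (-v) R).inter_left hcl
  have hne : ((W : Set E) ∩ Metric.closedBall (-v) R).Nonempty := by
    refine ⟨0, W.zero_mem, ?_⟩
    rw [Metric.mem_closedBall, dist_eq_norm, sub_neg_eq_add, zero_add, hR]
    linarith [norm_nonneg v]
  have hcont : ContinuousOn (fun z : E => F w P x (v + z))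
      ((W : Set E) ∩ Metric.closedBall (-v) R) :=
    ((B2_F_cont w P x hx).comp (continuous_const.add continuous_id)).continuousOn
  obtain ⟨z, hz, hmax⟩ := hcomp.exists_isMaxOn hne hcont
  refine ⟨z, hz.1, fun z' hz' => ?_⟩
  by_cases hz'R : z' ∈ Metric.closedBall (-v) R
  · exact hmax ⟨hz', hz'R⟩
  · rw [Metric.mem_closedBall, dist_eq_norm, sub_neg_eq_add, not_le, add_comm] at hz'R
    have h1 := F_le w P x hx hB (v + z')
    have h2 : -40 * ‖v‖ ^ 2 ≤ F w P x (v + 0) := by
      have := B1_F_ge w P x hx (v + 0)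
      rwa [add_zero] at this ⊢
    have h3 : F w P x (v + 0) ≤ F w P x (v + z) := by
      refine hmax ⟨W.zero_mem, ?_⟩
      rw [Metric.mem_closedBall, dist_eq_norm, sub_neg_eq_add, zero_add, hR]
      linarith [norm_nonneg v]
    have h4 : (2 * ‖v‖) ^ 2 ≤ ‖v + z'‖ ^ 2 :=
      pow_le_pow_left₀ (by positivity) hz'R.le 2
    nlinarith [sq_nonneg ‖v‖]

/-- differentiate `t ↦ F (v + z + t h)` at `t = 0` -/
theorem first_order (w : ι → E) (P : Finset ι) (x : ι → ℝ) (hx : ∀ p ∈ P, |x p| ≤ 1)
    (W : Submodule ℝ E) (v z : E) (hz : z ∈ W)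
    (hmax : ∀ z' ∈ W, F w P x (v + z') ≤ F w P x (v + z)) (h : E) (hh : h ∈ W) :
    ∑ p ∈ P, chi (x p) (inner ℝ (w p) (v + z)) * inner ℝ (w p) h
      = 80 * inner ℝ (v + z) h := by
  have hline : ∀ t : ℝ, HasDerivAt (fun t : ℝ => v + z + t • h) h t := by
    intro t
    have h1 : HasDerivAt (fun t : ℝ => t • h) ((1 : ℝ) • h) t := (hasDerivAt_id t).smul_const h
    rw [one_smul] at h1
    exact h1.const_add (v + z)
  have hinner : ∀ p, HasDerivAt (fun t : ℝ => (inner ℝ (w p) (v + z + t • h) : ℝ))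
      (inner ℝ (w p) h) 0 := by
    intro p
    have := (hasDerivAt_const (0 : ℝ) (w p)).inner ℝ (hline 0)
    simpa using this
  have hsum : HasDerivAt (fun t : ℝ => ∑ p ∈ P, G (x p) (inner ℝ (w p) (v + z + t • h)))
      (∑ p ∈ P, chi (x p) (inner ℝ (w p) (v + z)) * inner ℝ (w p) h) 0 := by
    refine HasDerivAt.fun_sum fun p hp => ?_
    have h1 := hasDerivAt_G (hx p hp) (inner ℝ (w p) (v + z + (0 : ℝ) • h))
    have h2 := h1.comp (0 : ℝ) (hinner p)
    rw [zero_smul, add_zero] at h2
    exact h2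
  have hnorm : HasDerivAt (fun t : ℝ => ‖v + z + t • h‖ ^ 2) (2 * inner ℝ (v + z) h) 0 := by
    have := (hline 0).norm_sq
    rw [zero_smul, add_zero] at this
    exact this
  have hF : HasDerivAt (fun t : ℝ => F w P x (v + z + t • h))
      (∑ p ∈ P, chi (x p) (inner ℝ (w p) (v + z)) * inner ℝ (w p) h -
        40 * (2 * inner ℝ (v + z) h)) 0 := hsum.sub (hnorm.const_mul 40)
  have hloc : IsLocalMax (fun t : ℝ => F w P x (v + z + t • h)) 0 := by
    refine Filter.Eventually.of_forall fun t => ?_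
    show F w P x (v + z + t • h) ≤ F w P x (v + z + (0 : ℝ) • h)
    rw [zero_smul, add_zero, add_assoc]
    exact hmax _ (W.add_mem hz (W.smul_mem t hh))
  have := hloc.hasDerivAt_eq_zero hF
  linarith

end Pool.Agent.LibLoc73
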