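import Pool.Agent.LibLoc73.B2

set_option autoImplicit false

/-! Task B3: comparison of the potential at two positions, size of the optimal displacement.
Cite A1, B1, B2. -/

open Finset

namespace Pool.Agent.LibLoc73

variable {ι E : Type*} [NormedAddCommGroup E] [InnerProductSpace ℝ E] [FiniteDimensional ℝ E]

/-- `u* = v + z` satisfies the first order condition for `x`. For `z' ∈ W`, `h = z' - z`:
`F x' (u* + h) ≤ ∑ G x'_p ω_p - 40 |u*|² + ∑ (χ'_p - χ_p) ⟨w_p, h⟩ + ∑ ⟨w_p,h⟩² - 40 |h|²`,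
`∑ ⟨w_p,h⟩² ≤ 2|h|²`, Cauchy-Schwarz, and `√2 D t - 38 t² ≤ D²/76`. -/
theorem Psi_compare (w : ι → E) (P : Finset ι) (x x' : ι → ℝ)
    (hx' : ∀ p ∈ P, |x' p| ≤ 1) (hB : Bes w P)
    (W : Submodule ℝ E) (v z : E) (hz : z ∈ W)
    (hfo : ∀ h ∈ W, ∑ p ∈ P, chi (x p) (inner ℝ (w p) (v + z)) * inner ℝ (w p) h
      = 80 * inner ℝ (v + z) h) :
    Psi w P W v x' ≤ ∑ p ∈ P, G (x' p) (inner ℝ (w p) (v + z)) - 40 * ‖v + z‖ ^ 2
      + ∑ p ∈ P, (chi (x' p) (inner ℝ (w p) (v + z)) - chi (x p) (inner ℝ (w p) (v + z))) ^ 2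
        / 76 := by
  apply Psi_le
  intro z' hz'
  set u := v + z with hu
  set h := z' - z with hh
  have hhW : h ∈ W := W.sub_mem hz' hz
  have huh : v + z' = u + h := by rw [hu, hh]; abel
  rw [huh]
  unfold F
  have h1 : ∑ p ∈ P, G (x' p) (inner ℝ (w p) (u + h)) ≤
      ∑ p ∈ P, (G (x' p) (inner ℝ (w p) u) + chi (x' p) (inner ℝ (w p) u) * inner ℝ (w p) h +
        (inner ℝ (w p) h) ^ 2) := by
    refine Finset.sum_le_sum fun p hp => ?_
    rw [inner_add_right]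
    exact G_add_le (hx' p hp) _ _
  have h2 : ∑ p ∈ P, (G (x' p) (inner ℝ (w p) u) + chi (x' p) (inner ℝ (w p) u) *
      inner ℝ (w p) h + (inner ℝ (w p) h) ^ 2) = ∑ p ∈ P, G (x' p) (inner ℝ (w p) u) +
      ∑ p ∈ P, chi (x' p) (inner ℝ (w p) u) * inner ℝ (w p) h +
      ∑ p ∈ P, (inner ℝ (w p) h) ^ 2 := by
    rw [Finset.sum_add_distrib, Finset.sum_add_distrib]
  have h3 : ‖u + h‖ ^ 2 = ‖u‖ ^ 2 + 2 * inner ℝ u h + ‖h‖ ^ 2 := norm_add_sq_real u h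
  have h4 := hfo h hhW
  have h5 := hB h
  have h6 : ∑ p ∈ P, chi (x' p) (inner ℝ (w p) u) * inner ℝ (w p) h ≤
      ∑ p ∈ P, chi (x p) (inner ℝ (w p) u) * inner ℝ (w p) h +
      (∑ p ∈ P, (chi (x' p) (inner ℝ (w p) u) - chi (x p) (inner ℝ (w p) u)) ^ 2 / 76 +
        19 * ∑ p ∈ P, (inner ℝ (w p) h) ^ 2) := by
    rw [Finset.mul_sum, ← Finset.sum_add_distrib, ← Finset.sum_add_distrib]
    refine Finset.sum_le_sum fun p _ => ?_
    have := sq_nonneg ((chi (x' p) (inner ℝ (w p) u) - chi (x p) (inner ℝ (w p) u)) -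
      38 * inner ℝ (w p) h)
    nlinarith
  rw [h3]
  linarith

/-- with `h₀ = u* - v_W ∈ W` where `u* = v + z`, `v_W = v - proj_W v`: the first order condition
gives `80 |h₀|² = ∑ χ_p d_p`, `d_p = ⟨w_p, h₀⟩`, hence `∑ d_p² ≤ 2 |h₀|² ≤ (∑ χ_p²)/1600` -/
theorem disp_bound (w : ι → E) (P : Finset ι) (x : ι → ℝ) (hB : Bes w P)
    (W : Submodule ℝ E) (v z : E) (hz : z ∈ W)
    (hfo : ∀ h ∈ W, ∑ p ∈ P, chi (x p) (inner ℝ (w p) (v + z)) * inner ℝ (w p) h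
      = 80 * inner ℝ (v + z) h) :
    ∑ p ∈ P, (inner ℝ (w p) (v + z) - inner ℝ (w p) (v - W.starProjection v)) ^ 2
      ≤ (∑ p ∈ P, chi (x p) (inner ℝ (w p) (v + z)) ^ 2) / 1600 := by
  set u := v + z with hu
  set vW := v - W.starProjection v with hvW
  set h₀ := u - vW with hh₀
  have hmem : h₀ ∈ W := by
    have : h₀ = z + W.starProjection v := by rw [hh₀, hvW, hu]; abel
    rw [this]
    exact W.add_mem hz (W.starProjection_apply_mem v)
  have horth : inner ℝ vW h₀ = 0 := by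
    have h1 : vW ∈ Wᗮ := W.sub_starProjection_mem_orthogonal v
    exact (Submodule.mem_orthogonal' W vW).1 h1 h₀ hmem
  have h2 := hfo h₀ hmem
  have h3 : inner ℝ u h₀ = ‖h₀‖ ^ 2 := by
    have : u = vW + h₀ := by rw [hh₀]; abel
    rw [this, inner_add_left, horth, zero_add, real_inner_self_eq_norm_sq]
  rw [h3] at h2
  have h4 := hB h₀
  have h5 : ∀ p, inner ℝ (w p) u - inner ℝ (w p) vW = inner ℝ (w p) h₀ := by
    intro p
    exact (inner_sub_right (w p) u vW).symm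
  simp only [h5]
  have h6 : ∑ p ∈ P, chi (x p) (inner ℝ (w p) u) * inner ℝ (w p) h₀ ≤
      20 * ((∑ p ∈ P, chi (x p) (inner ℝ (w p) u) ^ 2) / 1600) +
      20 * ∑ p ∈ P, (inner ℝ (w p) h₀) ^ 2 := by
    rw [Finset.sum_div, Finset.mul_sum, Finset.mul_sum, ← Finset.sum_add_distrib]
    refine Finset.sum_le_sum fun p _ => ?_
    have := sq_nonneg (chi (x p) (inner ℝ (w p) u) - 40 * inner ℝ (w p) h₀)
    nlinarith
  linarith

end Pool.Agent.LibLoc73
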