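import Pool.Agent.LibLoc73.Defs

set_option autoImplicit false

/-! Task C1: the augmented space `EuclideanSpace ℝ (ι ⊕ κ)`. -/

open Finset

namespace Pool.Agent.LibLoc73

variable {ι κ : Type*} [Fintype ι] [Fintype κ] [DecidableEq ι]

theorem norm_vec_sq (S : ι → ℝ) (θ : κ → ℝ) :
    ‖vec S θ‖ ^ 2 = ∑ i, S i ^ 2 + ∑ j, θ j ^ 2 := by
  rw [EuclideanSpace.real_norm_sq_eq, Fintype.sum_sum_type]
  simp [vec]

theorem C1_inner_vec_vec (S S' : ι → ℝ) (θ θ' : κ → ℝ) :
    inner ℝ (vec S θ) (vec S' θ') = ∑ i, S i * S' i + ∑ j, θ j * θ' j := by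
  rw [PiLp.inner_apply, Fintype.sum_sum_type]
  simp [vec, mul_comm]

theorem inner_wv_vec (P : Par ι κ) (i : ι) (S : ι → ℝ) (θ : κ → ℝ) :
    inner ℝ (P.wv i) (vec S θ) = S i + ∑ j, P.a i j * θ j := by
  rw [Par.wv, C1_inner_vec_vec]
  simp [Pi.single_apply]

/-- `emb u = (u, row u)` -/
theorem emb_eq (P : Par ι κ) (u : ι → ℝ) : P.emb u = vec u (P.row u) := by
  ext x
  rcases x with i | j
  · simp [Par.emb, Par.wv, vec, Pi.single_apply]
  · simp [Par.emb, Par.wv, vec, Par.row, mul_comm]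

theorem inner_vec_emb (P : Par ι κ) (S : ι → ℝ) (θ : κ → ℝ) (u : ι → ℝ) :
    inner ℝ (vec S θ) (P.emb u) = ∑ i, S i * u i + ∑ j, θ j * P.row u j := by
  rw [emb_eq, C1_inner_vec_vec]

theorem inner_wv_emb (P : Par ι κ) (i : ι) (u : ι → ℝ) :
    inner ℝ (P.wv i) (P.emb u) = u i + ∑ j, P.a i j * P.row u j := by
  rw [emb_eq, inner_wv_vec]

/-- one step of gradient descent is the operator `AN` on the residual -/
theorem emb_it (P : Par ι κ) (N : Finset ι) (u : ι → ℝ) :
    P.emb (P.it N u) = P.AN N (P.emb u) := by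
  have h1 : ∀ i, (P.it N u i) • P.wv i =
      u i • P.wv i - if i ∈ N then (1 / P.Lc) • ((inner ℝ (P.wv i) (P.emb u)) • P.wv i) else 0 := by
    intro i
    rw [inner_wv_emb]
    simp only [Par.it]
    split_ifs with h
    · rw [sub_smul, smul_smul]
    · rw [sub_zero]
  rw [Par.emb]
  simp only [h1]
  rw [Finset.sum_sub_distrib, Par.AN, Finset.smul_sum]
  congr 1
  rw [← Finset.sum_filter]
  congr 1
  ext i
  simp

theorem AN_symm (P : Par ι κ) (N : Finset ι) (z z' : EuclideanSpace ℝ (ι ⊕ κ)) :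
    inner ℝ (P.AN N z) z' = inner ℝ z (P.AN N z') := by
  simp only [Par.AN, inner_sub_left, inner_sub_right, inner_smul_left, inner_smul_right,
    sum_inner, inner_sum, conj_trivial]
  congr 2
  refine Finset.sum_congr rfl fun i _ => ?_
  rw [real_inner_comm (P.wv i) z]
  ring

theorem AN_iter_symm (P : Par ι κ) (N : Finset ι) (r : ℕ) (z z' : EuclideanSpace ℝ (ι ⊕ κ)) :
    inner ℝ ((P.AN N)^[r] z) z' = inner ℝ z ((P.AN N)^[r] z') := by
  induction r generalizing z with
  | zero => rfl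
  | succ r ih =>
    rw [Function.iterate_succ_apply, ih, AN_symm, Function.iterate_succ_apply']

theorem C1_AN_add (P : Par ι κ) (N : Finset ι) (z z' : EuclideanSpace ℝ (ι ⊕ κ)) :
    P.AN N (z + z') = P.AN N z + P.AN N z' := by
  simp only [Par.AN, inner_add_right, add_smul, Finset.sum_add_distrib, smul_add]
  abel

theorem AN_iter_add (P : Par ι κ) (N : Finset ι) (r : ℕ) (z z' : EuclideanSpace ℝ (ι ⊕ κ)) :
    (P.AN N)^[r] (z + z') = (P.AN N)^[r] z + (P.AN N)^[r] z' := by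
  induction r generalizing z z' with
  | zero => rfl
  | succ r ih =>
    rw [Function.iterate_succ_apply, C1_AN_add, ih]
    rfl

/-- `AN` fixes the orthogonal complement of the span -/
theorem AN_iter_perp (P : Par ι κ) (N : Finset ι) (r : ℕ) (z : EuclideanSpace ℝ (ι ⊕ κ))
    (hz : ∀ i ∈ N, inner ℝ (P.wv i) z = 0) : (P.AN N)^[r] z = z := by
  apply Function.iterate_fixed
  rw [Par.AN, Finset.sum_eq_zero, smul_zero, sub_zero]
  intro i hi
  rw [hz i hi, zero_smul]

end Pool.Agent.LibLoc73
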