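import Pool.Agent.LibLoc73.C1

set_option autoImplicit false

/-! Task C2b: lower spectral bound on the span. Cite C1. -/

open Finset

namespace Pool.Agent.LibLoc73

variable {ι κ : Type*} [Fintype ι] [Fintype κ] [DecidableEq ι]

theorem C2b_exists (P : Par ι κ) (N : Finset ι)
    (z : EuclideanSpace ℝ (ι ⊕ κ)) (hz : z ∈ P.spn N) :
    ∃ u : ι → ℝ, (∀ i ∉ N, u i = 0) ∧ z = P.emb u := by
  rw [Par.spn] at hz
  induction hz using Submodule.span_induction with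
  | mem x hx =>
    obtain ⟨i, hi, rfl⟩ := hx
    refine ⟨Pi.single i 1, fun j hj => ?_, ?_⟩
    · have : j ≠ i := fun h => hj (h ▸ hi)
      simp [this]
    · simp [Par.emb, Pi.single_apply]
  | zero => exact ⟨0, fun _ _ => rfl, by simp [Par.emb]⟩
  | add x y _ _ hx hy =>
    obtain ⟨u, hu, rfl⟩ := hx
    obtain ⟨v, hv, rfl⟩ := hy
    refine ⟨u + v, fun i hi => by simp [hu i hi, hv i hi], ?_⟩
    simp [Par.emb, add_smul, Finset.sum_add_distrib]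
  | smul c x _ hx =>
    obtain ⟨u, hu, rfl⟩ := hx
    refine ⟨c • u, fun i hi => by simp [hu i hi], ?_⟩
    simp [Par.emb, Finset.smul_sum, mul_smul]

/-- for `z = ∑ u_i w_i` : `∑ ⟨w_i,z⟩² = |u + R^T R u|² ≥ |u|² + |R u|² = |z|²` -/
theorem norm_sq_le_sum (P : Par ι κ) (N : Finset ι)
    (z : EuclideanSpace ℝ (ι ⊕ κ)) (hz : z ∈ P.spn N) :
    ‖z‖ ^ 2 ≤ ∑ i ∈ N, (inner ℝ (P.wv i) z) ^ 2 := by
  obtain ⟨u, hu, rfl⟩ := C2b_exists P N z hz
  set z := P.emb u with hzdef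
  have h1 : ‖z‖ ^ 2 = ∑ i ∈ N, u i * inner ℝ (P.wv i) z := by
    rw [← real_inner_self_eq_norm_sq]
    conv_lhs => rw [hzdef, Par.emb]
    rw [sum_inner, ← Finset.sum_subset (Finset.subset_univ N)]
    · refine Finset.sum_congr rfl fun i _ => ?_
      rw [real_inner_smul_left]
      rfl
    · intro i _ hi
      rw [hu i hi, zero_smul, inner_zero_left]
  have h2 : ∑ i ∈ N, u i ^ 2 ≤ ‖z‖ ^ 2 := by
    rw [hzdef, emb_eq, norm_vec_sq]
    have h3 : ∑ i ∈ N, u i ^ 2 ≤ ∑ i, u i ^ 2 :=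
      Finset.sum_le_sum_of_subset_of_nonneg (Finset.subset_univ _) fun i _ _ => sq_nonneg _
    have h4 : 0 ≤ ∑ j, P.row u j ^ 2 := Finset.sum_nonneg fun j _ => sq_nonneg _
    linarith
  have h3 : (∑ i ∈ N, u i * inner ℝ (P.wv i) z) ^ 2 ≤
      (∑ i ∈ N, u i ^ 2) * ∑ i ∈ N, (inner ℝ (P.wv i) z) ^ 2 :=
    Finset.sum_mul_sq_le_sq_mul_sq _ _ _
  rw [← h1] at h3
  set B := ∑ i ∈ N, (inner ℝ (P.wv i) z) ^ 2 with hB
  have hB0 : 0 ≤ B := Finset.sum_nonneg fun i _ => sq_nonneg _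
  rcases (sq_nonneg ‖z‖).eq_or_lt with h0 | h0
  · rw [← h0]; exact hB0
  · by_contra hcon
    rw [not_le] at hcon
    nlinarith [mul_le_mul_of_nonneg_right h2 hB0]

end Pool.Agent.LibLoc73
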