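import Pool.Agent.LibLoc73.C2
import Pool.Agent.LibLoc73.C2b

set_option autoImplicit false

/-! Task C2c: contraction. Cite C1, C2, C2b. -/

open Finset

namespace Pool.Agent.LibLoc73

variable {ι κ : Type*} [Fintype ι] [Fintype κ] [DecidableEq ι]

theorem C2c_L (P : Par ι κ) (k : ℕ) (hP : P.Ok k) : 4 ≤ P.Lc := by
  have hk : (2 : ℝ) ≤ k := by exact_mod_cast hP.hk
  have hL := hP.hL
  linarith

/-- duality -/
theorem C2c_dual (P : Par ι κ) (k : ℕ) (hP : P.Ok k) (N : Finset ι) (b : ι → ℝ) :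
    ‖∑ i ∈ N, b i • P.wv i‖ ^ 2 ≤ P.Lc * ∑ i ∈ N, b i ^ 2 := by
  set y := ∑ i ∈ N, b i • P.wv i with hy
  have h1 : ‖y‖ ^ 2 = ∑ i ∈ N, b i * inner ℝ (P.wv i) y := by
    rw [← real_inner_self_eq_norm_sq]
    conv_lhs => rw [hy]
    rw [sum_inner]
    refine Finset.sum_congr rfl fun i _ => ?_
    rw [real_inner_smul_left, ← hy]
  have h2 := sum_inner_sq_le P k hP N y
  have h3 : (∑ i ∈ N, b i * inner ℝ (P.wv i) y) ^ 2 ≤
      (∑ i ∈ N, b i ^ 2) * ∑ i ∈ N, (inner ℝ (P.wv i) y) ^ 2 :=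
    Finset.sum_mul_sq_le_sq_mul_sq _ _ _
  rw [← h1] at h3
  have hB0 : 0 ≤ ∑ i ∈ N, b i ^ 2 := Finset.sum_nonneg fun i _ => sq_nonneg _
  have hL := C2c_L P k hP
  set B := ∑ i ∈ N, b i ^ 2 with hB
  rcases (sq_nonneg ‖y‖).eq_or_lt with h0 | h0
  · rw [← h0]; positivity
  · by_contra hcon
    rw [not_le] at hcon
    nlinarith [mul_le_mul_of_nonneg_left h2 hB0]

/-- `|AN z|² ≤ |z|² - (1/L) ∑ ⟨w_i,z⟩²` (duality: `|∑ c_i w_i|² ≤ L ∑ c_i²`) -/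
theorem norm_AN_sq (P : Par ι κ) (k : ℕ) (hP : P.Ok k) (N : Finset ι)
    (z : EuclideanSpace ℝ (ι ⊕ κ)) :
    ‖P.AN N z‖ ^ 2 ≤ ‖z‖ ^ 2 - (1 / P.Lc) * ∑ i ∈ N, (inner ℝ (P.wv i) z) ^ 2 := by
  have hL := C2c_L P k hP
  have hL0 : 0 < P.Lc := by linarith
  have h1 := C2c_dual P k hP N (fun i => inner ℝ (P.wv i) z)
  set y := ∑ i ∈ N, (inner ℝ (P.wv i) z) • P.wv i with hy
  set B := ∑ i ∈ N, (inner ℝ (P.wv i) z) ^ 2 with hB
  have h2 : P.AN N z = z - (1 / P.Lc) • y := rfl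
  have h3 : inner ℝ z y = B := by
    rw [hy, inner_sum, hB]
    refine Finset.sum_congr rfl fun i _ => ?_
    rw [real_inner_smul_right, real_inner_comm z (P.wv i)]
    ring
  rw [h2, norm_sub_sq_real, norm_smul, real_inner_smul_right, h3, mul_pow, Real.norm_eq_abs,
    sq_abs]
  have h4 : (1 / P.Lc) ^ 2 * ‖y‖ ^ 2 ≤ (1 / P.Lc) * B := by
    have : (1 / P.Lc) ^ 2 * ‖y‖ ^ 2 ≤ (1 / P.Lc) ^ 2 * (P.Lc * B) :=
      mul_le_mul_of_nonneg_left h1 (by positivity)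
    refine this.trans (le_of_eq ?_)
    field_simp
  linarith

theorem norm_AN_iter_le (P : Par ι κ) (k : ℕ) (hP : P.Ok k) (N : Finset ι) (r : ℕ)
    (z : EuclideanSpace ℝ (ι ⊕ κ)) : ‖(P.AN N)^[r] z‖ ^ 2 ≤ ‖z‖ ^ 2 := by
  induction r with
  | zero => exact le_refl _
  | succ r ih =>
    rw [Function.iterate_succ_apply']
    refine (norm_AN_sq P k hP N _).trans ?_
    have hL := C2c_L P k hP
    have h1 : 0 ≤ (1 / P.Lc) * ∑ i ∈ N, (inner ℝ (P.wv i) ((P.AN N)^[r] z)) ^ 2 :=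
      mul_nonneg (by positivity) (Finset.sum_nonneg fun i _ => sq_nonneg _)
    linarith

theorem C2c_AN_mem (P : Par ι κ) (N : Finset ι)
    (z : EuclideanSpace ℝ (ι ⊕ κ)) (hz : z ∈ P.spn N) : P.AN N z ∈ P.spn N := by
  refine Submodule.sub_mem _ hz (Submodule.smul_mem _ _ (Submodule.sum_mem _ fun i hi =>
    Submodule.smul_mem _ _ (Submodule.subset_span ⟨i, hi, rfl⟩)))

theorem norm_AN_iter_span (P : Par ι κ) (k : ℕ) (hP : P.Ok k) (N : Finset ι) (r : ℕ)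
    (z : EuclideanSpace ℝ (ι ⊕ κ)) (hz : z ∈ P.spn N) :
    ‖(P.AN N)^[r] z‖ ^ 2 ≤ (1 - 1 / P.Lc) ^ r * ‖z‖ ^ 2 := by
  have hL := C2c_L P k hP
  have hL0 : 0 < P.Lc := by linarith
  have h1L : 0 ≤ 1 - 1 / P.Lc := by
    have : 1 / P.Lc ≤ 1 := by
      rw [div_le_one hL0]; linarith
    linarith
  induction r generalizing z with
  | zero => simp
  | succ r ih =>
    rw [Function.iterate_succ_apply]
    refine (ih (P.AN N z) (C2c_AN_mem P N z hz)).trans ?_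
    rw [pow_succ (1 - 1 / P.Lc) r, mul_assoc]
    refine mul_le_mul_of_nonneg_left ?_ (pow_nonneg h1L r)
    refine (norm_AN_sq P k hP N z).trans ?_
    have h2 := norm_sq_le_sum P N z hz
    have h3 := mul_le_mul_of_nonneg_left h2 (show 0 ≤ 1 / P.Lc by positivity)
    linarith

end Pool.Agent.LibLoc73
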