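import Pool.Agent.LibLoc73.D1
import Pool.Agent.LibLoc73.D2a

set_option autoImplicit false

/-! Task D2b: exponential moments of the whole walk. Cite B1, C2, D1, D2a. -/

open Finset

namespace Pool.Agent.LibLoc73

variable {ι κ : Type*} [Fintype ι] [Fintype κ] [DecidableEq ι]

theorem run_eq_runG (P : Par ι κ) (ω : ℕ → ι → Bool) (s : ℕ) :
    P.run ω s = runG P.step ⟨fun _ => 0, univ⟩ ω s := by
  induction s with
  | zero => rfl
  | succ s ih => rw [Par.run, runG, ih]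

/-- the remaining error budget -/
noncomputable def D2b_bud (P : Par ι κ) (τ : ℕ) (v : EuclideanSpace ℝ (ι ⊕ κ)) (S : ℕ → ι → ℝ)
    (s : ℕ) : ℝ :=
  ∑ t ∈ Ico s τ, 20 * P.δ ^ 2 * ((1 - 1 / P.Lc) ^ P.r * ‖v‖ ^ 2 + ∑ i, S t i ^ 2)

theorem D2b_bud_succ (P : Par ι κ) (τ : ℕ) (v : EuclideanSpace ℝ (ι ⊕ κ)) (S : ℕ → ι → ℝ)
    (s : ℕ) (hs : s < τ) :
    D2b_bud P τ v S s = 20 * P.δ ^ 2 * ((1 - 1 / P.Lc) ^ P.r * ‖v‖ ^ 2 + ∑ i, S s i ^ 2)
      + D2b_bud P τ v S (s + 1) := by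
  unfold D2b_bud
  rw [Finset.sum_eq_sum_Ico_succ_bot hs]

theorem D2b_bud_zero (P : Par ι κ) (τ : ℕ) (v : EuclideanSpace ℝ (ι ⊕ κ)) (S : ℕ → ι → ℝ) :
    D2b_bud P τ v S 0 = 20 * P.δ ^ 2 * τ * (1 - 1 / P.Lc) ^ P.r * ‖v‖ ^ 2
      + 20 * P.δ ^ 2 * ∑ s ∈ range τ, ∑ i, S s i ^ 2 := by
  unfold D2b_bud
  rw [Nat.Ico_zero_eq_range, ← Finset.mul_sum, Finset.sum_add_distrib, Finset.sum_const,
    Finset.card_range, nsmul_eq_mul]
  ring

theorem D2b_ext (τ : ℕ) (ω : Fin τ → ι → Bool) :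
    ext τ ω = extG (fun _ => false) τ ω := rfl

/-- exponential moments of the virtual displacement and of the slave steps -/
theorem exp_moment (P : Par ι κ) (k : ℕ) (hP : P.Ok k) (τ : ℕ)
    (v : EuclideanSpace ℝ (ι ⊕ κ)) (S : ℕ → ι → ℝ) :
    ∑ ω : Fin τ → ι → Bool, Real.exp (∑ s ∈ range τ,
        (inner ℝ v (P.emb (P.U (ext τ ω) s))
          + ∑ i ∈ P.sla s (P.run (ext τ ω) s).L, S s i * P.U (ext τ ω) s i))
      ≤ (2 ^ Fintype.card ι) ^ τ * Real.exp
          ((40 + 20 * P.δ ^ 2 * τ * (1 - 1 / P.Lc) ^ P.r) * ‖v‖ ^ 2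
            + 20 * P.δ ^ 2 * ∑ s ∈ range τ, ∑ i, S s i ^ 2) := by
  have hη0 : 0 < P.η := lt_of_lt_of_le hP.hδ hP.hδη
  have hcard : (Fintype.card (ι → Bool) : ℝ) = 2 ^ Fintype.card ι := by
    rw [Fintype.card_fun, Fintype.card_bool]
    push_cast
    rfl
  have hbes : ∀ s (L : Finset ι), Bes P.wv (P.piv s L) := fun s L =>
    bes_of_color P k hP _ (s / P.T) fun p hp => by
      simp only [Par.piv, Finset.mem_filter] at hp
      exact hp.2
  have hInvx : ∀ (st : St ι), (∀ i ∈ st.L, |st.x i| < 1 - P.η) → ∀ s, ∀ p ∈ P.piv s st.L,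
      |st.x p| ≤ 1 := by
    intro st hst s p hp
    simp only [Par.piv, Finset.mem_filter] at hp
    have := hst p hp.1
    linarith
  have hInv0 : ∀ i ∈ (⟨fun _ => 0, univ⟩ : St ι).L,
      |(⟨fun _ => 0, univ⟩ : St ι).x i| < 1 - P.η := by
    intro i _
    simp only [abs_zero]
    linarith [hP.hη]
  have hInvS : ∀ s (st : St ι) (ξ : ι → Bool), (∀ i ∈ st.L, |st.x i| < 1 - P.η) →
      (∀ i ∈ (P.step s st ξ).L, |(P.step s st ξ).x i| < 1 - P.η) := by
    intro s st ξ _ i hi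
    simp only [Par.step, Finset.mem_filter] at hi
    exact hi.2.1
  have key := tower (S := St ι) (Ξ := ι → Bool) (fun _ => false) P.step ⟨fun _ => 0, univ⟩
    (fun _ st => ∀ i ∈ st.L, |st.x i| < 1 - P.η) hInv0 (fun s st ξ h => hInvS s st ξ h)
    (fun s st ξ => inner ℝ v (P.emb (P.upd s st.L ξ))
      + ∑ i ∈ P.sla s st.L, S s i * P.upd s st.L ξ i)
    (fun s st => Psi P.wv (P.piv s st.L) (P.spn (P.sla s st.L)) v st.x + D2b_bud P τ v S s) τ
    (by
      intro s hs st hst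
      have h1 := Psi_walk_step P k hP s st hst v (S s)
      have h2 : ∀ ξ : ι → Bool, Real.exp (inner ℝ v (P.emb (P.upd s st.L ξ))
          + ∑ i ∈ P.sla s st.L, S s i * P.upd s st.L ξ i
          + (Psi P.wv (P.piv (s + 1) (P.step s st ξ).L)
              (P.spn (P.sla (s + 1) (P.step s st ξ).L)) v (P.step s st ξ).x
            + D2b_bud P τ v S (s + 1))) =
          Real.exp (inner ℝ v (P.emb (P.upd s st.L ξ))
          + ∑ i ∈ P.sla s st.L, S s i * P.upd s st.L ξ i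
          + Psi P.wv (P.piv (s + 1) (P.step s st ξ).L)
              (P.spn (P.sla (s + 1) (P.step s st ξ).L)) v (P.step s st ξ).x) *
            Real.exp (D2b_bud P τ v S (s + 1)) := by
        intro ξ
        rw [← Real.exp_add]
        congr 1
        ring
      simp only [h2]
      rw [← Finset.sum_mul, hcard, D2b_bud_succ P τ v S s hs]
      calc _ ≤ (2 ^ Fintype.card ι * Real.exp (Psi P.wv (P.piv s st.L) (P.spn (P.sla s st.L)) v st.x
          + 20 * P.δ ^ 2 * ((1 - 1 / P.Lc) ^ P.r * ‖v‖ ^ 2 + ∑ i, S s i ^ 2))) *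
            Real.exp (D2b_bud P τ v S (s + 1)) :=
            mul_le_mul_of_nonneg_right h1 (Real.exp_pos _).le
        _ = _ := by
            rw [mul_assoc, ← Real.exp_add]
            congr 2
            ring)
  rw [hcard] at key
  -- the invariant along the run
  have hInvRun : ∀ (ω : ℕ → ι → Bool) (s : ℕ),
      ∀ i ∈ (runG P.step ⟨fun _ => 0, univ⟩ ω s).L,
        |(runG P.step ⟨fun _ => 0, univ⟩ ω s).x i| < 1 - P.η := by
    intro ω s
    induction s with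
    | zero => exact hInv0
    | succ s ih => exact hInvS s _ _ ih
  -- lower bound of the final potential
  have hlow : ∀ ω : Fin τ → ι → Bool, Real.exp (∑ s ∈ range τ,
        (inner ℝ v (P.emb (P.U (ext τ ω) s))
          + ∑ i ∈ P.sla s (P.run (ext τ ω) s).L, S s i * P.U (ext τ ω) s i)) ≤
      Real.exp (40 * ‖v‖ ^ 2) * Real.exp (∑ s ∈ range τ,
        (fun s (st : St ι) (ξ : ι → Bool) => inner ℝ v (P.emb (P.upd s st.L ξ))
      + ∑ i ∈ P.sla s st.L, S s i * P.upd s st.L ξ i) s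
          (runG P.step ⟨fun _ => 0, univ⟩ (extG (fun _ => false) τ ω) s)
          (extG (fun _ => false) τ ω s)
        + (fun s (st : St ι) => Psi P.wv (P.piv s st.L) (P.spn (P.sla s st.L)) v st.x
            + D2b_bud P τ v S s) τ
          (runG P.step ⟨fun _ => 0, univ⟩ (extG (fun _ => false) τ ω) τ)) := by
    intro ω
    rw [← Real.exp_add, Real.exp_le_exp]
    have h1 := Psi_ge P.wv (P.piv τ (runG P.step ⟨fun _ => 0, univ⟩ (extG (fun _ => false) τ ω) τ).L)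
      (runG P.step ⟨fun _ => 0, univ⟩ (extG (fun _ => false) τ ω) τ).x
      (hInvx _ (hInvRun _ τ) τ) (hbes _ _)
      (P.spn (P.sla τ (runG P.step ⟨fun _ => 0, univ⟩ (extG (fun _ => false) τ ω) τ).L)) v
    have h2 : D2b_bud P τ v S τ = 0 := by
      unfold D2b_bud
      rw [Finset.Ico_self, Finset.sum_empty]
    have h3 : ∑ s ∈ range τ,
        (inner ℝ v (P.emb (P.U (ext τ ω) s))
          + ∑ i ∈ P.sla s (P.run (ext τ ω) s).L, S s i * P.U (ext τ ω) s i) =
        ∑ s ∈ range τ,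
        (fun s (st : St ι) (ξ : ι → Bool) => inner ℝ v (P.emb (P.upd s st.L ξ))
      + ∑ i ∈ P.sla s st.L, S s i * P.upd s st.L ξ i) s
          (runG P.step ⟨fun _ => 0, univ⟩ (extG (fun _ => false) τ ω) s)
          (extG (fun _ => false) τ ω s) := by
      refine Finset.sum_congr rfl fun s _ => ?_
      simp only [Par.U]
      rw [D2b_ext, run_eq_runG]
    rw [h3]
    simp only at h1 ⊢
    rw [h2]
    linarith
  have hΦ0 : Psi P.wv (P.piv 0 (univ : Finset ι)) (P.spn (P.sla 0 (univ : Finset ι))) v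
      (fun _ => (0 : ℝ)) ≤ 0 :=
    Psi_nonpos P.wv _ _ (hInvx ⟨fun _ => 0, univ⟩ hInv0 0) (hbes _ _) _ v
  calc _ ≤ ∑ ω : Fin τ → ι → Bool, Real.exp (40 * ‖v‖ ^ 2) * Real.exp (∑ s ∈ range τ,
        (fun s (st : St ι) (ξ : ι → Bool) => inner ℝ v (P.emb (P.upd s st.L ξ))
      + ∑ i ∈ P.sla s st.L, S s i * P.upd s st.L ξ i) s
          (runG P.step ⟨fun _ => 0, univ⟩ (extG (fun _ => false) τ ω) s)
          (extG (fun _ => false) τ ω s)
        + (fun s (st : St ι) => Psi P.wv (P.piv s st.L) (P.spn (P.sla s st.L)) v st.x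
            + D2b_bud P τ v S s) τ
          (runG P.step ⟨fun _ => 0, univ⟩ (extG (fun _ => false) τ ω) τ)) :=
        Finset.sum_le_sum fun ω _ => hlow ω
    _ ≤ Real.exp (40 * ‖v‖ ^ 2) * ((2 ^ Fintype.card ι) ^ τ * Real.exp
        (Psi P.wv (P.piv 0 (univ : Finset ι)) (P.spn (P.sla 0 (univ : Finset ι))) v
          (fun _ => (0 : ℝ)) + D2b_bud P τ v S 0)) := by
        rw [← Finset.mul_sum]
        exact mul_le_mul_of_nonneg_left key (Real.exp_pos _).le
    _ = (2 ^ Fintype.card ι) ^ τ * Real.exp (40 * ‖v‖ ^ 2 +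
        (Psi P.wv (P.piv 0 (univ : Finset ι)) (P.spn (P.sla 0 (univ : Finset ι))) v
          (fun _ => (0 : ℝ)) + D2b_bud P τ v S 0)) := by
        rw [Real.exp_add (40 * ‖v‖ ^ 2)]
        ring
    _ ≤ _ := by
        refine mul_le_mul_of_nonneg_left (Real.exp_le_exp.2 ?_) (by positivity)
        rw [D2b_bud_zero]
        linarith

end Pool.Agent.LibLoc73
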