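import Mathlib

set_option autoImplicit false

/-!
The local walk (parallel Gram-Schmidt walk with ridge regression slaves).
-/

namespace Pool.Agent.LibLoc73

open Finset

/-- the function `Phi` -/
noncomputable def Phi (x w : ℝ) : ℝ := Real.cosh (2 * w) + x * Real.sinh (2 * w)

/-- the function `G` -/
noncomputable def G (x w : ℝ) : ℝ := Real.log (Phi x w) / 2 - w * x

/-- derivative of `G` in `w` -/
noncomputable def chi (x w : ℝ) : ℝ := (1 - x ^ 2) * Real.sinh (2 * w) / Phi x w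

/-- parameters of the walk: matrix, colours, length of a phase, number of inner iterations, step
of the gradient descent, step of the walk, rounding threshold, row threshold -/
structure Par (ι κ : Type*) where
  a : ι → κ → ℝ
  c : ι → ℕ
  T : ℕ
  r : ℕ
  Lc : ℝ
  δ : ℝ
  η : ℝ
  lam : ℝ

/-- a state of the walk: position and set of live variables -/
structure St (ι : Type*) where
  x : ι → ℝ
  L : Finset ι

/-- the sign of a bit -/
def sgn (b : Bool) : ℝ := if b then 1 else -1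

namespace Par

variable {ι κ : Type*} [Fintype ι] [Fintype κ] [DecidableEq ι] (P : Par ι κ)

/-- value of row `j` at `x` -/
def row (x : ι → ℝ) (j : κ) : ℝ := ∑ i, P.a i j * x i

/-- one step of gradient descent on the coordinates in `N` -/
noncomputable def it (N : Finset ι) (u : ι → ℝ) : ι → ℝ := fun i =>
  if i ∈ N then u i - (1 / P.Lc) * (u i + ∑ j, P.a i j * P.row u j) else u i

/-- pivots at step `s` -/
def piv (s : ℕ) (L : Finset ι) : Finset ι := L.filter (fun i => P.c i = s / P.T)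

/-- slaves at step `s` -/
def sla (s : ℕ) (L : Finset ι) : Finset ι := L.filter (fun i => s / P.T < P.c i)

/-- the starting increment -/
noncomputable def ini (s : ℕ) (L : Finset ι) (ξ : ι → Bool) : ι → ℝ :=
  fun p => if p ∈ P.piv s L then P.δ * sgn (ξ p) else 0

/-- the virtual increment -/
noncomputable def upd (s : ℕ) (L : Finset ι) (ξ : ι → Bool) : ι → ℝ :=
  (P.it (P.sla s L))^[P.r] (P.ini s L ξ)

open Classical in
/-- slaves with a big step -/
noncomputable def big (s : ℕ) (L : Finset ι) (ξ : ι → Bool) : Finset ι :=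
  (P.sla s L).filter (fun i => P.η ≤ |P.upd s L ξ i|)

/-- the new position -/
noncomputable def newx (s : ℕ) (st : St ι) (ξ : ι → Bool) : ι → ℝ :=
  fun i => st.x i + if i ∈ P.big s st.L ξ then 0 else P.upd s st.L ξ i

open Classical in
/-- one step of the walk -/
noncomputable def step (s : ℕ) (st : St ι) (ξ : ι → Bool) : St ι where
  x := P.newx s st ξ
  L := st.L.filter (fun i => |P.newx s st ξ i| < 1 - P.η ∧
    ∀ j, P.a i j ≠ 0 → |P.row (P.newx s st ξ) j| < P.lam ∧
      ∀ i' ∈ P.big s st.L ξ, P.a i' j = 0)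

/-- the walk after `s` steps -/
noncomputable def run (ω : ℕ → ι → Bool) : ℕ → St ι
  | 0 => ⟨fun _ => 0, univ⟩
  | s + 1 => P.step s (run ω s) (ω s)

/-- the virtual increment at step `s` of the run -/
noncomputable def U (ω : ℕ → ι → Bool) (s : ℕ) : ι → ℝ := P.upd s (P.run ω s).L (ω s)

/-- virtual value of row `j` after `s` steps -/
noncomputable def Y (ω : ℕ → ι → Bool) (s : ℕ) (j : κ) : ℝ :=
  ∑ t ∈ range s, P.row (P.U ω t) j

/-- `z` makes a big step before time `s` -/
def IsBig (ω : ℕ → ι → Bool) (s : ℕ) (z : ι) : Prop :=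
  ∃ t < s, z ∈ P.big t (P.run ω t).L (ω t)

/-- confinement event of `z` during its colour phase -/
def Conf (ω : ℕ → ι → Bool) (z : ι) : Prop :=
  ∀ n ≤ P.T, |∑ t ∈ range n, P.δ * sgn (ω (P.c z * P.T + t) z)| ≤ 2

/-- a cause: a row whose virtual value reaches the threshold, or a variable with a big step or
a confined walk -/
def Cause (ω : ℕ → ι → Bool) (s : ℕ) : κ ⊕ ι → Prop
  | Sum.inl j => P.lam ≤ |P.Y ω s j|
  | Sum.inr z => P.IsBig ω s z ∨ P.Conf ω z

open Classical in
/-- closed neighbourhood of a variable -/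
noncomputable def nb (i : ι) : Finset ι :=
  insert i (univ.filter (fun i' => ∃ j, P.a i j ≠ 0 ∧ P.a i' j ≠ 0))

/-- balls -/
noncomputable def ball : ℕ → ι → Finset ι
  | 0, i => {i}
  | n + 1, i => (P.nb i).biUnion (ball n)

open Classical in
/-- foot of a cause -/
noncomputable def foot : κ ⊕ ι → Finset ι
  | Sum.inl j => univ.filter (fun i => P.a i j ≠ 0)
  | Sum.inr z => P.nb z

/-- adjacency of causes -/
def HAdj (h h' : κ ⊕ ι) : Prop := ∃ i ∈ P.foot h, ∃ i' ∈ P.foot h', i' ∈ P.nb i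

end Par

/-- Bessel property of the pivots -/
def Bes {ι E : Type*} [NormedAddCommGroup E] [InnerProductSpace ℝ E] (w : ι → E)
    (P : Finset ι) : Prop := ∀ z : E, ∑ p ∈ P, (inner ℝ (w p) z) ^ 2 ≤ 2 * ‖z‖ ^ 2

/-- the concave functional -/
noncomputable def F {ι E : Type*} [NormedAddCommGroup E] [InnerProductSpace ℝ E] (w : ι → E)
    (P : Finset ι) (x : ι → ℝ) (u : E) : ℝ :=
  ∑ p ∈ P, G (x p) (inner ℝ (w p) u) - 40 * ‖u‖ ^ 2

/-- the potential -/
noncomputable def Psi {ι E : Type*} [NormedAddCommGroup E] [InnerProductSpace ℝ E] (w : ι → E)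
    (P : Finset ι) (W : Submodule ℝ E) (v : E) (x : ι → ℝ) : ℝ :=
  ⨆ z : W, F w P x (v + z)

/-- vectors of the augmented space -/
noncomputable def vec {ι κ : Type*} (S : ι → ℝ) (θ : κ → ℝ) : EuclideanSpace ℝ (ι ⊕ κ) :=
  WithLp.toLp 2 (Sum.elim S θ)

namespace Par

variable {ι κ : Type*} [Fintype ι] [Fintype κ] [DecidableEq ι] (P : Par ι κ)

/-- augmented columns -/
noncomputable def wv (i : ι) : EuclideanSpace ℝ (ι ⊕ κ) := vec (Pi.single i 1) (P.a i)

/-- the map `u ↦ ∑ u_i w_i` -/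
noncomputable def emb (u : ι → ℝ) : EuclideanSpace ℝ (ι ⊕ κ) := ∑ i, u i • P.wv i

/-- the operator `1 - (1/L) ∑_{i ∈ N} w_i w_i^T` -/
noncomputable def AN (N : Finset ι) (z : EuclideanSpace ℝ (ι ⊕ κ)) : EuclideanSpace ℝ (ι ⊕ κ) :=
  z - (1 / P.Lc) • ∑ i ∈ N, (inner ℝ (P.wv i) z) • P.wv i

/-- span of the columns in `N` -/
noncomputable def spn (N : Finset ι) : Submodule ℝ (EuclideanSpace ℝ (ι ⊕ κ)) :=
  Submodule.span ℝ (P.wv '' (N : Set ι))

/-- standing assumptions on the matrix -/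
structure Ok (k : ℕ) : Prop where
  hk : 2 ≤ k
  hcol : ∀ i, ∑ j, (P.a i j) ^ 2 ≤ 1
  hrow : ∀ j, (univ.filter (fun i => P.a i j ≠ 0)).card ≤ k
  hrows : ∀ i, (univ.filter (fun j => P.a i j ≠ 0)).card ≤ k ^ 2
  hc : ∀ i i' j, i ≠ i' → P.a i j ≠ 0 → P.a i' j ≠ 0 → P.c i ≠ P.c i'
  hT : 0 < P.T
  hL : 2 * (k : ℝ) ≤ P.Lc
  hδ : 0 < P.δ
  hδη : P.δ ≤ P.η
  hη : P.η < 1
  hηk : P.η * k ≤ 1
  hlam : 0 < P.lam

end Par

/-- extension of a finite sign sequence by `false` -/
def ext {ι : Type*} (τ : ℕ) (ω : Fin τ → ι → Bool) : ℕ → ι → Bool :=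
  fun s => if h : s < τ then ω ⟨s, h⟩ else fun _ => false

end Pool.Agent.LibLoc73
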