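import Pool.Agent.LibLoc73.Defs

set_option autoImplicit false

/-! Task E1: confinement of a random walk. -/

open Finset

namespace Pool.Agent.LibLoc73

theorem E1_sum (δ : ℝ) (T : ℕ) (ω : Fin (T + 1) → Bool) (n : ℕ) :
    (∑ t : Fin (T + 1), if (t : ℕ) < n + 1 then δ * sgn (ω t) else 0) =
      δ * sgn (ω 0) + ∑ t : Fin T, if (t : ℕ) < n then δ * sgn (Fin.tail ω t) else 0 := by
  rw [Fin.sum_univ_succ]
  have h0 : (if ((0 : Fin (T + 1)) : ℕ) < n + 1 then δ * sgn (ω 0) else 0) = δ * sgn (ω 0) := by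
    simp
  have h1 : ∀ t : Fin T, (if ((t.succ : Fin (T + 1)) : ℕ) < n + 1 then δ * sgn (ω t.succ) else 0) =
      if (t : ℕ) < n then δ * sgn (Fin.tail ω t) else 0 := by
    intro t
    simp [Fin.tail]
  rw [h0, Finset.sum_congr rfl fun t _ => h1 t]

/-- the potential `f x = 1 - x²/9`: `f (x+δ) + f (x-δ) = 2 f x - 2δ²/9 ≤ 2 (1 - δ²/9) f x`, `f ≥ 0` on
`[-3,3]`, `f ≥ 5/9` on `[-2,2]`. Induction on `T` for a walk started at `x0`. -/
theorem conf_count_aux (δ : ℝ) (hδ : 0 < δ) (hδ1 : δ ≤ 1) (T : ℕ) (x0 : ℝ) (hx0 : |x0| ≤ 2) :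
    (((univ : Finset (Fin T → Bool)).filter (fun ω =>
        ∀ n ≤ T, |x0 + ∑ t : Fin T, if (t : ℕ) < n then δ * sgn (ω t) else 0| ≤ 2)).card : ℝ)
      ≤ 2 ^ T * ((1 - δ ^ 2 / 9) ^ T * (9 / 5 * (1 - x0 ^ 2 / 9))) := by
  classical
  induction T generalizing x0 with
  | zero =>
    have h3 : x0 ^ 2 ≤ 4 := by
      have := sq_le_sq' (by linarith [(abs_le.1 hx0).1] : -2 ≤ x0) (abs_le.1 hx0).2
      linarith
    rw [pow_zero, pow_zero, one_mul, one_mul]
    have h4 : (1 : ℝ) ≤ 9 / 5 * (1 - x0 ^ 2 / 9) := by linarith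
    refine le_trans ?_ h4
    rw [Nat.cast_le_one]
    refine (Finset.card_filter_le _ _).trans ?_
    simp
  | succ T ih =>
    set q : ℝ := 1 - δ ^ 2 / 9 with hq
    have hδ2 : δ ^ 2 ≤ 1 := pow_le_one₀ hδ.le hδ1
    have hq0 : 0 ≤ q := by rw [hq]; linarith
    have hx := abs_le.1 hx0
    set S := (univ : Finset (Fin (T + 1) → Bool)).filter (fun ω =>
        ∀ n ≤ T + 1, |x0 + ∑ t : Fin (T + 1), if (t : ℕ) < n then δ * sgn (ω t) else 0| ≤ 2) with hS
    have hfib : S.card = ∑ b : Bool, (S.filter (fun ω => ω 0 = b)).card :=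
      Finset.card_eq_sum_card_fiberwise (fun ω _ => Finset.mem_univ _)
    -- the fibres
    have hb : ∀ b : Bool, ((S.filter (fun ω => ω 0 = b)).card : ℝ) ≤
        2 ^ T * (q ^ T * (9 / 5 * (1 - (x0 + δ * sgn b) ^ 2 / 9))) := by
      intro b
      have hsg : sgn b = 1 ∨ sgn b = -1 := by
        cases b
        · right; rfl
        · left; rfl
      have hnn : 0 ≤ 1 - (x0 + δ * sgn b) ^ 2 / 9 := by
        rcases hsg with h | h <;> rw [h] <;> nlinarith
      by_cases hb2 : |x0 + δ * sgn b| ≤ 2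
      · have h1 := ih (x0 + δ * sgn b) hb2
        refine le_trans ?_ h1
        have h2 : (S.filter (fun ω => ω 0 = b)).card ≤
            ((univ : Finset (Fin T → Bool)).filter (fun ω =>
              ∀ n ≤ T, |x0 + δ * sgn b + ∑ t : Fin T, if (t : ℕ) < n then δ * sgn (ω t) else 0| ≤ 2)).card := by
          apply Finset.card_le_card_of_injOn (fun ω => Fin.tail ω)
          · intro ω hω
            rw [Finset.mem_coe, Finset.mem_filter] at hω
            obtain ⟨h3, h4⟩ := hω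
            rw [hS, Finset.mem_filter] at h3
            rw [Finset.mem_coe, Finset.mem_filter]
            refine ⟨Finset.mem_univ _, fun n hn => ?_⟩
            have h5 := h3.2 (n + 1) (by omega)
            rw [E1_sum, h4] at h5
            rw [add_assoc]
            exact h5
          · intro ω hω ω' hω' h
            rw [Finset.mem_coe, Finset.mem_filter] at hω hω'
            funext t
            refine Fin.cases ?_ (fun t => ?_) t
            · rw [hω.2, hω'.2]
            · exact congrFun h t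
        exact_mod_cast h2
      · have h2 : S.filter (fun ω => ω 0 = b) = ∅ := by
          rw [Finset.filter_eq_empty_iff]
          intro ω hω h4
          apply hb2
          rw [hS, Finset.mem_filter] at hω
          have h5 := hω.2 1 (by omega)
          rw [E1_sum δ T ω 0, h4] at h5
          simpa using h5
        rw [h2, Finset.card_empty, Nat.cast_zero]
        positivity
    have h6 : (S.card : ℝ) ≤ ∑ b : Bool, 2 ^ T * (q ^ T * (9 / 5 * (1 - (x0 + δ * sgn b) ^ 2 / 9))) := by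
      rw [hfib]
      push_cast
      exact Finset.sum_le_sum fun b _ => hb b
    refine h6.trans ?_
    rw [Fintype.sum_bool]
    have e1 : sgn true = 1 := rfl
    have e2 : sgn false = -1 := rfl
    rw [e1, e2]
    have h7 : (1 - (x0 + δ * 1) ^ 2 / 9) + (1 - (x0 + δ * -1) ^ 2 / 9) ≤ 2 * (q * (1 - x0 ^ 2 / 9)) := by
      rw [hq]
      nlinarith [mul_nonneg (sq_nonneg δ) (sq_nonneg x0)]
    have h8 : 0 ≤ 2 ^ T * (q ^ T * (9 / 5)) := by positivity
    calc 2 ^ T * (q ^ T * (9 / 5 * (1 - (x0 + δ * 1) ^ 2 / 9))) +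
          2 ^ T * (q ^ T * (9 / 5 * (1 - (x0 + δ * -1) ^ 2 / 9)))
        = 2 ^ T * (q ^ T * (9 / 5)) * ((1 - (x0 + δ * 1) ^ 2 / 9) + (1 - (x0 + δ * -1) ^ 2 / 9)) := by
          ring
      _ ≤ 2 ^ T * (q ^ T * (9 / 5)) * (2 * (q * (1 - x0 ^ 2 / 9))) :=
          mul_le_mul_of_nonneg_left h7 h8
      _ = 2 ^ (T + 1) * (q ^ (T + 1) * (9 / 5 * (1 - x0 ^ 2 / 9))) := by
          rw [pow_succ, pow_succ]
          ring

theorem conf_count (δ : ℝ) (hδ : 0 < δ) (hδ1 : δ ≤ 1) (T : ℕ) :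
    (((univ : Finset (Fin T → Bool)).filter (fun ω =>
        ∀ n ≤ T, |∑ t : Fin T, if (t : ℕ) < n then δ * sgn (ω t) else 0| ≤ 2)).card : ℝ)
      ≤ 2 ^ T * (2 * Real.exp (-(δ ^ 2 * T / 9))) := by
  have h1 := conf_count_aux δ hδ hδ1 T 0 (by simp)
  simp only [zero_add] at h1
  refine h1.trans ?_
  apply mul_le_mul_of_nonneg_left _ (by positivity)
  have hδ2 : δ ^ 2 ≤ 1 := pow_le_one₀ hδ.le hδ1
  have h2 : (1 - δ ^ 2 / 9) ^ T ≤ Real.exp (-(δ ^ 2 * T / 9)) := by
    have h3 : 1 - δ ^ 2 / 9 ≤ Real.exp (-(δ ^ 2 / 9)) := by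
      have := Real.add_one_le_exp (-(δ ^ 2 / 9))
      linarith
    calc (1 - δ ^ 2 / 9) ^ T ≤ Real.exp (-(δ ^ 2 / 9)) ^ T :=
          pow_le_pow_left₀ (by linarith) h3 T
      _ = Real.exp (-(δ ^ 2 * T / 9)) := by
          rw [← Real.exp_nat_mul]
          congr 1
          ring
  have h4 := Real.exp_pos (-(δ ^ 2 * T / 9))
  have h5 : 0 ≤ (1 - δ ^ 2 / 9) ^ T := pow_nonneg (by linarith) T
  nlinarith

end Pool.Agent.LibLoc73
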