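import Pool.Agent.LibLoc73.Defs

set_option autoImplicit false

/-! Task E4: joint probability of a set of causes. -/

open Finset

namespace Pool.Agent.LibLoc73

variable {ι κ : Type*} [Fintype ι] [Fintype κ] [DecidableEq ι]

open Classical in
/-- Split `H` into rows `J` and variables; union over the subset `A` of the variables whose walk is
confined; `|X ∩ Y| ≤ √(|X| |Y|)`; binomial expansion. -/
theorem cause_prob (P : Par ι κ) (τ : ℕ) (pa pb pc : ℝ) (hpa : 0 ≤ pa) (hpb : 0 ≤ pb)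
    (hpc : 0 ≤ pc)
    (hA : ∀ A : Finset ι, (((univ : Finset (Fin τ → ι → Bool)).filter (fun ω =>
        ∀ z ∈ A, P.Conf (ext τ ω) z)).card : ℝ) ≤ (2 ^ Fintype.card ι) ^ τ * pa ^ A.card)
    (hJ : ∀ (J : Finset κ) (Z : Finset ι), (((univ : Finset (Fin τ → ι → Bool)).filter (fun ω =>
        (∀ j ∈ J, P.lam ≤ |P.Y (ext τ ω) τ j|) ∧ ∀ z ∈ Z, P.IsBig (ext τ ω) τ z)).card : ℝ)
      ≤ (2 ^ Fintype.card ι) ^ τ * (pc ^ J.card * pb ^ Z.card))
    (H : Finset (κ ⊕ ι)) :
    (((univ : Finset (Fin τ → ι → Bool)).filter (fun ω =>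
        ∀ h ∈ H, P.Cause (ext τ ω) τ h)).card : ℝ)
      ≤ (2 ^ Fintype.card ι) ^ τ * (√pa + √pb + √pc) ^ H.card := by
  set J : Finset κ := H.toLeft with hJdef
  set X : Finset ι := H.toRight with hXdef
  set M : ℝ := (2 ^ Fintype.card ι) ^ τ with hM
  have hM0 : 0 ≤ M := by positivity
  -- the pieces
  set E : Finset ι → Finset (Fin τ → ι → Bool) := fun A =>
    (univ : Finset (Fin τ → ι → Bool)).filter (fun ω => (∀ z ∈ A, P.Conf (ext τ ω) z) ∧
      (∀ j ∈ J, P.lam ≤ |P.Y (ext τ ω) τ j|) ∧ ∀ z ∈ X \ A, P.IsBig (ext τ ω) τ z) with hE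
  have hsub : (univ : Finset (Fin τ → ι → Bool)).filter (fun ω =>
        ∀ h ∈ H, P.Cause (ext τ ω) τ h) ⊆ X.powerset.biUnion E := by
    intro ω hω
    have h1 := (Finset.mem_filter.1 hω).2
    rw [Finset.mem_biUnion]
    refine ⟨X.filter (fun z => P.Conf (ext τ ω) z), Finset.mem_powerset.2 (Finset.filter_subset _ _), ?_⟩
    rw [hE]
    refine Finset.mem_filter.2 ⟨Finset.mem_univ _, ?_, ?_, ?_⟩
    · intro z hz
      exact (Finset.mem_filter.1 hz).2
    · intro j hj
      exact h1 (Sum.inl j) (Finset.mem_toLeft.1 hj)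
    · intro z hz
      rw [Finset.mem_sdiff, Finset.mem_filter] at hz
      have h2 : P.IsBig (ext τ ω) τ z ∨ P.Conf (ext τ ω) z :=
        h1 (Sum.inr z) (Finset.mem_toRight.1 hz.1)
      rcases h2 with h2 | h2
      · exact h2
      · exact absurd ⟨hz.1, h2⟩ hz.2
  have hpiece : ∀ A ∈ X.powerset, ((E A).card : ℝ) ≤
      M * √pc ^ J.card * (√pa ^ A.card * √pb ^ (X.card - A.card)) := by
    intro A hAX
    have hAX' := Finset.mem_powerset.1 hAX
    have h1 : ((E A).card : ℝ) ≤ M * pa ^ A.card := by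
      refine le_trans ?_ (hA A)
      have : (E A).card ≤ ((univ : Finset (Fin τ → ι → Bool)).filter (fun ω =>
        ∀ z ∈ A, P.Conf (ext τ ω) z)).card := by
        apply Finset.card_le_card
        intro ω hω
        exact Finset.mem_filter.2 ⟨Finset.mem_univ _, (Finset.mem_filter.1 hω).2.1⟩
      exact_mod_cast this
    have h2 : ((E A).card : ℝ) ≤ M * (pc ^ J.card * pb ^ (X \ A).card) := by
      refine le_trans ?_ (hJ J (X \ A))
      have : (E A).card ≤ ((univ : Finset (Fin τ → ι → Bool)).filter (fun ω =>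
        (∀ j ∈ J, P.lam ≤ |P.Y (ext τ ω) τ j|) ∧ ∀ z ∈ X \ A, P.IsBig (ext τ ω) τ z)).card := by
        apply Finset.card_le_card
        intro ω hω
        exact Finset.mem_filter.2 ⟨Finset.mem_univ _, (Finset.mem_filter.1 hω).2.2⟩
      exact_mod_cast this
    rw [Finset.card_sdiff_of_subset hAX'] at h2
    have h3 : (M * √pc ^ J.card * (√pa ^ A.card * √pb ^ (X.card - A.card))) ^ 2 =
        (M * pa ^ A.card) * (M * (pc ^ J.card * pb ^ (X.card - A.card))) := by
      have e1 : (√pa ^ A.card) ^ 2 = pa ^ A.card := by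
        rw [← pow_mul, mul_comm, pow_mul, Real.sq_sqrt hpa]
      have e2 : (√pb ^ (X.card - A.card)) ^ 2 = pb ^ (X.card - A.card) := by
        rw [← pow_mul, mul_comm, pow_mul, Real.sq_sqrt hpb]
      have e3 : (√pc ^ J.card) ^ 2 = pc ^ J.card := by
        rw [← pow_mul, mul_comm, pow_mul, Real.sq_sqrt hpc]
      calc (M * √pc ^ J.card * (√pa ^ A.card * √pb ^ (X.card - A.card))) ^ 2
          = M ^ 2 * (√pc ^ J.card) ^ 2 * ((√pa ^ A.card) ^ 2 * (√pb ^ (X.card - A.card)) ^ 2) := by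
            ring
        _ = _ := by
            rw [e1, e2, e3]
            ring
    have h4 : 0 ≤ M * √pc ^ J.card * (√pa ^ A.card * √pb ^ (X.card - A.card)) := by positivity
    apply le_of_sq_le_sq _ h4
    rw [h3, sq]
    exact mul_le_mul h1 h2 (Nat.cast_nonneg _) ((Nat.cast_nonneg _).trans h1)
  have h5 : (((univ : Finset (Fin τ → ι → Bool)).filter (fun ω =>
        ∀ h ∈ H, P.Cause (ext τ ω) τ h)).card : ℝ) ≤ ∑ A ∈ X.powerset, ((E A).card : ℝ) := by
    have := (Finset.card_le_card hsub).trans Finset.card_biUnion_le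
    exact_mod_cast this
  have h6 := h5.trans (Finset.sum_le_sum hpiece)
  rw [← Finset.mul_sum, Finset.sum_pow_mul_eq_add_pow] at h6
  refine h6.trans ?_
  have hcard : H.card = J.card + X.card := (Finset.card_toLeft_add_card_toRight).symm
  rw [hcard, pow_add, mul_assoc]
  apply mul_le_mul_of_nonneg_left _ hM0
  have s1 := Real.sqrt_nonneg pa
  have s2 := Real.sqrt_nonneg pb
  have s3 := Real.sqrt_nonneg pc
  apply mul_le_mul
  · exact pow_le_pow_left₀ s3 (by linarith) _
  · exact pow_le_pow_left₀ (by linarith) (by linarith) _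
  · positivity
  · positivity

end Pool.Agent.LibLoc73
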