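import Pool.Agent.LibLoc73.F2

set_option autoImplicit false

/-! Task F3: locality of the run. Cite F1, F2. -/

open Finset

namespace Pool.Agent.LibLoc73

variable {ι κ : Type*} [Fintype ι] [Fintype κ] [DecidableEq ι]

private theorem f3_big (P : Par ι κ) (s : ℕ) (L L' : Finset ι) (ξ ξ' : ι → Bool) (i : ι)
    (hL : ∀ i' ∈ P.ball P.r i, (i' ∈ L ↔ i' ∈ L'))
    (hξ : ∀ i' ∈ P.ball P.r i, ξ i' = ξ' i') : i ∈ P.big s L ξ ↔ i ∈ P.big s L' ξ' := by
  have hii : i ∈ P.ball P.r i := ball_mono P (Nat.zero_le _) i (by simp [Par.ball])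
  rw [Par.big, Par.big, Finset.mem_filter, Finset.mem_filter, Par.sla, Par.sla,
    Finset.mem_filter, Finset.mem_filter, upd_local P s L L' ξ ξ' i hL hξ, hL i hii]

private theorem f3_newx (P : Par ι κ) (s : ℕ) (st st' : St ι) (ξ ξ' : ι → Bool) (i : ι)
    (hx : st.x i = st'.x i) (hL : ∀ i' ∈ P.ball P.r i, (i' ∈ st.L ↔ i' ∈ st'.L))
    (hξ : ∀ i' ∈ P.ball P.r i, ξ i' = ξ' i') : P.newx s st ξ i = P.newx s st' ξ' i := by
  have h1 := f3_big P s st.L st'.L ξ ξ' i hL hξ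
  have h2 := upd_local P s st.L st'.L ξ ξ' i hL hξ
  rw [Par.newx, Par.newx, hx, h2]
  by_cases h : i ∈ P.big s st.L ξ
  · rw [if_pos h, if_pos (h1.1 h)]
  · rw [if_neg h, if_neg (fun h' => h (h1.2 h'))]

private theorem f3_step (P : Par ι κ) (s : ℕ) (st st' : St ι) (ξ ξ' : ι → Bool) (i : ι)
    (hx : ∀ i' ∈ P.ball (P.r + 1) i, st.x i' = st'.x i')
    (hL : ∀ i' ∈ P.ball (P.r + 1) i, (i' ∈ st.L ↔ i' ∈ st'.L))
    (hξ : ∀ i' ∈ P.ball (P.r + 1) i, ξ i' = ξ' i') :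
    (P.step s st ξ).x i = (P.step s st' ξ').x i ∧
      (i ∈ (P.step s st ξ).L ↔ i ∈ (P.step s st' ξ').L) := by
  classical
  have hb : ∀ i' ∈ P.nb i, P.ball P.r i' ⊆ P.ball (P.r + 1) i := fun i' hi' =>
    ball_add P P.r 1 i i' (nb_subset_ball P i hi')
  have hself : ∀ i' ∈ P.nb i, i' ∈ P.ball (P.r + 1) i := fun i' hi' =>
    hb i' hi' (ball_mono P (Nat.zero_le _) i' (by simp [Par.ball]))
  have h1 : ∀ i' ∈ P.nb i, P.newx s st ξ i' = P.newx s st' ξ' i' := fun i' hi' =>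
    f3_newx P s st st' ξ ξ' i' (hx i' (hself i' hi')) (fun x hx' => hL x (hb i' hi' hx'))
      (fun x hx' => hξ x (hb i' hi' hx'))
  have h2 : ∀ i' ∈ P.nb i, (i' ∈ P.big s st.L ξ ↔ i' ∈ P.big s st'.L ξ') := fun i' hi' =>
    f3_big P s st.L st'.L ξ ξ' i' (fun x hx' => hL x (hb i' hi' hx'))
      (fun x hx' => hξ x (hb i' hi' hx'))
  refine ⟨h1 i (mem_nb_self P i), ?_⟩
  rw [Par.step, Par.step, Finset.mem_filter, Finset.mem_filter,
    hL i (hself i (mem_nb_self P i)), h1 i (mem_nb_self P i)]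
  apply and_congr_right
  intro _
  apply and_congr_right
  intro _
  apply forall_congr'
  intro j
  apply imp_congr_right
  intro hj
  rw [row_local P j _ _ (fun i' hi' => h1 i' (mem_nb_of_row P i i' j hj hi'))]
  apply and_congr_right
  intro _
  constructor
  · intro h i' hi'
    by_contra hne
    exact hne (h i' ((h2 i' (mem_nb_of_row P i i' j hj hne)).2 hi'))
  · intro h i' hi'
    by_contra hne
    exact hne (h i' ((h2 i' (mem_nb_of_row P i i' j hj hne)).1 hi'))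

/-- the state at `i` after `s` steps depends on the letters in the ball of radius `s (r+1)` -/
theorem run_local (P : Par ι κ) (s : ℕ) (ω ω' : ℕ → ι → Bool) (i : ι)
    (h : ∀ t < s, ∀ i' ∈ P.ball (s * (P.r + 1)) i, ω t i' = ω' t i') :
    (P.run ω s).x i = (P.run ω' s).x i ∧ (i ∈ (P.run ω s).L ↔ i ∈ (P.run ω' s).L) := by
  induction s generalizing i with
  | zero => exact ⟨rfl, Iff.rfl⟩
  | succ s ih =>
    have hb : ∀ i' ∈ P.ball (P.r + 1) i, P.ball (s * (P.r + 1)) i' ⊆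
        P.ball ((s + 1) * (P.r + 1)) i := by
      intro i' hi'
      have := ball_add P (s * (P.r + 1)) (P.r + 1) i i' hi'
      rwa [← Nat.succ_mul] at this
    have h1 : ∀ i' ∈ P.ball (P.r + 1) i, (P.run ω s).x i' = (P.run ω' s).x i' ∧
        (i' ∈ (P.run ω s).L ↔ i' ∈ (P.run ω' s).L) := fun i' hi' =>
      ih i' (fun t ht x hx => h t (by omega) x (hb i' hi' hx))
    exact f3_step P s _ _ _ _ i (fun i' hi' => (h1 i' hi').1) (fun i' hi' => (h1 i' hi').2)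
      (fun i' hi' => h s (by omega) i' (ball_mono P (by nlinarith) i hi'))

/-- the increment at `i` at step `s`, and the fact that it is big -/
theorem U_local (P : Par ι κ) (s : ℕ) (ω ω' : ℕ → ι → Bool) (i : ι)
    (h : ∀ t ≤ s, ∀ i' ∈ P.ball ((s + 1) * (P.r + 1)) i, ω t i' = ω' t i') :
    P.U ω s i = P.U ω' s i ∧
      (i ∈ P.big s (P.run ω s).L (ω s) ↔ i ∈ P.big s (P.run ω' s).L (ω' s)) := by
  have hb : ∀ i' ∈ P.ball P.r i, P.ball (s * (P.r + 1)) i' ⊆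
      P.ball ((s + 1) * (P.r + 1)) i := by
    intro i' hi'
    refine (ball_add P (s * (P.r + 1)) P.r i i' hi').trans (ball_mono P ?_ i)
    nlinarith
  have hL : ∀ i' ∈ P.ball P.r i, (i' ∈ (P.run ω s).L ↔ i' ∈ (P.run ω' s).L) := fun i' hi' =>
    (run_local P s ω ω' i' (fun t ht x hx => h t ht.le x (hb i' hi' hx))).2
  have hξ : ∀ i' ∈ P.ball P.r i, ω s i' = ω' s i' := fun i' hi' =>
    h s le_rfl i' (ball_mono P (by nlinarith) i hi')
  exact ⟨upd_local P s _ _ _ _ i hL hξ, f3_big P s _ _ _ _ i hL hξ⟩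

end Pool.Agent.LibLoc73
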