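import Pool.Agent.LibLoc73.F3

set_option autoImplicit false

/-! Task F4: locality of causes. Cite F1, F2, F3. -/

open Finset

namespace Pool.Agent.LibLoc73

variable {ι κ : Type*} [Fintype ι] [Fintype κ] [DecidableEq ι]

/-- locality of causes -/
theorem cause_local (P : Par ι κ) (τ : ℕ) (ω ω' : ℕ → ι → Bool) (h : κ ⊕ ι)
    (hω : ∀ t, ∀ i ∈ P.foot h, ∀ i' ∈ P.ball (τ * (P.r + 1)) i, ω t i' = ω' t i') :
    P.Cause ω τ h ↔ P.Cause ω' τ h := by
  classical
  have key : ∀ i ∈ P.foot h, ∀ t < τ, P.U ω t i = P.U ω' t i ∧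
      (i ∈ P.big t (P.run ω t).L (ω t) ↔ i ∈ P.big t (P.run ω' t).L (ω' t)) := by
    intro i hi t ht
    apply U_local
    intro t' _ i' hi'
    exact hω t' i hi i' (ball_mono P (Nat.mul_le_mul_right _ (by omega)) i hi')
  cases h with
  | inl j =>
    rw [Par.Cause, Par.Cause]
    have : P.Y ω τ j = P.Y ω' τ j := by
      rw [Par.Y, Par.Y]
      apply Finset.sum_congr rfl
      intro t ht
      apply row_local
      intro i hi
      exact (key i (by simp [Par.foot, hi]) t (Finset.mem_range.1 ht)).1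
    rw [this]
  | inr z =>
    have hz : z ∈ P.foot (Sum.inr z) := mem_nb_self P z
    have hzz : ∀ t, ω t z = ω' t z := fun t =>
      hω t z hz z (ball_mono P (Nat.zero_le _) z (by simp [Par.ball]))
    rw [Par.Cause, Par.Cause]
    apply or_congr
    · rw [Par.IsBig, Par.IsBig]
      constructor
      · rintro ⟨t, ht, hb⟩
        exact ⟨t, ht, (key z hz t ht).2.1 hb⟩
      · rintro ⟨t, ht, hb⟩
        exact ⟨t, ht, (key z hz t ht).2.2 hb⟩
    · rw [Par.Conf, Par.Conf]
      simp_rw [hzz]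

end Pool.Agent.LibLoc73
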