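import Pool.Agent.LibLoc73.H1
import Pool.Agent.LibLoc73.F4
import Pool.Agent.LibKomlos64.Cluster

set_option autoImplicit false

/-! Task H2a: probability of the bad events. Cite H1 and `Pool.Agent.LibKomlos64.chn / card_chn / mem_chn`. -/

open Finset

namespace Pool.Agent.LibLoc73

variable {ι κ : Type*} [Fintype ι] [Fintype κ] [DecidableEq ι] [DecidableEq κ]

/-- bad event at `h`: a chain of `2m+1` causes that starts at `h` with exactly `m+1` different
members -/
def BadEv (P : Par ι κ) (τ m : ℕ) (h : κ ⊕ ι) (ω : Fin τ → ι → Bool) : Prop :=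
  ∃ l : List (κ ⊕ ι), (h :: l).IsChain (fun a b => P.HAdj a b) ∧ l.length = 2 * m ∧
    (h :: l).toFinset.card = m + 1 ∧ ∀ h' ∈ h :: l, P.Cause (ext τ ω) τ h'

open Classical in
/-- union bound over `chn (nbH P) (2m) h` -/
theorem badEv_prob (P : Par ι κ) (k : ℕ) (hP : P.Ok k) (τ m : ℕ) (q : ℝ) (hq : 0 ≤ q)
    (hcause : ∀ H : Finset (κ ⊕ ι), (((univ : Finset (Fin τ → ι → Bool)).filter (fun ω =>
        ∀ h ∈ H, P.Cause (ext τ ω) τ h)).card : ℝ)
      ≤ (2 ^ Fintype.card ι) ^ τ * q ^ H.card) (h : κ ⊕ ι) :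
    (((univ : Finset (Fin τ → ι → Bool)).filter (fun ω => BadEv P τ m h ω)).card : ℝ)
      ≤ (2 ^ Fintype.card ι) ^ τ * (((k : ℝ) ^ 10) ^ (2 * m) * q ^ (m + 1)) := by
  set C : Finset (List (κ ⊕ ι)) := (LibKomlos64.chn (nbH P) (2 * m) h).filter
    (fun L => L.toFinset.card = m + 1) with hC
  have hsub : (univ : Finset (Fin τ → ι → Bool)).filter (fun ω => BadEv P τ m h ω) ⊆
      C.biUnion (fun L => (univ : Finset (Fin τ → ι → Bool)).filter (fun ω =>
        ∀ h' ∈ L.toFinset, P.Cause (ext τ ω) τ h')) := by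
    intro ω hω
    rw [Finset.mem_filter] at hω
    obtain ⟨l, hl1, hl2, hl3, hl4⟩ := hω.2
    rw [Finset.mem_biUnion]
    refine ⟨h :: l, ?_, ?_⟩
    · rw [hC, Finset.mem_filter]
      refine ⟨LibKomlos64.mem_chn (nbH P) (2 * m) h l ?_ hl2, hl3⟩
      refine hl1.imp ?_
      intro a b hab
      unfold nbH
      rw [Finset.mem_filter]
      exact ⟨Finset.mem_univ _, hab⟩
    · rw [Finset.mem_filter]
      refine ⟨Finset.mem_univ _, fun h' hh' => hl4 h' ?_⟩
      exact List.mem_toFinset.1 hh'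
  have hcardC : (C.card : ℝ) ≤ ((k : ℝ) ^ 10) ^ (2 * m) := by
    have h1 : C.card ≤ (k ^ 10) ^ (2 * m) :=
      (Finset.card_filter_le _ _).trans
        (LibKomlos64.card_chn (nbH P) (k ^ 10) (fun a => card_nbH P k hP a) (2 * m) h)
    exact_mod_cast h1
  have h2n : (0 : ℝ) ≤ (2 ^ Fintype.card ι) ^ τ := by positivity
  calc (((univ : Finset (Fin τ → ι → Bool)).filter (fun ω => BadEv P τ m h ω)).card : ℝ)
      ≤ ((C.biUnion (fun L => (univ : Finset (Fin τ → ι → Bool)).filter (fun ω =>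
        ∀ h' ∈ L.toFinset, P.Cause (ext τ ω) τ h'))).card : ℝ) := by
        exact_mod_cast Finset.card_le_card hsub
    _ ≤ ∑ L ∈ C, (((univ : Finset (Fin τ → ι → Bool)).filter (fun ω =>
        ∀ h' ∈ L.toFinset, P.Cause (ext τ ω) τ h')).card : ℝ) := by
        exact_mod_cast Finset.card_biUnion_le
    _ ≤ ∑ L ∈ C, (2 ^ Fintype.card ι) ^ τ * q ^ (m + 1) := by
        refine Finset.sum_le_sum fun L hL => ?_
        rw [hC, Finset.mem_filter] at hL
        have := hcause L.toFinset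
        rw [hL.2] at this
        convert this using 3
    _ = (C.card : ℝ) * ((2 ^ Fintype.card ι) ^ τ * q ^ (m + 1)) := by
        rw [Finset.sum_const, nsmul_eq_mul]
    _ ≤ ((k : ℝ) ^ 10) ^ (2 * m) * ((2 ^ Fintype.card ι) ^ τ * q ^ (m + 1)) :=
        mul_le_mul_of_nonneg_right hcardC (by positivity)
    _ = (2 ^ Fintype.card ι) ^ τ * (((k : ℝ) ^ 10) ^ (2 * m) * q ^ (m + 1)) := by ring

end Pool.Agent.LibLoc73
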