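import Pool.Agent.LibLoc73.H2a
import Pool.Agent.LibLoc73.H1b
import Pool.Agent.LibLoc73.F4

set_option autoImplicit false

/-! Task H2b: locality of the bad events. Cite F1, F4, H1b. -/

open Finset

namespace Pool.Agent.LibLoc73

variable {ι κ : Type*} [Fintype ι] [Fintype κ] [DecidableEq ι] [DecidableEq κ]

theorem H2b_aux (P : Par ι κ) (τ m : ℕ) (h : κ ⊕ ι) (ω ω' : Fin τ → ι → Bool)
    (hω : ∀ t, ∀ i ∈ (P.foot h).biUnion (P.ball (6 * m + 2 + τ * (P.r + 1))),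
      ω t i = ω' t i) (hb : BadEv P τ m h ω) : BadEv P τ m h ω' := by
  obtain ⟨l, hl1, hl2, hl3, hl4⟩ := hb
  refine ⟨l, hl1, hl2, hl3, fun h' hh' => ?_⟩
  refine (cause_local P τ (ext τ ω) (ext τ ω') h' ?_).1 (hl4 h' hh')
  intro t i' hi' i'' hi''
  -- a point of the foot of `h`
  obtain ⟨i, hi⟩ : ∃ i, i ∈ P.foot h := by
    rcases List.mem_cons.1 hh' with rfl | hmem
    · exact ⟨i', hi'⟩
    · cases l with
      | nil => simp at hmem
      | cons b l =>
        rw [List.isChain_cons_cons] at hl1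
        obtain ⟨i, hi, _⟩ := hl1.1
        exact ⟨i, hi⟩
  have h1 : i' ∈ P.ball (3 * l.length + 2) i := foot_chain P h l hl1 h' hh' i i' hi hi'
  have h2 : i'' ∈ P.ball (τ * (P.r + 1) + (3 * l.length + 2)) i :=
    ball_add P _ _ i i' h1 hi''
  have h3 : i'' ∈ P.ball (6 * m + 2 + τ * (P.r + 1)) i :=
    ball_mono P (by rw [hl2]; omega) i h2
  unfold ext
  split_ifs with ht
  · exact hω ⟨t, ht⟩ i'' (Finset.mem_biUnion.2 ⟨i, hi, h3⟩)
  · rfl

/-- the event `BadEv P τ m h` is determined by the letters in the balls of radius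
`6 m + 2 + τ (r+1)` around the foot of `h` -/
theorem badEv_local (P : Par ι κ) (τ m : ℕ) (h : κ ⊕ ι) (ω ω' : Fin τ → ι → Bool)
    (hω : ∀ t, ∀ i ∈ (P.foot h).biUnion (P.ball (6 * m + 2 + τ * (P.r + 1))),
      ω t i = ω' t i) : BadEv P τ m h ω ↔ BadEv P τ m h ω' :=
  ⟨H2b_aux P τ m h ω ω' hω, H2b_aux P τ m h ω' ω fun t i hi => (hω t i hi).symm⟩

end Pool.Agent.LibLoc73
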