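import Pool.Agent.LibLoc73.H2b
import Pool.Agent.LibLoc73.G1

set_option autoImplicit false

/-! Task H3: existence of a good sign pattern. Cite F1, G1, H1, H2a, H2b. -/

open Finset

namespace Pool.Agent.LibLoc73

variable {ι κ : Type*} [Fintype ι] [Fintype κ] [DecidableEq ι] [DecidableEq κ]

theorem H3_self_ball (P : Par ι κ) (R : ℕ) (i : ι) : i ∈ P.ball R i :=
  ball_mono P (Nat.zero_le R) i (by simp [Par.ball])

/-- a cause has a nonempty foot -/
theorem H3_foot (P : Par ι κ) (hlam : 0 < P.lam) (ω : ℕ → ι → Bool) (s : ℕ) (h : κ ⊕ ι)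
    (hc : P.Cause ω s h) : (P.foot h).Nonempty := by
  classical
  rcases h with j | z
  · by_contra hne
    rw [Finset.not_nonempty_iff_eq_empty] at hne
    have h1 : ∀ i, P.a i j = 0 := by
      intro i
      by_contra hi
      have : i ∈ P.foot (Sum.inl j) := by
        unfold Par.foot
        simpa using hi
      rw [hne] at this
      exact absurd this (Finset.notMem_empty i)
    have h2 : P.Y ω s j = 0 := by
      unfold Par.Y Par.row
      apply Finset.sum_eq_zero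
      intro t _
      apply Finset.sum_eq_zero
      intro i _
      rw [h1 i, zero_mul]
    have h3 : P.lam ≤ |P.Y ω s j| := hc
    rw [h2, abs_zero] at h3
    linarith
  · exact ⟨z, mem_nb_self P z⟩

/-- the numerical condition -/
theorem H3_num (k m R : ℕ) (hk : 2 ≤ k) (hR : R ≤ 7 * m + 2) (q : ℝ) (hq : 0 ≤ q)
    (hqk : (k : ℝ) ^ 63 * q ≤ 1) :
    4 * ((k ^ (3 * R + 4) : ℕ) : ℝ) * (((k : ℝ) ^ 10) ^ (2 * m) * q ^ (m + 1))
      * ((m * k ^ (3 * R + 3) : ℕ) : ℝ) ≤ 1 := by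
  have hk1 : (1 : ℝ) ≤ (k : ℝ) := by exact_mod_cast (by omega : 1 ≤ k)
  have hk2 : (2 : ℝ) ≤ (k : ℝ) := by exact_mod_cast hk
  have hk0 : (0 : ℝ) ≤ (k : ℝ) := by linarith
  have h4m : 4 * (m : ℝ) ≤ (k : ℝ) ^ (m + 2) := by
    have h1 : (m : ℝ) ≤ 2 ^ m := by exact_mod_cast (Nat.lt_two_pow_self (n := m)).le
    have h2 : (2 : ℝ) ^ m ≤ (k : ℝ) ^ m := pow_le_pow_left₀ (by norm_num) hk2 m
    have h3 : (4 : ℝ) ≤ (k : ℝ) ^ 2 := by nlinarith
    have h4 : (0 : ℝ) ≤ (k : ℝ) ^ m := by positivity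
    calc 4 * (m : ℝ) ≤ 4 * (k : ℝ) ^ m := by linarith
      _ ≤ (k : ℝ) ^ 2 * (k : ℝ) ^ m := mul_le_mul_of_nonneg_right h3 h4
      _ = (k : ℝ) ^ (m + 2) := by ring
  have hA : (k : ℝ) ^ (3 * R + 4) * (k : ℝ) ^ (3 * R + 3) ≤ (k : ℝ) ^ (42 * m + 19) := by
    rw [← pow_add]
    exact pow_le_pow_right₀ hk1 (by omega)
  have hqm : (0 : ℝ) ≤ q ^ (m + 1) := by positivity
  push_cast
  calc 4 * (k : ℝ) ^ (3 * R + 4) * (((k : ℝ) ^ 10) ^ (2 * m) * q ^ (m + 1))
      * (m * (k : ℝ) ^ (3 * R + 3))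
      = (4 * (m : ℝ)) * ((k : ℝ) ^ (3 * R + 4) * (k : ℝ) ^ (3 * R + 3))
        * (((k : ℝ) ^ 10) ^ (2 * m) * q ^ (m + 1)) := by ring
    _ ≤ (k : ℝ) ^ (m + 2) * (k : ℝ) ^ (42 * m + 19)
        * (((k : ℝ) ^ 10) ^ (2 * m) * q ^ (m + 1)) := by
        apply mul_le_mul_of_nonneg_right _ (by positivity)
        exact mul_le_mul h4m hA (by positivity) (by positivity)
    _ = (k : ℝ) ^ (63 * m + 21) * q ^ (m + 1) := by
        rw [← pow_mul, ← pow_add, ← mul_assoc, ← pow_add]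
        congr 2
        ring
    _ ≤ (k : ℝ) ^ (63 * (m + 1)) * q ^ (m + 1) := by
        apply mul_le_mul_of_nonneg_right _ hqm
        exact pow_le_pow_right₀ hk1 (by omega)
    _ = ((k : ℝ) ^ 63 * q) ^ (m + 1) := by rw [mul_pow, ← pow_mul]
    _ ≤ 1 := pow_le_one₀ (by positivity) hqk

open Classical in
/-- `lll` for the events `BadEv P τ m h`, `h` with nonempty foot (a row with empty foot is never a
cause: its virtual value is `0 < lam`), `A h = (foot h).biUnion (ball R)`, `R = 6m+2+τ(r+1) ≤ 7m+2`,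
`τ |A h| ≤ m k^(3R+3) ≤ k^(22m+9)`, `d = k^(3R+4) ≤ k^(21m+10)`, `p = k^(20m) q^(m+1)`, so that
`4 d p s ≤ k^(63m+21) q^(m+1) ≤ (k^63 q)^(m+1) ≤ 1`. -/
theorem exists_omega (P : Par ι κ) (k : ℕ) (hP : P.Ok k) (τ m : ℕ) (hτ : 0 < τ)
    (hm : τ * (P.r + 1) ≤ m) (q : ℝ) (hq : 0 ≤ q) (hqk : (k : ℝ) ^ 63 * q ≤ 1)
    (hcause : ∀ H : Finset (κ ⊕ ι), (((univ : Finset (Fin τ → ι → Bool)).filter (fun ω =>
        ∀ h ∈ H, P.Cause (ext τ ω) τ h)).card : ℝ)
      ≤ (2 ^ Fintype.card ι) ^ τ * q ^ H.card) :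
    ∃ ω : Fin τ → ι → Bool, ∀ h : κ ⊕ ι, ¬ BadEv P τ m h ω := by
  have hk := hP.hk
  obtain ⟨R, hR⟩ : ∃ R : ℕ, R = 6 * m + 2 + τ * (P.r + 1) := ⟨_, rfl⟩
  have hτm : τ ≤ m := by
    calc τ = τ * 1 := (mul_one τ).symm
      _ ≤ τ * (P.r + 1) := Nat.mul_le_mul_left _ (by omega)
      _ ≤ m := hm
  have hm1 : 1 ≤ m := by omega
  have hAne : ∀ e : {h : κ ⊕ ι // (P.foot h).Nonempty},
      ((P.foot e.1).biUnion (P.ball R)).Nonempty := fun e => by
    obtain ⟨i, hi⟩ := e.2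
    exact ⟨i, Finset.mem_biUnion.2 ⟨i, hi, H3_self_ball P R i⟩⟩
  have hdep : ∀ (e : {h : κ ⊕ ι // (P.foot h).Nonempty}) (ω ω' : Fin τ → ι → Bool),
      (∀ t, ∀ i ∈ (P.foot e.1).biUnion (P.ball R), ω t i = ω' t i) →
      (BadEv P τ m e.1 ω ↔ BadEv P τ m e.1 ω') := by
    intro e ω ω' hh
    rw [hR] at hh
    exact badEv_local P τ m e.1 ω ω' hh
  have hs1 : 1 ≤ m * k ^ (3 * R + 3) := Nat.mul_pos hm1 (Nat.pow_pos (by omega))
  have hs : ∀ e : {h : κ ⊕ ι // (P.foot h).Nonempty},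
      τ * ((P.foot e.1).biUnion (P.ball R)).card ≤ m * k ^ (3 * R + 3) := by
    intro e
    refine Nat.mul_le_mul hτm ?_
    refine (Finset.card_biUnion_le_card_mul _ _ ((k ^ 3) ^ R)
      fun i _ => card_ball P k hP R i).trans ?_
    calc (P.foot e.1).card * (k ^ 3) ^ R ≤ k ^ 3 * (k ^ 3) ^ R :=
          Nat.mul_le_mul_right _ (card_foot P k hP e.1)
      _ = k ^ (3 * R + 3) := by rw [← pow_mul, ← pow_add]; congr 1; ring
  have hd : ∀ i : ι, ((univ : Finset {h : κ ⊕ ι // (P.foot h).Nonempty}).filter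
      (fun e => i ∈ (P.foot e.1).biUnion (P.ball R))).card ≤ k ^ (3 * R + 4) := by
    intro i
    have hinj : (((univ : Finset {h : κ ⊕ ι // (P.foot h).Nonempty}).filter
        (fun e => i ∈ (P.foot e.1).biUnion (P.ball R))).image Subtype.val) ⊆
        (P.ball R i).biUnion (fun i' =>
          (univ : Finset (κ ⊕ ι)).filter (fun h => i' ∈ P.foot h)) := by
      intro h hh
      rw [Finset.mem_image] at hh
      obtain ⟨e, he, rfl⟩ := hh
      rw [Finset.mem_filter] at he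
      obtain ⟨i', hi', hi''⟩ := Finset.mem_biUnion.1 he.2
      refine Finset.mem_biUnion.2 ⟨i', (ball_symm P R i' i).1 hi'', ?_⟩
      rw [Finset.mem_filter]
      exact ⟨Finset.mem_univ _, hi'⟩
    have hc := Finset.card_le_card hinj
    rw [Finset.card_image_of_injective _ Subtype.val_injective] at hc
    refine hc.trans ?_
    refine (Finset.card_biUnion_le_card_mul _ _ (k ^ 4) fun i' _ =>
      card_foot_inv P k hP i').trans ?_
    calc (P.ball R i).card * k ^ 4 ≤ (k ^ 3) ^ R * k ^ 4 :=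
          Nat.mul_le_mul_right _ (card_ball P k hP R i)
      _ = k ^ (3 * R + 4) := by rw [← pow_mul, ← pow_add]
  have hp0 : 0 ≤ ((k : ℝ) ^ 10) ^ (2 * m) * q ^ (m + 1) := by positivity
  have hpe : ∀ e : {h : κ ⊕ ι // (P.foot h).Nonempty},
      (((univ : Finset (Fin τ → ι → Bool)).filter (fun ω => BadEv P τ m e.1 ω)).card : ℝ)
      ≤ (2 ^ Fintype.card ι) ^ τ * (((k : ℝ) ^ 10) ^ (2 * m) * q ^ (m + 1)) :=
    fun e => badEv_prob P k hP τ m q hq hcause e.1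
  have hnum := H3_num k m R hk (by omega) q hq hqk
  generalize ((k : ℝ) ^ 10) ^ (2 * m) * q ^ (m + 1) = p at hp0 hpe hnum
  generalize k ^ (3 * R + 4) = d at hd hnum
  generalize m * k ^ (3 * R + 3) = s at hs1 hs hnum
  obtain ⟨ω, hω⟩ := lll (E := {h : κ ⊕ ι // (P.foot h).Nonempty}) τ
    (fun e => (P.foot e.1).biUnion (P.ball R)) hAne hτ
    (fun e ω => BadEv P τ m e.1 ω) hdep s d hs1 hs
    (fun i => by
      refine (Finset.card_le_card ?_).trans (hd i)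
      intro e he
      simp only [Finset.mem_filter, Finset.mem_univ, true_and] at he ⊢
      exact he) p hp0
    (fun e => by
      refine (Nat.cast_le.2 (Finset.card_le_card ?_)).trans (hpe e)
      intro w hw
      simp only [Finset.mem_filter, Finset.mem_univ, true_and] at hw ⊢
      exact hw) hnum
  refine ⟨ω, fun h hb => ?_⟩
  have hne : (P.foot h).Nonempty := by
    obtain ⟨l, _, _, _, hl4⟩ := hb
    exact H3_foot P hP.hlam (ext τ ω) τ h (hl4 h (List.mem_cons_self))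
  exact hω ⟨h, hne⟩ hb

end Pool.Agent.LibLoc73
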