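import Pool.Agent.LibLoc73.I1

set_option autoImplicit false

/-! Task I1b: deterministic properties of the walk, part 2. Cite F1, I1. -/

open Finset

namespace Pool.Agent.LibLoc73

variable {ι κ : Type*} [Fintype ι] [Fintype κ] [DecidableEq ι]

theorem I1b_delta_le (P : Par ι κ) (k : ℕ) (hP : P.Ok k) (s : ℕ) (st : St ι) (ξ : ι → Bool)
    (i : ι) : |P.newx s st ξ i - st.x i| ≤ P.η := by
  classical
  have hη0 : 0 ≤ P.η := le_trans hP.hδ.le hP.hδη
  simp only [Par.newx, add_sub_cancel_left]
  split_ifs with hb
  · simpa using hη0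
  · by_cases hs : i ∈ P.sla s st.L
    · have h1 : ¬ P.η ≤ |P.upd s st.L ξ i| := fun h =>
        hb (Finset.mem_filter.2 ⟨hs, h⟩)
      exact (not_le.1 h1).le
    · rw [upd_of_notMem P s st.L ξ i hs]
      simp only [Par.ini]
      split_ifs
      · have : |sgn (ξ i)| = 1 := by
          unfold sgn
          split_ifs <;> simp
        rw [abs_mul, this, mul_one, abs_of_pos hP.hδ]
        exact hP.hδη
      · simpa using hη0

theorem run_x_le (P : Par ι κ) (k : ℕ) (hP : P.Ok k) (ω : ℕ → ι → Bool) (s : ℕ) (i : ι) :
    |(P.run ω s).x i| ≤ 1 := by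
  induction s with
  | zero => simp [Par.run]
  | succ s ih =>
    by_cases hi : i ∈ (P.run ω s).L
    · have h1 := run_live P k hP ω s i hi
      have h2 := I1b_delta_le P k hP s (P.run ω s) (ω s) i
      have h3 : (P.run ω (s + 1)).x i = P.newx s (P.run ω s) (ω s) i := rfl
      rw [h3]
      have h4 : P.newx s (P.run ω s) (ω s) i
          = (P.run ω s).x i + (P.newx s (P.run ω s) (ω s) i - (P.run ω s).x i) := by ring
      rw [h4]
      refine (abs_add_le _ _).trans ?_
      linarith
    · rw [run_x_of_notMem P ω (Nat.le_succ s) i hi]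
      exact ih

theorem I1b_a_le (P : Par ι κ) (k : ℕ) (hP : P.Ok k) (i : ι) (j : κ) : |P.a i j| ≤ 1 := by
  have h1 : (P.a i j) ^ 2 ≤ ∑ j, (P.a i j) ^ 2 :=
    Finset.single_le_sum (f := fun j => (P.a i j) ^ 2) (fun j _ => sq_nonneg _) (Finset.mem_univ j)
  have h2 := hP.hcol i
  have h3 : (P.a i j) ^ 2 ≤ 1 := h1.trans h2
  rw [← sq_abs] at h3
  nlinarith [abs_nonneg (P.a i j)]

/-- a row with a live variable has value `< lam`; one step changes a row by at most
`δ + k η ≤ 2` (at most one pivot per row, the other nonzero increments are `< η`); a row without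
live variables does not change -/
theorem run_row_le (P : Par ι κ) (k : ℕ) (hP : P.Ok k) (ω : ℕ → ι → Bool) (s : ℕ) (j : κ) :
    |P.row (P.run ω s).x j| ≤ P.lam + 2 := by
  classical
  induction s with
  | zero =>
    have := hP.hlam
    simp only [Par.run, Par.row, mul_zero, Finset.sum_const_zero, abs_zero]
    linarith
  | succ s ih =>
    by_cases hlive : ∃ i ∈ (P.run ω s).L, P.a i j ≠ 0
    · obtain ⟨i, hi, hij⟩ := hlive
      have h1 := run_row_live P k hP ω s i hi j hij
      have h3 : (P.run ω (s + 1)).x = P.newx s (P.run ω s) (ω s) := rfl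
      have h4 : P.row (P.run ω (s + 1)).x j = P.row (P.run ω s).x j
          + ∑ i ∈ univ.filter (fun i => P.a i j ≠ 0),
            P.a i j * (P.newx s (P.run ω s) (ω s) i - (P.run ω s).x i) := by
        rw [h3]
        have h5 : ∑ i ∈ univ.filter (fun i => P.a i j ≠ 0),
            P.a i j * (P.newx s (P.run ω s) (ω s) i - (P.run ω s).x i)
            = ∑ i, P.a i j * (P.newx s (P.run ω s) (ω s) i - (P.run ω s).x i) := by
          apply Finset.sum_filter_of_ne
          intro x _ hx h0
          apply hx
          rw [h0, zero_mul]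
        rw [h5]
        simp only [Par.row, mul_sub, Finset.sum_sub_distrib]
        ring
      have h6 : |∑ i ∈ univ.filter (fun i => P.a i j ≠ 0),
            P.a i j * (P.newx s (P.run ω s) (ω s) i - (P.run ω s).x i)| ≤ 1 := by
        refine (Finset.abs_sum_le_sum_abs _ _).trans ?_
        have h7 : ∀ i ∈ univ.filter (fun i => P.a i j ≠ 0),
            |P.a i j * (P.newx s (P.run ω s) (ω s) i - (P.run ω s).x i)| ≤ P.η := by
          intro i _
          rw [abs_mul]
          have ha := I1b_a_le P k hP i j
          have hb := I1b_delta_le P k hP s (P.run ω s) (ω s) i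
          calc |P.a i j| * |P.newx s (P.run ω s) (ω s) i - (P.run ω s).x i|
              ≤ 1 * P.η := mul_le_mul ha hb (abs_nonneg _) zero_le_one
            _ = P.η := one_mul _
        refine (Finset.sum_le_card_nsmul _ _ _ h7).trans ?_
        rw [nsmul_eq_mul]
        have h8 : ((univ.filter (fun i => P.a i j ≠ 0)).card : ℝ) ≤ k := by
          exact_mod_cast hP.hrow j
        have hη0 : 0 ≤ P.η := le_trans hP.hδ.le hP.hδη
        have h9 := hP.hηk
        calc ((univ.filter (fun i => P.a i j ≠ 0)).card : ℝ) * P.η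
            ≤ k * P.η := mul_le_mul_of_nonneg_right h8 hη0
          _ ≤ 1 := by rw [mul_comm]; exact h9
      rw [h4]
      refine (abs_add_le _ _).trans ?_
      linarith
    · have h1 : P.row (P.run ω (s + 1)).x j = P.row (P.run ω s).x j := by
        unfold Par.row
        apply Finset.sum_congr rfl
        intro i _
        by_cases hij : P.a i j = 0
        · rw [hij, zero_mul, zero_mul]
        · rw [run_x_of_notMem P ω (Nat.le_succ s) i (fun h => hlive ⟨i, h, hij⟩)]
      rw [h1]
      exact ih

end Pool.Agent.LibLoc73
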