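import Pool.Agent.LibLoc73.I1

set_option autoImplicit false

/-! Task I1c: deterministic properties of the walk, part 3. Cite F1, I1. -/

open Finset

namespace Pool.Agent.LibLoc73

variable {ι κ : Type*} [Fintype ι] [Fintype κ] [DecidableEq ι]

/-- if no variable of the row makes a big step, the virtual value is the value -/
theorem Y_eq_row (P : Par ι κ) (ω : ℕ → ι → Bool) (s : ℕ) (j : κ)
    (h : ∀ i, P.a i j ≠ 0 → ¬ P.IsBig ω s i) : P.Y ω s j = P.row (P.run ω s).x j := by
  classical
  induction s with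
  | zero => simp [Par.Y, Par.run, Par.row]
  | succ s ih =>
    have h1 : ∀ i, P.a i j ≠ 0 → ¬ P.IsBig ω s i := by
      intro i hi hb
      obtain ⟨t, ht, hb⟩ := hb
      exact h i hi ⟨t, ht.trans (Nat.lt_succ_self s), hb⟩
    have h2 : P.Y ω (s + 1) j = P.Y ω s j + P.row (P.U ω s) j := by
      simp only [Par.Y, Finset.sum_range_succ]
    rw [h2, ih h1]
    have h3 : (P.run ω (s + 1)).x = P.newx s (P.run ω s) (ω s) := rfl
    rw [h3]
    simp only [Par.row, Par.U, ← Finset.sum_add_distrib]
    apply Finset.sum_congr rfl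
    intro i _
    by_cases hij : P.a i j = 0
    · simp [hij]
    · have h4 : i ∉ P.big s (P.run ω s).L (ω s) := fun hb =>
        h i hij ⟨s, Nat.lt_succ_self s, hb⟩
      simp only [Par.newx, h4, if_false]
      ring

/-- a variable that is live to the end has a confined walk during its colour phase -/
theorem conf_of_live (P : Par ι κ) (k : ℕ) (hP : P.Ok k) (ω : ℕ → ι → Bool) (τ : ℕ) (i : ι)
    (hτ : P.c i * P.T + P.T ≤ τ) (hi : i ∈ (P.run ω τ).L) : P.Conf ω i := by
  classical
  have hη0 : 0 < P.η := lt_of_lt_of_le hP.hδ hP.hδη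
  have key : ∀ n, n ≤ P.T → (P.run ω (P.c i * P.T + n)).x i
      = (P.run ω (P.c i * P.T)).x i + ∑ t ∈ range n, P.δ * sgn (ω (P.c i * P.T + t) i) := by
    intro n
    induction n with
    | zero => intro _; simp
    | succ n ih =>
      intro hn
      have hn' : n < P.T := hn
      have h0 : (P.run ω (P.c i * P.T)).x i
          + ∑ t ∈ range (n + 1), P.δ * sgn (ω (P.c i * P.T + t) i)
          = (P.run ω (P.c i * P.T + n)).x i + P.δ * sgn (ω (P.c i * P.T + n) i) := by
        rw [Finset.sum_range_succ, ih hn'.le]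
        ring
      rw [h0]
      have hs : (P.c i * P.T + n) / P.T = P.c i := by
        rw [Nat.mul_comm, Nat.mul_add_div hP.hT, Nat.div_eq_of_lt hn', Nat.add_zero]
      have hL : i ∈ (P.run ω (P.c i * P.T + n)).L :=
        run_L_subset P ω (by omega : P.c i * P.T + n ≤ τ) hi
      have h1 : i ∉ P.sla (P.c i * P.T + n) (P.run ω (P.c i * P.T + n)).L := by
        intro hh
        have := (Finset.mem_filter.1 hh).2
        rw [hs] at this
        exact lt_irrefl _ this
      have h2 : i ∈ P.piv (P.c i * P.T + n) (P.run ω (P.c i * P.T + n)).L :=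
        Finset.mem_filter.2 ⟨hL, hs.symm⟩
      have h3 : i ∉ P.big (P.c i * P.T + n) (P.run ω (P.c i * P.T + n)).L
          (ω (P.c i * P.T + n)) := fun hh => h1 (Finset.mem_filter.1 hh).1
      have h4 : (P.run ω (P.c i * P.T + (n + 1))).x
          = P.newx (P.c i * P.T + n) (P.run ω (P.c i * P.T + n)) (ω (P.c i * P.T + n)) := rfl
      rw [h4]
      simp only [Par.newx, h3, if_false]
      rw [upd_of_notMem P _ _ _ i h1]
      simp only [Par.ini, h2, if_true]
  intro n hn
  have h1 := key n hn
  have h2 := run_live P k hP ω (P.c i * P.T + n) i (run_L_subset P ω (by omega) hi)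
  have h3 := run_live P k hP ω (P.c i * P.T) i (run_L_subset P ω (by omega) hi)
  have h4 : ∑ t ∈ range n, P.δ * sgn (ω (P.c i * P.T + t) i)
      = (P.run ω (P.c i * P.T + n)).x i - (P.run ω (P.c i * P.T)).x i := by
    rw [h1]; ring
  rw [h4]
  rw [abs_lt] at h2 h3
  rw [abs_le]
  constructor <;> linarith

end Pool.Agent.LibLoc73
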