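import Pool.Agent.LibLoc73.I1b
import Pool.Agent.LibLoc73.I1c

set_option autoImplicit false

/-! Task I2: every undecided variable has a cause. Cite F1, I1, I1b, I1c. -/

open Finset

namespace Pool.Agent.LibLoc73

variable {ι κ : Type*} [Fintype ι] [Fintype κ] [DecidableEq ι]

theorem I2_mem_foot_inl (P : Par ι κ) (i : ι) (j : κ) (h : P.a i j ≠ 0) :
    i ∈ P.foot (Sum.inl j) := by
  classical
  simp only [Par.foot, Finset.mem_filter, Finset.mem_univ, true_and]
  exact h

theorem I2_mem_foot_inr (P : Par ι κ) (i z : ι) (h : i ∈ P.nb z) :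
    i ∈ P.foot (Sum.inr z : κ ⊕ ι) := by
  simpa only [Par.foot] using h

/-- If `i` is live at `τ`: `conf_of_live`, cause `inr i`. Otherwise take the step `s` with
`i ∈ L_s`, `i ∉ L_{s+1}`; `x_i` does not change later, so `|x_i(s+1)| < 1 - η` and the filter
condition fails at a row `j` of `i`: either a variable `i'` of row `j` is big at step `s` (cause
`inr i'`), or `lam ≤ |row j|` at time `s+1`; then no variable of row `j` is live after `s+1`, the
value of row `j` does not change any more; if some variable `i'` of the row is ever big the cause is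
`inr i'`, otherwise `Y_eq_row` gives the cause `inl j`. -/
theorem undecided_cause (P : Par ι κ) (k : ℕ) (hP : P.Ok k) (ω : ℕ → ι → Bool) (τ : ℕ)
    (hτ : ∀ i, P.c i * P.T + P.T ≤ τ) (i : ι) (hi : |(P.run ω τ).x i| < 1 - P.η) :
    ∃ h : κ ⊕ ι, i ∈ P.foot h ∧ P.Cause ω τ h := by
  classical
  by_cases hL : i ∈ (P.run ω τ).L
  · exact ⟨Sum.inr i, I2_mem_foot_inr P i i (mem_nb_self P i),
      Or.inr (conf_of_live P k hP ω τ i (hτ i) hL)⟩
  · -- the step where `i` dies
    have hex : ∃ n, n ≤ τ ∧ i ∉ (P.run ω n).L := ⟨τ, le_refl _, hL⟩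
    have hmin := Nat.find_spec hex
    set n := Nat.find hex with hn
    have hn0 : n ≠ 0 := by
      intro h0
      rw [h0] at hmin
      exact hmin.2 (by simp [Par.run])
    obtain ⟨s, hs⟩ := Nat.exists_eq_succ_of_ne_zero hn0
    have hlive : i ∈ (P.run ω s).L := by
      by_contra hcon
      have hlt : s < Nat.find hex := by rw [← hn, hs]; exact Nat.lt_succ_self s
      exact Nat.find_min hex hlt ⟨by omega, hcon⟩
    have hsτ : s + 1 ≤ τ := by have := hmin.1; omega
    have hdead : i ∉ (P.run ω (s + 1)).L := by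
      have := hmin.2
      rwa [hs] at this
    have hx : (P.run ω τ).x i = (P.run ω (s + 1)).x i := run_x_of_notMem P ω hsτ i hdead
    rw [hx] at hi
    have hx1 : (P.run ω (s + 1)).x = P.newx s (P.run ω s) (ω s) := rfl
    have hfail : ¬ (|P.newx s (P.run ω s) (ω s) i| < 1 - P.η ∧
        ∀ j, P.a i j ≠ 0 → |P.row (P.newx s (P.run ω s) (ω s)) j| < P.lam ∧
          ∀ i' ∈ P.big s (P.run ω s).L (ω s), P.a i' j = 0) := by
      intro hc
      apply hdead
      have : (P.run ω (s + 1)).L = (P.step s (P.run ω s) (ω s)).L := rfl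
      rw [this]
      simp only [Par.step, Finset.mem_filter]
      exact ⟨hlive, hc⟩
    rw [hx1] at hi
    have hj : ∃ j, P.a i j ≠ 0 ∧ ¬ (|P.row (P.newx s (P.run ω s) (ω s)) j| < P.lam ∧
          ∀ i' ∈ P.big s (P.run ω s).L (ω s), P.a i' j = 0) := by
      by_contra hcon
      push Not at hcon
      exact hfail ⟨hi, hcon⟩
    obtain ⟨j, hij, hj⟩ := hj
    by_cases hbig : ∃ i', P.a i' j ≠ 0 ∧ P.IsBig ω τ i'
    · obtain ⟨i', hi', hb⟩ := hbig
      exact ⟨Sum.inr i', I2_mem_foot_inr P i i' (mem_nb_of_row P i' i j hi' hij), Or.inl hb⟩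
    · push Not at hbig
      have hnob : ∀ i' ∈ P.big s (P.run ω s).L (ω s), P.a i' j = 0 := by
        intro i' hi'
        by_contra hc
        exact hbig i' hc ⟨s, hsτ, hi'⟩
      have hrow : P.lam ≤ |P.row (P.newx s (P.run ω s) (ω s)) j| := by
        by_contra hc
        exact hj ⟨not_le.1 hc, hnob⟩
      rw [← hx1] at hrow
      have hnolive : ∀ i', P.a i' j ≠ 0 → i' ∉ (P.run ω (s + 1)).L := by
        intro i' hi' hc
        have := run_row_live P k hP ω (s + 1) i' hc j hi'
        linarith
      have hsame : P.row (P.run ω τ).x j = P.row (P.run ω (s + 1)).x j := by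
        unfold Par.row
        apply Finset.sum_congr rfl
        intro i' _
        by_cases hi' : P.a i' j = 0
        · rw [hi', zero_mul, zero_mul]
        · rw [run_x_of_notMem P ω hsτ i' (hnolive i' hi')]
      refine ⟨Sum.inl j, I2_mem_foot_inl P i j hij, ?_⟩
      show P.lam ≤ |P.Y ω τ j|
      rw [Y_eq_row P ω τ j hbig, hsame]
      exact hrow

end Pool.Agent.LibLoc73
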