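import Pool.Agent.LibLoc73.H2b
import Pool.Agent.LibLoc73.I2
import Pool.Agent.LibLoc73.J1

set_option autoImplicit false

/-! Task J2: size of the clusters. Cite H1, H1b, H2a (`BadEv`), I2, J1, `LibKomlos64.exists_list`. -/

open Finset

namespace Pool.Agent.LibLoc73

variable {ι κ : Type*} [Fintype ι] [Fintype κ] [DecidableEq ι] [DecidableEq κ]

/-- If the cluster of `i0` has more than `m k³` elements, the causes of its elements
(`undecided_cause`) form a set of at least `m+1` causes (feet have at most `k³` elements) and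
`exists_list` gives a bad chain. -/
theorem clu_card (P : Par ι κ) (k : ℕ) (hP : P.Ok k) (τ m : ℕ)
    (hτ : ∀ i, P.c i * P.T + P.T ≤ τ) (ω : Fin τ → ι → Bool)
    (hω : ∀ h : κ ⊕ ι, ¬ BadEv P τ m h ω) (i0 : ι)
    (hi0 : |(P.run (ext τ ω) τ).x i0| < 1 - P.η) :
    (clu P (P.run (ext τ ω) τ).x i0).card ≤ m * k ^ 3 := by
  classical
  set x := (P.run (ext τ ω) τ).x with hx
  set Q := clu P x i0 with hQ
  have hmem : ∀ i, i ∈ Q ↔ Relation.ReflTransGen (URel P x) i0 i := fun i => by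
    simp [hQ, clu]
  have hund : ∀ i ∈ Q, |x i| < 1 - P.η := by
    intro i hi
    rw [hmem] at hi
    rcases Relation.ReflTransGen.cases_tail hi with h | ⟨c, _, h⟩
    · rw [h]; exact hi0
    · exact h.2.1
  have hcause : ∀ i : ι, ∃ h : κ ⊕ ι, |x i| < 1 - P.η →
      i ∈ P.foot h ∧ P.Cause (ext τ ω) τ h := by
    intro i
    by_cases hi : |x i| < 1 - P.η
    · obtain ⟨h, h1⟩ := undecided_cause P k hP (ext τ ω) τ hτ i hi
      exact ⟨h, fun _ => h1⟩
    · exact ⟨Sum.inr i, fun h => absurd h hi⟩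
  choose dr hdr using hcause
  by_contra hcon
  push Not at hcon
  have hcard : Q.card ≤ (Q.image dr).card * k ^ 3 := by
    have h1 : Q.card ≤ (k ^ 3) * (Q.image dr).card := by
      apply card_le_mul_card_image
      intro h _
      refine (card_le_card ?_).trans (card_foot P k hP h)
      intro i hi
      obtain ⟨hi1, hi2⟩ := mem_filter.mp hi
      rw [← hi2]
      exact (hdr i (hund i hi1)).1
    linarith
  have hm : m + 1 ≤ (Q.image dr).card := by
    by_contra hlt
    push Not at hlt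
    have h2 : (Q.image dr).card * k ^ 3 ≤ m * k ^ 3 := Nat.mul_le_mul_right _ (by omega)
    omega
  obtain ⟨l, hl1, hl2, hl3, hl4, _⟩ := Pool.Agent.LibKomlos64.exists_list Q dr
    (fun a b => P.HAdj a b) (fun a b h => HAdj_symm P a b h)
    (fun a b => a ∈ Q ∧ b ∈ Q ∧ URel P x a b)
    (fun a b h => ⟨h.1, h.2.1, a, (hdr a (hund a h.1)).1, b, (hdr b (hund b h.2.1)).1,
      h.2.2.2.2⟩) i0 ((hmem i0).mpr Relation.ReflTransGen.refl) (by
      intro i hi
      rw [hmem] at hi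
      induction hi with
      | refl => exact Relation.ReflTransGen.refl
      | tail hab hbc ih =>
        exact ih.tail ⟨(hmem _).mpr hab, (hmem _).mpr (hab.tail hbc), hbc⟩) m hm
  cases l with
  | nil => simp at hl2
  | cons h l =>
    refine hω h ⟨l, hl1, by simpa using hl2, hl3, fun h' hh' => ?_⟩
    have h5 : h' ∈ Q.image dr := hl4 (List.mem_toFinset.mpr hh')
    obtain ⟨i, hi, rfl⟩ := mem_image.mp h5
    exact (hdr i (hund i hi)).2

theorem clu_rows (P : Par ι κ) (k : ℕ) (hP : P.Ok k) (τ m : ℕ)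
    (hτ : ∀ i, P.c i * P.T + P.T ≤ τ) (ω : Fin τ → ι → Bool)
    (hω : ∀ h : κ ⊕ ι, ¬ BadEv P τ m h ω) (i0 : ι)
    (hi0 : |(P.run (ext τ ω) τ).x i0| < 1 - P.η) :
    (Pool.Agent.LibKomlos64.rowsOf P.a (clu P (P.run (ext τ ω) τ).x i0)).card ≤ m * k ^ 5 := by
  classical
  have h1 := clu_card P k hP τ m hτ ω hω i0 hi0
  set Q := clu P (P.run (ext τ ω) τ).x i0
  have h2 : Pool.Agent.LibKomlos64.rowsOf P.a Q ⊆
      Q.biUnion (fun i => univ.filter (fun j => P.a i j ≠ 0)) := by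
    intro j hj
    rw [Pool.Agent.LibKomlos64.mem_rowsOf] at hj
    obtain ⟨i, hi, hij⟩ := hj
    exact mem_biUnion.mpr ⟨i, hi, mem_filter.mpr ⟨mem_univ _, hij⟩⟩
  calc (Pool.Agent.LibKomlos64.rowsOf P.a Q).card
      ≤ (Q.biUnion (fun i => univ.filter (fun j => P.a i j ≠ 0))).card := card_le_card h2
    _ ≤ Q.card * k ^ 2 := card_biUnion_le_card_mul _ _ _ fun i _ => hP.hrows i
    _ ≤ (m * k ^ 3) * k ^ 2 := Nat.mul_le_mul_right _ h1
    _ = m * k ^ 5 := by ring

end Pool.Agent.LibLoc73
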