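import Mathlib

set_option autoImplicit false

/-! Task K2: numerical inequalities for the parameters
`η = 1/k`, `δ = 1/(200 k²)`, `T = 47160000 k⁵`, `τ = 47160000 k⁸`, `Lc = 2k`, `r = 40 k²`,
`lam = 147 √(log k)`, `B = 20 √(log k)`. (`log k ≤ k - 1`; `log (47160000) < 18`, etc.) -/

open Real

namespace Pool.Agent.LibLoc73

private theorem K2_pow (k : ℕ) (hk : 2 ≤ k) (n : ℕ) :
    (k : ℝ) ^ n ≤ exp (n * ((k : ℝ) - 1)) := by
  have h1 : (k : ℝ) ≤ exp ((k : ℝ) - 1) := by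
    have := add_one_le_exp ((k : ℝ) - 1)
    linarith
  calc (k : ℝ) ^ n ≤ (exp ((k : ℝ) - 1)) ^ n := pow_le_pow_left₀ (by positivity) h1 n
    _ = exp (n * ((k : ℝ) - 1)) := by rw [← exp_nat_mul]

private theorem K2_exp (n : ℕ) : (2.7 : ℝ) ^ n ≤ exp n := by
  have h1 : (2.7 : ℝ) ≤ exp 1 := by
    have := exp_one_gt_d9
    linarith
  calc (2.7 : ℝ) ^ n ≤ (exp 1) ^ n := pow_le_pow_left₀ (by norm_num) h1 n
    _ = exp n := by rw [← exp_nat_mul, mul_one]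

/-- `A √B ≤ 1/4` from `16 A² B ≤ 1` -/
private theorem K2_sqrt (A B : ℝ) (hA : 0 ≤ A) (h : 16 * A ^ 2 * B ≤ 1) : A * √B ≤ 1 / 4 := by
  rcases eq_or_lt_of_le hA with h0 | h0
  · rw [← h0]; norm_num
  · have h1 : √B ≤ 1 / (4 * A) := by
      apply Real.sqrt_le_iff.mpr
      refine ⟨by positivity, ?_⟩
      rw [div_pow, one_pow, le_div_iff₀ (by positivity)]
      nlinarith
    calc A * √B ≤ A * (1 / (4 * A)) := mul_le_mul_of_nonneg_left h1 hA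
      _ = 1 / 4 := by field_simp

theorem num_a (k : ℕ) (hk : 2 ≤ k) :
    (k : ℝ) ^ 63 * √(2 * exp (-((1 / (200 * (k : ℝ) ^ 2)) ^ 2 * (47160000 * (k : ℝ) ^ 5) / 9)))
      ≤ 1 / 4 := by
  have hk' : (2 : ℝ) ≤ k := by exact_mod_cast hk
  have hk0 : (0 : ℝ) < k := by linarith
  apply K2_sqrt _ _ (by positivity)
  have h1 : (1 / (200 * (k : ℝ) ^ 2)) ^ 2 * (47160000 * (k : ℝ) ^ 5) / 9 = 131 * k := by
    field_simp
    norm_num
  rw [h1, ← pow_mul]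
  have h2 := K2_pow k hk 126
  have h3 := K2_exp 5
  calc 16 * (k : ℝ) ^ (63 * 2) * (2 * exp (-(131 * (k : ℝ))))
      ≤ 16 * exp ((126 : ℕ) * ((k : ℝ) - 1)) * (2 * exp (-(131 * (k : ℝ)))) := by
        gcongr
    _ = 32 * exp ((126 : ℕ) * ((k : ℝ) - 1) + -(131 * (k : ℝ))) := by rw [exp_add]; ring
    _ ≤ 32 * exp (-5) := by
        gcongr
        push_cast
        linarith
    _ ≤ 1 := by
        rw [exp_neg, ← div_eq_mul_inv, div_le_one (exp_pos _)]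
        have h4 : exp ((5 : ℕ) : ℝ) = exp 5 := by norm_num
        rw [← h4]
        refine le_trans ?_ h3
        norm_num

theorem num_b (k : ℕ) (hk : 2 ≤ k) :
    (k : ℝ) ^ 63 * √(2 * (47160000 * (k : ℝ) ^ 8) *
      exp (-((1 / (k : ℝ)) ^ 2 / (80 * (1 / (200 * (k : ℝ) ^ 2)) ^ 2)))) ≤ 1 / 4 := by
  have hk' : (2 : ℝ) ≤ k := by exact_mod_cast hk
  have hk0 : (0 : ℝ) < k := by linarith
  apply K2_sqrt _ _ (by positivity)
  have h1 : (1 / (k : ℝ)) ^ 2 / (80 * (1 / (200 * (k : ℝ) ^ 2)) ^ 2) = 500 * (k : ℝ) ^ 2 := by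
    field_simp
    norm_num
  rw [h1, ← pow_mul]
  have h2 := K2_pow k hk 134
  have h3 := K2_exp 25
  calc 16 * (k : ℝ) ^ (63 * 2) * (2 * (47160000 * (k : ℝ) ^ 8) * exp (-(500 * (k : ℝ) ^ 2)))
      = (32 * 47160000) * (k : ℝ) ^ 134 * exp (-(500 * (k : ℝ) ^ 2)) := by ring
    _ ≤ (32 * 47160000) * exp ((134 : ℕ) * ((k : ℝ) - 1)) * exp (-(500 * (k : ℝ) ^ 2)) := by
        gcongr
    _ = (32 * 47160000) * exp ((134 : ℕ) * ((k : ℝ) - 1) + -(500 * (k : ℝ) ^ 2)) := by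
        rw [exp_add]; ring
    _ ≤ (32 * 47160000) * exp (-25) := by
        gcongr
        push_cast
        nlinarith
    _ ≤ 1 := by
        rw [exp_neg, ← div_eq_mul_inv, div_le_one (exp_pos _)]
        have h4 : exp ((25 : ℕ) : ℝ) = exp 25 := by norm_num
        rw [← h4]
        refine le_trans ?_ h3
        norm_num

theorem num_c (k : ℕ) (hk : 2 ≤ k) :
    (k : ℝ) ^ 63 * √(2 * exp (-((147 * √(log k)) ^ 2 / 164))) ≤ 1 / 4 := by
  have hk' : (2 : ℝ) ≤ k := by exact_mod_cast hk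
  have hk0 : (0 : ℝ) < k := by linarith
  have hlog : 0 ≤ log k := log_nonneg (by linarith)
  apply K2_sqrt _ _ (by positivity)
  have h1 : (147 * √(log k)) ^ 2 / 164 = 21609 / 164 * log k := by
    rw [mul_pow, sq_sqrt hlog]
    ring
  have h2 : exp (-(21609 / 164 * log k)) ≤ exp (-(131 * log k)) := by
    gcongr
    norm_num
  have h3 : exp (-(131 * log k)) = ((k : ℝ) ^ 131)⁻¹ := by
    rw [exp_neg]
    congr 1
    have : (131 : ℝ) * log k = ((131 : ℕ) : ℝ) * log k := by norm_num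
    rw [this, exp_nat_mul, exp_log hk0]
  rw [h1, ← pow_mul]
  calc 16 * (k : ℝ) ^ (63 * 2) * (2 * exp (-(21609 / 164 * log k)))
      ≤ 16 * (k : ℝ) ^ (63 * 2) * (2 * ((k : ℝ) ^ 131)⁻¹) := by
        rw [← h3]; gcongr
    _ = 32 / (k : ℝ) ^ 5 := by
        field_simp
        ring
    _ ≤ 1 := by
        rw [div_le_one (by positivity)]
        calc (32 : ℝ) = 2 ^ 5 := by norm_num
          _ ≤ (k : ℝ) ^ 5 := pow_le_pow_left₀ (by norm_num) hk' 5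

theorem num_r (k : ℕ) (hk : 2 ≤ k) :
    20 * (1 / (200 * (k : ℝ) ^ 2)) ^ 2 * (47160000 * (k : ℝ) ^ 8)
      * (1 - 1 / (2 * (k : ℝ))) ^ (40 * k ^ 2) ≤ 1 := by
  have hk' : (2 : ℝ) ≤ k := by exact_mod_cast hk
  have hk0 : (0 : ℝ) < k := by linarith
  have h1 : 20 * (1 / (200 * (k : ℝ) ^ 2)) ^ 2 * (47160000 * (k : ℝ) ^ 8) =
      23580 * (k : ℝ) ^ 4 := by
    field_simp
    norm_num
  rw [h1]
  have h0 : 0 ≤ 1 - 1 / (2 * (k : ℝ)) := by
    rw [sub_nonneg, div_le_one (by positivity)]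
    linarith
  have h2 : (1 - 1 / (2 * (k : ℝ))) ^ (40 * k ^ 2) ≤ exp (-(20 * (k : ℝ))) := by
    have h3 : 1 - 1 / (2 * (k : ℝ)) ≤ exp (-(1 / (2 * (k : ℝ)))) := by
      have := add_one_le_exp (-(1 / (2 * (k : ℝ))))
      linarith
    calc (1 - 1 / (2 * (k : ℝ))) ^ (40 * k ^ 2) ≤ (exp (-(1 / (2 * (k : ℝ))))) ^ (40 * k ^ 2) :=
          pow_le_pow_left₀ h0 h3 _
      _ = exp (-(20 * (k : ℝ))) := by
          rw [← exp_nat_mul]
          congr 1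
          push_cast
          field_simp
          norm_num
  have h4 := K2_pow k hk 4
  have h5 := K2_exp 25
  calc 23580 * (k : ℝ) ^ 4 * (1 - 1 / (2 * (k : ℝ))) ^ (40 * k ^ 2)
      ≤ 23580 * exp ((4 : ℕ) * ((k : ℝ) - 1)) * exp (-(20 * (k : ℝ))) := by gcongr
    _ = 23580 * exp ((4 : ℕ) * ((k : ℝ) - 1) + -(20 * (k : ℝ))) := by rw [exp_add]; ring
    _ ≤ 23580 * exp (-25) := by
        gcongr
        push_cast
        linarith
    _ ≤ 1 := by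
        rw [exp_neg, ← div_eq_mul_inv, div_le_one (exp_pos _)]
        have h4 : exp ((25 : ℕ) : ℝ) = exp 25 := by norm_num
        rw [← h4]
        refine le_trans ?_ h5
        norm_num

theorem num_B (k : ℕ) (hk : 2 ≤ k) :
    2 * ((47160000 * k ^ 8 * (40 * k ^ 2 + 1) * k ^ 5 : ℕ) : ℝ)
      ≤ exp ((20 * √(log k)) ^ 2 / 8) := by
  have hk' : (2 : ℝ) ≤ k := by exact_mod_cast hk
  have hk0 : (0 : ℝ) < k := by linarith
  have hlog : 0 ≤ log k := log_nonneg (by linarith)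
  have h1 : (20 * √(log k)) ^ 2 / 8 = ((50 : ℕ) : ℝ) * log k := by
    rw [mul_pow, sq_sqrt hlog]
    norm_num
    ring
  rw [h1, exp_nat_mul, exp_log hk0]
  push_cast
  have h2 : (40 * (k : ℝ) ^ 2 + 1) ≤ 41 * (k : ℝ) ^ 2 := by nlinarith
  have h3 : (2 : ℝ) ^ 35 ≤ (k : ℝ) ^ 35 := pow_le_pow_left₀ (by norm_num) hk' 35
  calc 2 * (47160000 * (k : ℝ) ^ 8 * (40 * (k : ℝ) ^ 2 + 1) * (k : ℝ) ^ 5)
      ≤ 2 * (47160000 * (k : ℝ) ^ 8 * (41 * (k : ℝ) ^ 2) * (k : ℝ) ^ 5) := by gcongr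
    _ = 3867120000 * (k : ℝ) ^ 15 := by ring
    _ ≤ (k : ℝ) ^ 35 * (k : ℝ) ^ 15 := by
        gcongr
        refine le_trans ?_ h3
        norm_num
    _ = (k : ℝ) ^ 50 := by ring

end Pool.Agent.LibLoc73
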