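import Pool.Agent.LibLoc73.J2
import Pool.Agent.LibLoc73.H3
import Pool.Agent.LibLoc73.D2b
import Pool.Agent.LibLoc73.E2
import Pool.Agent.LibLoc73.E3
import Pool.Agent.LibLoc73.E4
import Pool.Agent.LibLoc73.K1
import Pool.Agent.LibLoc73.K2

set_option autoImplicit false

/-! Assembly (helper73). -/

open Finset

namespace Pool.Agent.LibLoc73

variable {ι κ : Type*} [Fintype ι] [Fintype κ] [DecidableEq ι] [DecidableEq κ]

theorem main_matrix (k : ℕ) (hk : 2 ≤ k) (a : ι → κ → ℝ) (hcol : ∀ i, ∑ j, (a i j) ^ 2 ≤ 1)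
    (hrow : ∀ j, (univ.filter (fun i => a i j ≠ 0)).card ≤ k)
    (hrows : ∀ i, (univ.filter (fun j => a i j ≠ 0)).card ≤ k ^ 2) :
    ∃ ε : ι → ℝ, (∀ i, |ε i| = 1) ∧ ∀ j, |∑ i, a i j * ε i| ≤ 167 * √(Real.log k) + 3 := by
  classical
  have hkr : (2 : ℝ) ≤ k := by exact_mod_cast hk
  have hk0 : (0 : ℝ) < k := by linarith
  have hlogk : 0 < Real.log k := Real.log_pos (by linarith)
  -- preliminary parameters, to colour
  set P0 : Par ι κ := ⟨a, fun _ => 0, 1, 0, 1, 1, 1, 1⟩ with hP0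
  have hcardnb : ∀ i, (P0.nb i).card ≤ k ^ 3 := card_nb P0 k (by omega) hrow hrows
  obtain ⟨c, hcD, hcne⟩ := greedy P0.nb (k ^ 3) (mem_nb_self P0) (mem_nb_symm P0) hcardnb
  set P : Par ι κ := ⟨a, c, 47160000 * k ^ 5, 40 * k ^ 2, 2 * k, 1 / (200 * (k : ℝ) ^ 2), 1 / k,
    147 * √(Real.log k)⟩ with hPdef
  have hP : P.Ok k := by
    refine ⟨hk, hcol, hrow, hrows, ?_, ?_, le_rfl, ?_, ?_, ?_, ?_, ?_⟩
    · intro i i' j hii h1 h2
      exact hcne i i' (mem_nb_of_row P0 i i' j h1 h2) hii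
    · show 0 < 47160000 * k ^ 5
      positivity
    · show (0 : ℝ) < 1 / (200 * (k : ℝ) ^ 2)
      positivity
    · show (1 : ℝ) / (200 * (k : ℝ) ^ 2) ≤ 1 / k
      apply one_div_le_one_div_of_le hk0
      nlinarith
    · show (1 : ℝ) / k < 1
      rw [div_lt_one hk0]; linarith
    · show (1 : ℝ) / k * k ≤ 1
      rw [one_div, inv_mul_cancel₀ hk0.ne']
    · show 0 < 147 * √(Real.log k)
      have := Real.sqrt_pos.2 hlogk
      positivity
  set τ : ℕ := 47160000 * k ^ 8 with hτdef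
  have hτ0 : 0 < τ := by positivity
  have hwin : ∀ i, P.c i * P.T + P.T ≤ τ := by
    intro i
    have h1 : c i + 1 ≤ k ^ 3 := hcD i
    show c i * (47160000 * k ^ 5) + 47160000 * k ^ 5 ≤ 47160000 * k ^ 8
    calc c i * (47160000 * k ^ 5) + 47160000 * k ^ 5
        = (c i + 1) * (47160000 * k ^ 5) := by ring
      _ ≤ k ^ 3 * (47160000 * k ^ 5) := Nat.mul_le_mul_right _ h1
      _ = 47160000 * k ^ 8 := by ring
  have hτr : ((τ : ℕ) : ℝ) = 47160000 * (k : ℝ) ^ 8 := by rw [hτdef]; push_cast; ring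
  have hδ1 : P.δ ≤ 1 := hP.hδη.trans hP.hη.le
  -- exponential moments
  have hD : ∀ (θ : κ → ℝ) (S : ℕ → ι → ℝ),
      ∑ ω : Fin τ → ι → Bool, Real.exp (∑ j, θ j * P.Y (ext τ ω) τ j
          + ∑ s ∈ range τ, ∑ i ∈ P.sla s (P.run (ext τ ω) s).L, S s i * P.U (ext τ ω) s i)
        ≤ (2 ^ Fintype.card ι) ^ τ * Real.exp (41 * ∑ j, θ j ^ 2
            + 20 * P.δ ^ 2 * ∑ s ∈ range τ, ∑ i, S s i ^ 2) := by
    intro θ S
    have h1 := exp_moment P k hP τ (vec (fun _ => 0) θ) S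
    have h2 : ∀ ω : Fin τ → ι → Bool, ∑ s ∈ range τ,
        (inner ℝ (vec (fun _ => (0 : ℝ)) θ : EuclideanSpace ℝ (ι ⊕ κ)) (P.emb (P.U (ext τ ω) s))
          + ∑ i ∈ P.sla s (P.run (ext τ ω) s).L, S s i * P.U (ext τ ω) s i)
        = ∑ j, θ j * P.Y (ext τ ω) τ j
          + ∑ s ∈ range τ, ∑ i ∈ P.sla s (P.run (ext τ ω) s).L, S s i * P.U (ext τ ω) s i := by
      intro ω
      rw [sum_add_distrib]
      congr 1
      simp_rw [inner_vec_emb, zero_mul, sum_const_zero, zero_add, Par.Y, mul_sum]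
      rw [sum_comm]
    simp_rw [h2] at h1
    refine h1.trans ?_
    apply mul_le_mul_of_nonneg_left _ (by positivity)
    apply Real.exp_le_exp.2
    have h3 : ‖(vec (fun _ => (0 : ℝ)) θ : EuclideanSpace ℝ (ι ⊕ κ))‖ ^ 2 = ∑ j, θ j ^ 2 := by
      rw [norm_vec_sq]; simp
    rw [h3]
    have h4 : 20 * P.δ ^ 2 * τ * (1 - 1 / P.Lc) ^ P.r ≤ 1 := by
      have := num_r k hk
      rw [hτr]
      exact this
    have h5 : 0 ≤ ∑ j, θ j ^ 2 := sum_nonneg fun j _ => sq_nonneg _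
    nlinarith
  have hJ := joint_tail P hP.hδ (lt_of_lt_of_le hP.hδ hP.hδη) hP.hlam τ hD
  have hA : ∀ A : Finset ι, (((univ : Finset (Fin τ → ι → Bool)).filter (fun ω =>
        ∀ z ∈ A, P.Conf (ext τ ω) z)).card : ℝ) ≤ (2 ^ Fintype.card ι) ^ τ
          * (2 * Real.exp (-(P.δ ^ 2 * P.T / 9))) ^ A.card :=
    fun A => conf_prod P hP.hδ hδ1 τ A (fun z _ => hwin z)
  have hcause := cause_prob P τ (2 * Real.exp (-(P.δ ^ 2 * P.T / 9)))
    (2 * τ * Real.exp (-(P.η ^ 2 / (80 * P.δ ^ 2)))) (2 * Real.exp (-(P.lam ^ 2 / 164)))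
    (by positivity) (by positivity) (by positivity) hA hJ
  set q : ℝ := √(2 * Real.exp (-(P.δ ^ 2 * P.T / 9)))
    + √(2 * τ * Real.exp (-(P.η ^ 2 / (80 * P.δ ^ 2)))) + √(2 * Real.exp (-(P.lam ^ 2 / 164)))
    with hq
  have hqk : (k : ℝ) ^ 63 * q ≤ 1 := by
    have ha := num_a k hk
    have hb := num_b k hk
    have hc := num_c k hk
    have e1 : √(2 * Real.exp (-(P.δ ^ 2 * P.T / 9)))
        = √(2 * Real.exp (-((1 / (200 * (k : ℝ) ^ 2)) ^ 2 * (47160000 * (k : ℝ) ^ 5) / 9))) := by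
      have : ((P.T : ℕ) : ℝ) = 47160000 * (k : ℝ) ^ 5 := by
        show ((47160000 * k ^ 5 : ℕ) : ℝ) = _
        push_cast; ring
      rw [this]
    have e2 : √(2 * τ * Real.exp (-(P.η ^ 2 / (80 * P.δ ^ 2))))
        = √(2 * (47160000 * (k : ℝ) ^ 8) *
            Real.exp (-((1 / (k : ℝ)) ^ 2 / (80 * (1 / (200 * (k : ℝ) ^ 2)) ^ 2)))) := by
      rw [hτr]
    have e3 : √(2 * Real.exp (-(P.lam ^ 2 / 164)))
        = √(2 * Real.exp (-((147 * √(Real.log k)) ^ 2 / 164))) := rfl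
    rw [hq, e1, e2, e3, mul_add, mul_add]
    linarith
  set m : ℕ := τ * (P.r + 1) with hm
  obtain ⟨ω, hω⟩ : ∃ ω : Fin τ → ι → Bool, ∀ h : κ ⊕ ι, ¬ BadEv P τ m h ω := by
    refine exists_omega P k hP τ m hτ0 le_rfl q (by positivity) hqk ?_
    intro H
    convert hcause H
  have hPB : Pool.Agent.LibKomlos64.PB P.a (20 * √(Real.log k)) (m * k ^ 5) := by
    apply Pool.Agent.LibKomlos64.PB_base P.a hcol
    · have := Real.sqrt_pos.2 hlogk
      positivity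
    · have := num_B k hk
      have e : ((m * k ^ 5 : ℕ) : ℝ) = ((47160000 * k ^ 8 * (40 * k ^ 2 + 1) * k ^ 5 : ℕ) : ℝ) := by
        rfl
      rw [e]
      exact this
  obtain ⟨ε, hε1, hε2⟩ := round_clusters P k hP (P.run (ext τ ω) τ).x
    (run_x_le P k hP _ _) (20 * √(Real.log k)) (by positivity) (m * k ^ 5) hPB
    (fun i0 hi0 => clu_rows P k hP τ m hwin ω hω i0 hi0)
  refine ⟨ε, hε1, ?_⟩
  intro j
  have h1 := run_row_le P k hP (ext τ ω) τ j
  have h2 := hε2 j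
  have h3 : |P.row ε j| ≤ |P.row ε j - P.row (P.run (ext τ ω) τ).x j|
      + |P.row (P.run (ext τ ω) τ).x j| := by
    have := abs_add_le (P.row ε j - P.row (P.run (ext τ ω) τ).x j)
      (P.row (P.run (ext τ ω) τ).x j)
    rwa [sub_add_cancel] at this
  have h4 : P.lam = 147 * √(Real.log k) := rfl
  have h5 : P.row ε j = ∑ i, a i j * ε i := rfl
  rw [h5] at h2 h3
  linarith

end Pool.Agent.LibLoc73
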